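import Pool.Agent.helper71.CT.Adm
import Pool.Agent.helper3.FlatTorus.Structure
import Pool.Agent.helper3.FlatTorus.Criterion

/-!
Strictness, in the vocabulary of `helper3`: a displacement reachable in a narrow cone is strictly
admissible in every wider open cone.
-/

open Quaternion Set Filter
open scoped Topology

namespace Pool.Agent.helper71.CT

open Pool.Agent.helper70.Tori
open Pool.Agent.helper3.FlatTorus (cross Inner Reach Adm)

lemma cross_eq_crs (u v : ℂ) : cross u v = crs u v := rfl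

lemma inner_eq_ip (e f : ℂ) : (inner ℝ e f : ℝ) = ip e f := by
  rw [Complex.inner]
  simp [ip]
  ring

theorem adm_of_reach_inner (MI : MainIneq) {e f e₁ f₁ V : ℂ} {ε : ℝ} (he : ‖e‖ = 1)
    (hf : ‖f‖ = 1) (hef : 0 < cross e f) (hin : Inner e f e₁ f₁) (he₁ : ‖e₁‖ = 1)
    (hf₁ : ‖f₁‖ = 1) (hef₁ : 0 < cross e₁ f₁) (hε : ε = 1 ∨ ε = -1) (hr : Reach e₁ f₁ V ε) :
    ∃ X Y : ℝ, 0 < X ∧ 0 < Y ∧ V = X • e + Y • f ∧ Adm ε e f X Y := by
  obtain ⟨⟨a, b, ha, hb, h1⟩, ⟨a', b', ha', hb', h2⟩⟩ := hin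
  obtain ⟨x₁, y₁, hx, hy, hV, hl⟩ := hr
  have h1' : e₁ = (a : ℂ) * e + (b : ℂ) * f := by
    rw [h1]; simp
  have h2' : f₁ = (a' : ℂ) * e + (b' : ℂ) * f := by
    rw [h2]; simp
  have hrc : ReachC e₁ f₁ x₁ y₁ ε := hl
  have key := adm_of_reach MI he hf he₁ hf₁ hef ha hb ha' hb' h1' h2' hef₁.ne' hx hy hε hrc
    (X := a * x₁ + a' * y₁) (Y := b * x₁ + b' * y₁) rfl rfl
  refine ⟨a * x₁ + a' * y₁, b * x₁ + b' * y₁, by positivity, by positivity, ?_, ?_⟩
  · rw [hV, h1, h2]; module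
  · refine ⟨fun h => ?_, fun N hN1 hN => ?_⟩
    · have := key.1 h
      simpa using this
    · obtain ⟨k1, k2, k3⟩ := key.2 N hN1 hN
      refine ⟨by simpa using k1, by simpa using k2, fun hX hY => ?_⟩
      have := k3 hX hY
      rw [inner_eq_ip]
      unfold RR at this
      linarith

end Pool.Agent.helper71.CT
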