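import Pool.Agent.helper71.CT.Mono

/-!
Strictness: closure statements in a narrow cone imply the strict admissibility inequalities in
every wider open cone.
-/

open Quaternion Set Filter
open scoped Topology

namespace Pool.Agent.helper71.CT

open Pool.Agent.helper70.Tori

/-- the main inequality for all numbers of turns (proved in `helper70`) -/
def MainIneq : Prop := ∀ {e f : ℂ}, ‖e‖ = 1 → ‖f‖ = 1 → ∀ (l : List (ℝ × ℝ)), Nonneg l →
  ∀ N : ℕ, 1 ≤ N → sx l ≤ N * Real.pi → sy l ≤ N * Real.pi →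
    Real.arccos ((-1) ^ N * (hol e f l).re) ≤
      N * Real.arccos (-RR (ip e f) (sx l / N) (sy l / N))

lemma arccos_neg_one_of {N : ℕ} {ε : ℝ} (hN : (-1) ^ N = -ε) (hε : ε = 1 ∨ ε = -1) :
    Real.arccos ((-1) ^ N * ε) = Real.pi := by
  rw [hN]
  rcases hε with h | h <;> rw [h] <;> norm_num

/-- nonstrict disc inequality -/
lemma ReachC.disc_e {e f : ℂ} (he : ‖e‖ = 1) (hf : ‖f‖ = 1) {X Y ε : ℝ} (h : ReachC e f X Y ε)
    {N : ℕ} (hN : (-1) ^ N = -ε) (hε : ε = 1 ∨ ε = -1) :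
    Real.pi ≤ ‖(X : ℂ) * e + (Y : ℂ) * f - ((N * Real.pi : ℝ) : ℂ) * e‖ := by
  have key : Real.arccos ((-1) ^ N * ε) ≤
      ‖(X : ℂ) * e + (Y : ℂ) * f - ((N * Real.pi : ℝ) : ℂ) * e‖ := by
    refine h.limit (g := fun t => Real.arccos ((-1) ^ N * t))
      (Real.continuous_arccos.comp (by fun_prop)) ?_
    intro l h1 h2 h3
    rw [← h2, ← h3]
    exact dist_disc_e he hf l h1 N
  rwa [arccos_neg_one_of hN hε] at key

lemma ReachC.disc_f {e f : ℂ} (he : ‖e‖ = 1) (hf : ‖f‖ = 1) {X Y ε : ℝ} (h : ReachC e f X Y ε)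
    {N : ℕ} (hN : (-1) ^ N = -ε) (hε : ε = 1 ∨ ε = -1) :
    Real.pi ≤ ‖(X : ℂ) * e + (Y : ℂ) * f - ((N * Real.pi : ℝ) : ℂ) * f‖ := by
  have key : Real.arccos ((-1) ^ N * ε) ≤
      ‖(X : ℂ) * e + (Y : ℂ) * f - ((N * Real.pi : ℝ) : ℂ) * f‖ := by
    refine h.limit (g := fun t => Real.arccos ((-1) ^ N * t))
      (Real.continuous_arccos.comp (by fun_prop)) ?_
    intro l h1 h2 h3
    rw [← h2, ← h3]
    exact dist_disc_f he hf l h1 N
  rwa [arccos_neg_one_of hN hε] at key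

/-- nonstrict main inequality -/
lemma ReachC.main (MI : MainIneq) {e f : ℂ} (he : ‖e‖ = 1) (hf : ‖f‖ = 1) {X Y ε : ℝ}
    (h : ReachC e f X Y ε) {N : ℕ} (hN1 : 1 ≤ N) (hN : (-1) ^ N = -ε) (hε : ε = 1 ∨ ε = -1)
    (hX : X ≤ N * Real.pi) (hY : Y ≤ N * Real.pi) :
    -Real.cos (Real.pi / N) ≤ RR (ip e f) (X / N) (Y / N) := by
  have h1 : Real.pi ≤ N * Real.arccos (-RR (ip e f) (X / N) (Y / N)) := by
    rw [← arccos_neg_one_of hN hε]
    refine h.limit (g := fun t => Real.arccos ((-1) ^ N * t))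
      (Real.continuous_arccos.comp (by fun_prop)) ?_
    intro l h1 h2 h3
    rw [← h2, ← h3]
    exact MI he hf l h1 N hN1 (by rw [h2]; exact hX) (by rw [h3]; exact hY)
  have hN0 : (0:ℝ) < N := by exact_mod_cast hN1
  have hN1' : (1:ℝ) ≤ N := by exact_mod_cast hN1
  have hpi := Real.pi_pos
  have h2 : Real.pi / N ≤ Real.arccos (-RR (ip e f) (X / N) (Y / N)) := by
    rw [div_le_iff₀ hN0]; linarith
  have b := RR_bounds he hf (X / N) (Y / N)
  have h3 := Real.cos_le_cos_of_nonneg_of_le_pi (by positivity) (Real.arccos_le_pi _) h2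
  rw [Real.cos_arccos (by linarith) (by linarith)] at h3
  linarith

/-- `sin y > y cos y` on `(0, π]` -/
lemma mul_cos_lt_sin {y : ℝ} (h0 : 0 < y) (h1 : y ≤ Real.pi) : y * Real.cos y < Real.sin y := by
  rcases lt_or_ge y (Real.pi / 2) with h | h
  · have h2 := Real.lt_tan h0 h
    have h3 : 0 < Real.cos y := Real.cos_pos_of_mem_Ioo ⟨by linarith, h⟩
    rw [Real.tan_eq_sin_div_cos, lt_div_iff₀ h3] at h2
    exact h2
  · rcases eq_or_lt_of_le h with h2 | h2
    · rw [← h2]; simp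
    · have h3 : Real.cos y < 0 := Real.cos_neg_of_pi_div_two_lt_of_lt h2
        (by linarith [Real.pi_pos])
      have h4 : 0 ≤ Real.sin y := Real.sin_nonneg_of_nonneg_of_le_pi h0.le h1
      nlinarith

/-- derivative of `F` under rotation of the second edge -/
lemma hasDerivAt_F {L H g : ℝ} (hg : Real.sin g ≠ 0) :
    HasDerivAt (fun θ => RR (Real.cos θ) (L - H * (Real.cos θ / Real.sin θ)) (H / Real.sin θ))
      (Real.sin g * Real.sin (L - H * (Real.cos g / Real.sin g)) *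
        (Real.sin (H / Real.sin g) - H / Real.sin g * Real.cos (H / Real.sin g))) g := by
  have cs := Real.sin_sq_add_cos_sq g
  have dx : HasDerivAt (fun θ => L - H * (Real.cos θ / Real.sin θ)) (H / Real.sin g ^ 2) g := by
    have := (((Real.hasDerivAt_cos g).div (Real.hasDerivAt_sin g) hg).const_mul H).const_sub L
    refine this.congr_deriv ?_
    field_simp
    linear_combination H * cs
  have dy : HasDerivAt (fun θ => H / Real.sin θ) (-(H * Real.cos g / Real.sin g ^ 2)) g := by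
    have := ((hasDerivAt_const g H).div (Real.hasDerivAt_sin g) hg)
    refine this.congr_deriv ?_
    field_simp
    ring
  have h1 := (((Real.hasDerivAt_cos _).comp g dx).mul ((Real.hasDerivAt_cos _).comp g dy)).sub
    ((Real.hasDerivAt_cos g).mul
      (((Real.hasDerivAt_sin _).comp g dx).mul ((Real.hasDerivAt_sin _).comp g dy)))
  refine (h1.congr_deriv ?_)
  simp only [Function.comp_def, Pi.mul_apply]
  set x := L - H * (Real.cos g / Real.sin g)
  set y := H / Real.sin g with hy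
  have hH : H = y * Real.sin g := by rw [hy]; field_simp
  rw [hH]
  field_simp
  linear_combination (y * Real.sin x * Real.cos y) * cs

/-- Coordinates of the turned edge. -/
lemma edge_eq {e f : ℂ} (he : ‖e‖ = 1) {θ : ℝ}
    (hθ : Real.sin θ ≠ 0) :
    f = ((ip e f - crs e f * (Real.cos θ / Real.sin θ) : ℝ) : ℂ) * e +
      ((crs e f / Real.sin θ : ℝ) : ℂ) * (e * (Real.cos θ + Real.sin θ * Complex.I)) := by
  have h1 := sq_add_sq he
  have hθ' : (Real.sin θ : ℂ) ≠ 0 := by exact_mod_cast hθ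
  apply Complex.ext
  · simp only [Complex.add_re, Complex.mul_re, Complex.ofReal_re, Complex.ofReal_im, zero_mul,
      sub_zero, Complex.I_re, mul_zero, Complex.I_im, mul_one, Complex.add_im, Complex.mul_im,
      add_zero, zero_add, sub_self]
    unfold ip crs
    field_simp
    linear_combination (-f.re * Real.sin θ) * h1
  · simp only [Complex.add_re, Complex.mul_re, Complex.ofReal_re, Complex.ofReal_im, zero_mul,
      Complex.I_re, mul_zero, Complex.I_im, mul_one, Complex.add_im, Complex.mul_im,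
      add_zero, zero_add, sub_self]
    unfold ip crs
    field_simp
    linear_combination (-f.im * Real.sin θ) * h1

lemma norm_edge {e : ℂ} (he : ‖e‖ = 1) (θ : ℝ) :
    ‖e * (Real.cos θ + Real.sin θ * Complex.I)‖ = 1 := by
  rw [norm_mul, he, one_mul]
  have : (Real.cos θ : ℂ) + Real.sin θ * Complex.I = Complex.exp (θ * Complex.I) := by
    rw [Complex.exp_mul_I, Complex.ofReal_cos, Complex.ofReal_sin]
  rw [this, Complex.norm_exp_ofReal_mul_I]

lemma ip_edge {e : ℂ} (he : ‖e‖ = 1) (θ : ℝ) :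
    ip e (e * (Real.cos θ + Real.sin θ * Complex.I)) = Real.cos θ := by
  have h1 := sq_add_sq he
  unfold ip
  simp only [Complex.add_re, Complex.mul_re, Complex.ofReal_re, Complex.ofReal_im,
      Complex.I_re, mul_zero, Complex.I_im, mul_one, Complex.add_im, Complex.mul_im,
      add_zero, zero_add, sub_self]
  linear_combination Real.cos θ * h1

/-- ordering of directions: turning towards `V` increases the projection -/
lemma proj_lt {e u : ℂ} (he : ‖e‖ = 1) (hu : ‖u‖ = 1) {V : ℂ} (h1 : 0 < crs e u)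
    (h2 : 0 ≤ crs u V) (h3 : 0 < crs e V) : ip V e < ip V u := by
  have e1 := sq_add_sq he
  have e2 := sq_add_sq hu
  -- components in the frame `e`
  set c := ip e u with hc
  set s := crs e u with hs
  set L := ip e V with hL
  set H := crs e V with hH
  have cs : c ^ 2 + s ^ 2 = 1 := by
    rw [hc, hs]; unfold ip crs; linear_combination (u.re ^ 2 + u.im ^ 2) * e1 + e2
  have k1 : crs u V = c * H - s * L := by
    rw [hc, hs, hL, hH]; unfold ip crs; linear_combination (-(u.re * V.im - u.im * V.re)) * e1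
  have k2 : ip V u = c * L + s * H := by
    rw [hc, hs, hL, hH]; unfold ip crs; linear_combination (-(V.re * u.re + V.im * u.im)) * e1
  have k3 : ip V e = L := by rw [hL]; unfold ip; ring
  rw [k2, k3]
  rw [k1] at h2
  have c1 : c < 1 := by nlinarith
  rcases le_or_gt L 0 with hL0 | hL0
  · nlinarith [mul_pos h1 h3]
  · have c0 : 0 < c := by
      by_contra hneg
      push Not at hneg
      nlinarith [mul_pos h1 hL0, mul_nonneg (neg_nonneg.2 hneg) h3.le]
    -- `c (s H - L (1 - c)) ≥ L (1 - c) > 0`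
    have h4 : 0 < c * (s * H - L * (1 - c)) := by
      have h5 : 0 ≤ s * (c * H - s * L) := mul_nonneg h1.le h2
      have h6 : 0 < L * (1 - c) := mul_pos hL0 (by linarith)
      nlinarith
    have h7 := (mul_pos_iff_of_pos_left c0).1 h4
    nlinarith

lemma proj_lt' {f u : ℂ} (hf : ‖f‖ = 1) (hu : ‖u‖ = 1) {V : ℂ} (h1 : 0 < crs u f)
    (h2 : 0 ≤ crs V u) (h3 : 0 < crs V f) : ip V f < ip V u := by
  have k := proj_lt (e := (starRingEnd ℂ) f) (u := (starRingEnd ℂ) u) (V := (starRingEnd ℂ) V)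
    (by rw [Complex.norm_conj, hf]) (by rw [Complex.norm_conj, hu])
    (by unfold crs at *; simp only [Complex.conj_re, Complex.conj_im]; linarith)
    (by unfold crs at *; simp only [Complex.conj_re, Complex.conj_im]; linarith)
    (by unfold crs at *; simp only [Complex.conj_re, Complex.conj_im]; linarith)
  unfold ip at *
  simp only [Complex.conj_re, Complex.conj_im] at k
  linarith

lemma norm_sub_sq' {e : ℂ} (he : ‖e‖ = 1) (V : ℂ) (t : ℝ) :
    ‖V - (t : ℂ) * e‖ ^ 2 = ‖V‖ ^ 2 + t ^ 2 - 2 * t * ip V e := by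
  have h1 := sq_add_sq he
  rw [Complex.sq_norm, Complex.sq_norm, Complex.normSq_apply, Complex.normSq_apply]
  simp only [Complex.sub_re, Complex.mul_re, Complex.ofReal_re, Complex.ofReal_im, zero_mul,
    sub_zero, Complex.sub_im, Complex.mul_im, add_zero, ip]
  linear_combination t ^ 2 * h1

lemma disc_strict {e u : ℂ} (he : ‖e‖ = 1) (hu : ‖u‖ = 1) {V : ℂ} {t : ℝ} (ht : 0 < t)
    (h : ip V e < ip V u) (hd : Real.pi ≤ ‖V - (t : ℂ) * u‖) : Real.pi < ‖V - (t : ℂ) * e‖ := by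
  have hpi := Real.pi_pos
  have h1 : Real.pi ^ 2 ≤ ‖V - (t : ℂ) * u‖ ^ 2 := pow_le_pow_left₀ hpi.le hd 2
  rw [norm_sub_sq' hu] at h1
  have h2 := norm_sub_sq' he V t
  have h3 : Real.pi ^ 2 < ‖V - (t : ℂ) * e‖ ^ 2 := by
    rw [h2]; nlinarith [mul_pos ht (sub_pos.2 h)]
  exact lt_of_pow_lt_pow_left₀ 2 (norm_nonneg _) h3

/-- points near the left of `g` with smaller value -/
lemma exists_left {F : ℝ → ℝ} {F' g : ℝ} (h : HasDerivAt F F' g) (hF : 0 < F') {p : ℝ → Prop}
    (hp : ∀ᶠ θ in 𝓝 g, p θ) : ∃ θ, θ < g ∧ p θ ∧ F θ < F g := by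
  have h1 := hasDerivAt_iff_tendsto_slope.1 h
  have h2 : ∀ᶠ θ in 𝓝[<] g, 0 < slope F g θ :=
    (h1.mono_left (nhdsWithin_mono g (fun x hx => ne_of_lt hx))).eventually (lt_mem_nhds hF)
  have h3 : ∀ᶠ θ in 𝓝[<] g, p θ := hp.filter_mono nhdsWithin_le_nhds
  obtain ⟨θ, h4, h5, h6⟩ := (h2.and (h3.and self_mem_nhdsWithin)).exists
  refine ⟨θ, h6, h5, ?_⟩
  have h7 : θ - g < 0 := sub_neg.2 h6
  rw [slope_def_field] at h4
  by_contra hcon
  push Not at hcon
  have : (F θ - F g) / (θ - g) ≤ 0 := div_nonpos_of_nonneg_of_nonpos (by linarith) h7.le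
  linarith

/-- Strict inequality for the corner function. -/
lemma F_strict (MI : MainIneq) {e f e₁ f₁ : ℂ} (he : ‖e‖ = 1) (hf : ‖f‖ = 1) (he₁ : ‖e₁‖ = 1)
    (hf₁ : ‖f₁‖ = 1) (hef : 0 < crs e f) {a b a' b' : ℝ} (ha : 0 < a) (hb : 0 < b) (ha' : 0 < a')
    (hb' : 0 < b') (h : e₁ = a * e + b * f) (h' : f₁ = a' * e + b' * f)
    {x₁ y₁ ε : ℝ} (hx : 0 < x₁) (hy : 0 < y₁) (hε : ε = 1 ∨ ε = -1)
    (hr : ReachC e₁ f₁ x₁ y₁ ε) {N : ℕ} (hN1 : 1 ≤ N) (hN : (-1) ^ N = -ε)
    (hX : a * x₁ + a' * y₁ < N * Real.pi) (hY : b * x₁ + b' * y₁ < N * Real.pi) :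
    -Real.cos (Real.pi / N) <
      RR (ip e f) ((a * x₁ + a' * y₁) / N) ((b * x₁ + b' * y₁) / N) := by
  have hN0 : (0:ℝ) < N := by exact_mod_cast hN1
  set X := a * x₁ + a' * y₁ with hXdef
  set Y := b * x₁ + b' * y₁ with hYdef
  have hX0 : 0 < X := by positivity
  have hY0 : 0 < Y := by positivity
  have e1 := sq_add_sq he
  have e2 := sq_add_sq hf
  set c₀ := ip e f with hc₀
  set s₀ := crs e f with hs₀
  have cs : c₀ ^ 2 + s₀ ^ 2 = 1 := by
    rw [hc₀, hs₀]; unfold ip crs; linear_combination (f.re ^ 2 + f.im ^ 2) * e1 + e2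
  have hc1 : -1 < c₀ := by nlinarith
  have hc2 : c₀ < 1 := by nlinarith
  set g := Real.arccos c₀ with hg
  have hcg : Real.cos g = c₀ := Real.cos_arccos hc1.le hc2.le
  have hsg : Real.sin g = s₀ := by
    rw [hg, Real.sin_arccos]
    rw [show 1 - c₀ ^ 2 = s₀ ^ 2 by linarith, Real.sqrt_sq hef.le]
  have hsg0 : Real.sin g ≠ 0 := by rw [hsg]; exact hef.ne'
  have hF := hasDerivAt_F (L := (X + Y * c₀) / N) (H := Y * s₀ / N) hsg0
  have hxg : (X + Y * c₀) / N - Y * s₀ / N * (Real.cos g / Real.sin g) = X / N := by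
    rw [hcg, hsg]; field_simp; ring
  have hyg : Y * s₀ / N / Real.sin g = Y / N := by
    rw [hsg]; field_simp
  have hx1 : X / N < Real.pi := by rw [div_lt_iff₀ hN0]; linarith
  have hy1 : Y / N < Real.pi := by rw [div_lt_iff₀ hN0]; linarith
  have hpos : 0 < Real.sin g * Real.sin ((X + Y * c₀) / N - Y * s₀ / N * (Real.cos g / Real.sin g)) *
      (Real.sin (Y * s₀ / N / Real.sin g) -
        Y * s₀ / N / Real.sin g * Real.cos (Y * s₀ / N / Real.sin g)) := by
    rw [hxg, hyg, hsg]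
    have k1 : 0 < Real.sin (X / N) := Real.sin_pos_of_pos_of_lt_pi (by positivity) hx1
    have k2 := mul_cos_lt_sin (y := Y / N) (by positivity) hy1.le
    have k3 : 0 < Real.sin (Y / N) - Y / N * Real.cos (Y / N) := by linarith
    positivity
  have hev : ∀ᶠ θ in 𝓝 g, 0 < Real.sin θ ∧ 0 < a + b * (c₀ - s₀ * (Real.cos θ / Real.sin θ)) ∧
      0 < a' + b' * (c₀ - s₀ * (Real.cos θ / Real.sin θ)) ∧
      X + Y * (c₀ - s₀ * (Real.cos θ / Real.sin θ)) < N * Real.pi ∧
      Y * s₀ / Real.sin θ < N * Real.pi := by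
    have ccot : ContinuousAt (fun θ => c₀ - s₀ * (Real.cos θ / Real.sin θ)) g :=
      continuousAt_const.sub (continuousAt_const.mul
        (Real.continuous_cos.continuousAt.div Real.continuous_sin.continuousAt hsg0))
    have hcot : c₀ - s₀ * (Real.cos g / Real.sin g) = 0 := by
      rw [hcg, hsg]; field_simp; ring
    have t1 : Tendsto (fun θ => c₀ - s₀ * (Real.cos θ / Real.sin θ)) (𝓝 g) (𝓝 0) := by
      have := ccot.tendsto; rwa [hcot] at this
    have t2 : Tendsto (fun θ => a + b * (c₀ - s₀ * (Real.cos θ / Real.sin θ))) (𝓝 g) (𝓝 a) := by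
      have := (t1.const_mul b).const_add a; simpa using this
    have t3 : Tendsto (fun θ => a' + b' * (c₀ - s₀ * (Real.cos θ / Real.sin θ))) (𝓝 g) (𝓝 a') := by
      have := (t1.const_mul b').const_add a'; simpa using this
    have t4 : Tendsto (fun θ => X + Y * (c₀ - s₀ * (Real.cos θ / Real.sin θ))) (𝓝 g) (𝓝 X) := by
      have := (t1.const_mul Y).const_add X; simpa using this
    have t6 : Tendsto Real.sin (𝓝 g) (𝓝 s₀) := by
      have := Real.continuous_sin.continuousAt (x := g)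
      rw [ContinuousAt, hsg] at this; exact this
    have t5 : Tendsto (fun θ => Y * s₀ / Real.sin θ) (𝓝 g) (𝓝 Y) := by
      have h2 : Tendsto (fun θ => Y * s₀ / Real.sin θ) (𝓝 g) (𝓝 (Y * s₀ / s₀)) :=
        Tendsto.div tendsto_const_nhds t6 hef.ne'
      rw [mul_div_assoc, div_self hef.ne', mul_one] at h2
      exact h2
    filter_upwards [t6.eventually (lt_mem_nhds hef), t2.eventually (lt_mem_nhds ha),
      t3.eventually (lt_mem_nhds ha'), t4.eventually (gt_mem_nhds hX),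
      t5.eventually (gt_mem_nhds hY)] with θ q1 q2 q3 q4 q5
    exact ⟨q1, q2, q3, q4, q5⟩
  obtain ⟨θ, _, ⟨q1, q2, q3, q4, q5⟩, hlt⟩ := exists_left hF hpos hev
  rw [hxg, hyg, hcg] at hlt
  refine lt_of_le_of_lt ?_ hlt
  -- the narrower cone
  set fθ : ℂ := e * (Real.cos θ + Real.sin θ * Complex.I) with hfθ
  have hnf : ‖fθ‖ = 1 := norm_edge he θ
  have hedge := edge_eq (f := f) he (θ := θ) q1.ne'
  rw [← hc₀, ← hs₀, ← hfθ] at hedge
  have g1 : e₁ = ((a + b * (c₀ - s₀ * (Real.cos θ / Real.sin θ)) : ℝ) : ℂ) * e +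
      ((b * (s₀ / Real.sin θ) : ℝ) : ℂ) * fθ := by
    rw [h]; nth_rewrite 1 [hedge]; push_cast; ring
  have g2 : f₁ = ((a' + b' * (c₀ - s₀ * (Real.cos θ / Real.sin θ)) : ℝ) : ℂ) * e +
      ((b' * (s₀ / Real.sin θ) : ℝ) : ℂ) * fθ := by
    rw [h']; nth_rewrite 1 [hedge]; push_cast; ring
  have hr' := hr.mono he hnf he₁ hf₁ q2.le (by positivity) q3.le (by positivity) g1 g2
  have m1 : (a + b * (c₀ - s₀ * (Real.cos θ / Real.sin θ))) * x₁ +
      (a' + b' * (c₀ - s₀ * (Real.cos θ / Real.sin θ))) * y₁ =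
      X + Y * (c₀ - s₀ * (Real.cos θ / Real.sin θ)) := by rw [hXdef, hYdef]; ring
  have m2 : b * (s₀ / Real.sin θ) * x₁ + b' * (s₀ / Real.sin θ) * y₁ = Y * s₀ / Real.sin θ := by
    rw [hYdef]; field_simp
  rw [m1, m2] at hr'
  have fin := hr'.main MI he hnf hN1 hN hε q4.le q5.le
  rw [hfθ, ip_edge he] at fin
  have n1 : (X + Y * (c₀ - s₀ * (Real.cos θ / Real.sin θ))) / N =
      (X + Y * c₀) / N - Y * s₀ / N * (Real.cos θ / Real.sin θ) := by ring
  have n2 : Y * s₀ / Real.sin θ / N = Y * s₀ / N / Real.sin θ := by ring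
  rw [n1, n2] at fin
  exact fin

/-- **Closure in a narrow cone implies strict admissibility in a wider cone.** -/
theorem adm_of_reach (MI : MainIneq) {e f e₁ f₁ : ℂ} (he : ‖e‖ = 1) (hf : ‖f‖ = 1)
    (he₁ : ‖e₁‖ = 1) (hf₁ : ‖f₁‖ = 1) (hef : 0 < crs e f) {a b a' b' : ℝ} (ha : 0 < a)
    (hb : 0 < b) (ha' : 0 < a') (hb' : 0 < b') (h : e₁ = a * e + b * f) (h' : f₁ = a' * e + b' * f)
    (h11 : crs e₁ f₁ ≠ 0) {x₁ y₁ ε : ℝ} (hx : 0 < x₁) (hy : 0 < y₁) (hε : ε = 1 ∨ ε = -1)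
    (hr : ReachC e₁ f₁ x₁ y₁ ε) {X Y : ℝ} (hX : X = a * x₁ + a' * y₁)
    (hY : Y = b * x₁ + b' * y₁) :
    (ε = -1 → Real.pi ≤ ‖(X : ℂ) * e + (Y : ℂ) * f‖) ∧
    ∀ N : ℕ, 1 ≤ N → (-1 : ℝ) ^ N = -ε →
      Real.pi < ‖(X : ℂ) * e + (Y : ℂ) * f - ((N * Real.pi : ℝ) : ℂ) * e‖ ∧
      Real.pi < ‖(X : ℂ) * e + (Y : ℂ) * f - ((N * Real.pi : ℝ) : ℂ) * f‖ ∧
      (X ≤ N * Real.pi → Y ≤ N * Real.pi →
        -Real.cos (Real.pi / N) < RR (ip e f) (X / N) (Y / N)) := by
  have hpi := Real.pi_pos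
  have hX0 : 0 < X := by rw [hX]; positivity
  have hY0 : 0 < Y := by rw [hY]; positivity
  set V : ℂ := (X : ℂ) * e + (Y : ℂ) * f with hV
  have hV1 : V = (x₁ : ℂ) * e₁ + (y₁ : ℂ) * f₁ := by
    rw [hV, hX, hY, h, h']; push_cast; ring
  refine ⟨fun hε1 => ?_, fun N hN1 hN => ?_⟩
  · have := hr.disc_e he₁ hf₁ (N := 0) (by rw [hε1]; norm_num) hε
    rw [hV1]; simpa using this
  have hN0 : (0:ℝ) < N := by exact_mod_cast hN1
  have ht : 0 < (N : ℝ) * Real.pi := by positivity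
  have d1 := hr.disc_e he₁ hf₁ hN hε
  have d2 := hr.disc_f he₁ hf₁ hN hε
  rw [← hV1] at d1 d2
  -- orientations
  have o1 : crs e e₁ = b * crs e f := by
    rw [h]; unfold crs; simp; ring
  have o2 : crs e f₁ = b' * crs e f := by
    rw [h']; unfold crs; simp; ring
  have o3 : crs e₁ f = a * crs e f := by
    rw [h]; unfold crs; simp; ring
  have o4 : crs f₁ f = a' * crs e f := by
    rw [h']; unfold crs; simp; ring
  have o5 : crs e V = Y * crs e f := by rw [hV]; unfold crs; simp; ring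
  have o6 : crs V f = X * crs e f := by rw [hV]; unfold crs; simp; ring
  have o7 : crs e₁ V = y₁ * crs e₁ f₁ := by rw [hV1]; unfold crs; simp; ring
  have o8 : crs V f₁ = x₁ * crs e₁ f₁ := by rw [hV1]; unfold crs; simp; ring
  have o9 : crs f₁ V = -(x₁ * crs e₁ f₁) := by rw [← o8]; unfold crs; ring
  have o10 : crs V e₁ = -(y₁ * crs e₁ f₁) := by rw [← o7]; unfold crs; ring
  have s1 : Real.pi < ‖V - ((N * Real.pi : ℝ) : ℂ) * e‖ := by
    rcases lt_or_gt_of_ne h11 with hneg | hpos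
    · exact disc_strict he hf₁ ht (proj_lt he hf₁ (by rw [o2]; positivity)
        (by rw [o9]; nlinarith) (by rw [o5]; positivity)) d2
    · exact disc_strict he he₁ ht (proj_lt he he₁ (by rw [o1]; positivity)
        (by rw [o7]; positivity) (by rw [o5]; positivity)) d1
  have s2 : Real.pi < ‖V - ((N * Real.pi : ℝ) : ℂ) * f‖ := by
    rcases lt_or_gt_of_ne h11 with hneg | hpos
    · exact disc_strict hf he₁ ht (proj_lt' hf he₁ (by rw [o3]; positivity)
        (by rw [o10]; nlinarith) (by rw [o6]; positivity)) d1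
    · exact disc_strict hf hf₁ ht (proj_lt' hf hf₁ (by rw [o4]; positivity)
        (by rw [o8]; positivity) (by rw [o6]; positivity)) d2
  refine ⟨s1, s2, fun hX1 hY1 => ?_⟩
  rcases eq_or_lt_of_le hX1 with hXe | hXl
  · -- `X = N π`
    have : V - ((N * Real.pi : ℝ) : ℂ) * e = (Y : ℂ) * f := by rw [hV, hXe]; ring
    rw [this, norm_mul, hf, mul_one, Complex.norm_real, Real.norm_eq_abs, abs_of_pos hY0] at s1
    have e1 : X / N = Real.pi := by rw [hXe]; field_simp
    rw [e1]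
    unfold RR
    rw [Real.cos_pi, Real.sin_pi]
    have : Real.cos (Y / N) < Real.cos (Real.pi / N) := by
      apply Real.cos_lt_cos_of_nonneg_of_le_pi (by positivity)
      · rw [div_le_iff₀ hN0]; linarith
      · exact div_lt_div_of_pos_right s1 hN0
    linarith
  rcases eq_or_lt_of_le hY1 with hYe | hYl
  · have : V - ((N * Real.pi : ℝ) : ℂ) * f = (X : ℂ) * e := by rw [hV, hYe]; ring
    rw [this, norm_mul, he, mul_one, Complex.norm_real, Real.norm_eq_abs, abs_of_pos hX0] at s2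
    have e1 : Y / N = Real.pi := by rw [hYe]; field_simp
    rw [e1]
    unfold RR
    rw [Real.cos_pi, Real.sin_pi]
    have : Real.cos (X / N) < Real.cos (Real.pi / N) := by
      apply Real.cos_lt_cos_of_nonneg_of_le_pi (by positivity)
      · rw [div_le_iff₀ hN0]; linarith
      · exact div_lt_div_of_pos_right s2 hN0
    linarith
  · rw [hX, hY] at *
    exact F_strict MI he hf he₁ hf₁ hef ha hb ha' hb' h h' hx hy hε hr hN1 hN hXl hYl

end Pool.Agent.helper71.CT
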