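import Pool.Agent.helper71.CT.ReHol

/-!
The corner inequality, main part.
-/

open Quaternion Set Filter
open scoped Topology

namespace Pool.Agent.helper71.CT

open Pool.Agent.helper70.Tori

/-- cyclic word cut between `l₁` and `l₂` -/
noncomputable def Hc (e f : ℂ) (l₁ l₂ : List (ℝ × ℝ)) : Quaternion ℝ := hol e f l₂ * hol e f l₁

/-- cyclic word cut inside the step `p` -/
noncomputable def Hp (e f : ℂ) (l₁ : List (ℝ × ℝ)) (p : ℝ × ℝ) (l₂ : List (ℝ × ℝ)) :
    Quaternion ℝ := er f p.2 * (hol e f l₂ * hol e f l₁ * er e p.1)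

lemma hol_snoc (e f : ℂ) (l : List (ℝ × ℝ)) (p : ℝ × ℝ) :
    hol e f (l ++ [p]) = hol e f l * er e p.1 * er f p.2 := by
  rw [hol_append]; simp [hol, mul_assoc]

lemma Hc_cons (e f : ℂ) (l₁ : List (ℝ × ℝ)) (p : ℝ × ℝ) (l₂ : List (ℝ × ℝ)) :
    Hc e f l₁ (p :: l₂) = er e p.1 * (er f p.2 * hol e f l₂ * hol e f l₁) := by
  simp [Hc, hol, mul_assoc]

lemma Hp_eq (e f : ℂ) (l₁ : List (ℝ × ℝ)) (p : ℝ × ℝ) (l₂ : List (ℝ × ℝ)) :
    Hp e f l₁ p l₂ = (er f p.2 * hol e f l₂ * hol e f l₁) * er e p.1 := by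
  simp [Hp, mul_assoc]

lemma Hc_snoc (e f : ℂ) (l₁ : List (ℝ × ℝ)) (p : ℝ × ℝ) (l₂ : List (ℝ × ℝ)) :
    Hc e f (l₁ ++ [p]) l₂ = (hol e f l₂ * hol e f l₁ * er e p.1) * er f p.2 := by
  simp [Hc, hol_snoc, mul_assoc]

lemma re_Hc (e f : ℂ) (l₁ l₂ : List (ℝ × ℝ)) : (Hc e f l₁ l₂).re = (hol e f (l₁ ++ l₂)).re := by
  rw [Hc, re_mul_comm', hol_append]

/-- comparison of the two sides of an `e`-step -/
lemma step_comp {e : ℂ} (he : ‖e‖ = 1) {x : ℝ} (hx : Real.sin x ≠ 0) {Q H H' : Quaternion ℝ}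
    (h1 : H = er e x * Q) (h2 : H' = Q * er e x) (hI : H'.imI = H.imI) (hJ : H'.imJ = H.imJ)
    (hR : H'.re = H.re) :
    H'.imK = -H.imK ∧ H.imK * Real.cos x = Real.sin x * (e.re * H.imJ - e.im * H.imI) := by
  have hcomm : H * er e x = er e x * H' := by rw [h1, h2, mul_assoc]
  have cI := congrArg (fun q : Quaternion ℝ => q.imI) hcomm
  have cJ := congrArg (fun q : Quaternion ℝ => q.imJ) hcomm
  have cK := congrArg (fun q : Quaternion ℝ => q.imK) hcomm
  simp only [Quaternion.imI_mul, Quaternion.imJ_mul, Quaternion.imK_mul, er_re, er_imI, er_imJ,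
    er_imK] at cI cJ cK
  rw [hI, hJ, hR] at *
  have hs := sq_add_sq he
  have k1 : Real.sin x * (e.im * (H.imK + H'.imK)) = 0 := by linarith
  have k2 : Real.sin x * (e.re * (H.imK + H'.imK)) = 0 := by linarith
  have k3 : e.im * (H.imK + H'.imK) = 0 := by
    rcases mul_eq_zero.1 k1 with h | h
    · exact absurd h hx
    · exact h
  have k4 : e.re * (H.imK + H'.imK) = 0 := by
    rcases mul_eq_zero.1 k2 with h | h
    · exact absurd h hx
    · exact h
  have k5 : H.imK + H'.imK = 0 := by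
    have : (e.re ^ 2 + e.im ^ 2) * (H.imK + H'.imK) = 0 := by
      linear_combination e.re * k4 + e.im * k3
    rwa [hs, one_mul] at this
  have k6 : H'.imK = -H.imK := by linarith
  refine ⟨k6, ?_⟩
  rw [k6] at cK
  linarith

/-- reduction of the number of steps -/
lemma reduce {e f : ℂ} (he : ‖e‖ = 1) (hf : ‖f‖ = 1) {M : ℕ} {l₁ l₂ : List (ℝ × ℝ)} {p : ℝ × ℝ}
    (hlen : (l₁ ++ p :: l₂).length = M + 2) (hn : Nonneg (l₁ ++ p :: l₂))
    (h0 : p.1 = 0 ∨ p.2 = 0) :
    ∃ l : List (ℝ × ℝ), l.length = M + 1 ∧ Nonneg l ∧ sx l = sx (l₁ ++ p :: l₂) ∧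
      sy l = sy (l₁ ++ p :: l₂) ∧ (hol e f l).re = (hol e f (l₁ ++ p :: l₂)).re := by
  have hlen' : (l₂ ++ l₁).length = M + 1 := by
    simp only [List.length_append, List.length_cons] at hlen ⊢; omega
  have hp : 0 ≤ p.1 ∧ 0 ≤ p.2 := hn p (by simp)
  have hnn : ∀ q ∈ l₂ ++ l₁, 0 ≤ q.1 ∧ 0 ≤ q.2 := by
    intro q hq
    apply hn q
    simp only [List.mem_append, List.mem_cons] at hq ⊢
    tauto
  have hre : (hol e f (l₁ ++ p :: l₂)).re = (er e p.1 * er f p.2 * hol e f (l₂ ++ l₁)).re := by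
    rw [hol_append, re_mul_comm', hol, hol_append]
    simp only [mul_assoc]
  have hsx : sx (l₁ ++ p :: l₂) = p.1 + sx (l₂ ++ l₁) := by
    rw [sx_append, sx_append, sx_cons]; ring
  have hsy : sy (l₁ ++ p :: l₂) = p.2 + sy (l₂ ++ l₁) := by
    rw [sy_append, sy_append, sy_cons]; ring
  rcases h0 with h0 | h0
  · obtain ⟨m, q, hm⟩ : ∃ m q, l₂ ++ l₁ = m ++ [q] := by
      rcases List.eq_nil_or_concat (l₂ ++ l₁) with h | ⟨m, q, h⟩
      · rw [h] at hlen'; simp at hlen'
      · exact ⟨m, q, by simpa using h⟩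
    rw [hm] at hre hsx hsy hlen' hnn
    refine ⟨m ++ [(q.1, q.2 + p.2)], ?_, ?_, ?_, ?_, ?_⟩
    · simpa using hlen'
    · intro r hr
      rcases List.mem_append.1 hr with h | h
      · exact hnn r (by simp [h])
      · rw [List.mem_singleton] at h
        have := hnn q (by simp)
        rw [h]
        exact ⟨this.1, by simpa using add_nonneg this.2 hp.2⟩
    · rw [hsx, h0, sx_append, sx_append, sx_cons, sx_cons]; ring
    · rw [hsy, sy_append, sy_append, sy_cons, sy_cons]; simp only; ring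
    · rw [hre, h0, er_zero, one_mul, re_mul_comm', hol_snoc, hol_snoc, er_add hf]
      simp only [mul_assoc]
  · obtain ⟨q, m, hm⟩ : ∃ q m, l₂ ++ l₁ = q :: m := by
      rcases h : l₂ ++ l₁ with _ | ⟨q, m⟩
      · rw [h] at hlen'; simp at hlen'
      · exact ⟨q, m, rfl⟩
    rw [hm] at hre hsx hsy hlen' hnn
    refine ⟨(p.1 + q.1, q.2) :: m, ?_, ?_, ?_, ?_, ?_⟩
    · simpa using hlen'
    · intro r hr
      rcases List.mem_cons.1 hr with h | h
      · have := hnn q (by simp)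
        rw [h]
        exact ⟨by simpa using add_nonneg hp.1 this.1, this.2⟩
      · exact hnn r (by simp [h])
    · rw [hsx, sx_cons, sx_cons]; simp only; ring
    · rw [hsy, sy_cons, sy_cons, h0]; simp only; ring
    · rw [hre, h0, er_zero, mul_one, hol, hol, er_add he]
      simp only [mul_assoc]

section main

variable {e f : ℂ} (he : ‖e‖ = 1) (hf : ‖f‖ = 1) {l : List (ℝ × ℝ)}
  (hpos : ∀ p ∈ l, 0 < p.1 ∧ 0 < p.2)
  (hmax : ∀ l' : List (ℝ × ℝ), l'.length = l.length → Nonneg l' → sx l' = sx l → sy l' = sy l →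
        (hol e f l').re ≤ (hol e f l).re)

include he hf hpos hmax

lemma crit_e {l₁ l₂ : List (ℝ × ℝ)} {p q : ℝ × ℝ} (hl : l = l₁ ++ p :: q :: l₂) :
    Ec e (Hc e f l₁ (p :: q :: l₂)) = Ec e (Hc e f (l₁ ++ [p]) (q :: l₂)) := by
  have hp := hpos p (by rw [hl]; simp)
  have hq := hpos q (by rw [hl]; simp)
  have hc := crit he (hol e f l₁) (er f p.2) (er f q.2 * hol e f l₂) (x := p.1) (x' := q.1)
    (δ := min p.1 q.1) (lt_min hp.1 hq.1) ?_
  · have e1 : Hc e f l₁ (p :: q :: l₂) =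
        er e p.1 * er f p.2 * er e q.1 * (er f q.2 * hol e f l₂) * hol e f l₁ := by
      simp [Hc, hol, mul_assoc]
    have e2 : Hc e f (l₁ ++ [p]) (q :: l₂) =
        er e q.1 * (er f q.2 * hol e f l₂) * hol e f l₁ * er e p.1 * er f p.2 := by
      simp [Hc, hol, hol_snoc, mul_assoc]
    rw [e1, e2]; exact hc
  · intro t ht
    have h1 : |t| < p.1 := ht.trans_le (min_le_left _ _)
    have h2 : |t| < q.1 := ht.trans_le (min_le_right _ _)
    rw [abs_lt] at h1 h2
    have := hmax (l₁ ++ (p.1 + t, p.2) :: (q.1 - t, q.2) :: l₂) (by rw [hl]; simp) ?_ ?_ ?_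
    · have e1 : hol e f (l₁ ++ (p.1 + t, p.2) :: (q.1 - t, q.2) :: l₂) =
          hol e f l₁ * er e (p.1 + t) * er f p.2 * er e (q.1 - t) * (er f q.2 * hol e f l₂) := by
        rw [hol_append]; simp [hol, mul_assoc]
      have e2 : hol e f l =
          hol e f l₁ * er e p.1 * er f p.2 * er e q.1 * (er f q.2 * hol e f l₂) := by
        rw [hl, hol_append]; simp [hol, mul_assoc]
      rw [e1, e2] at this
      exact this
    · intro r hr
      simp only [List.mem_append, List.mem_cons] at hr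
      rcases hr with h | h | h | h
      · have := hpos r (by rw [hl]; simp [h]); exact ⟨this.1.le, this.2.le⟩
      · rw [h]; exact ⟨by simp only; linarith, hp.2.le⟩
      · rw [h]; exact ⟨by simp only; linarith, hq.2.le⟩
      · have := hpos r (by rw [hl]; simp [h]); exact ⟨this.1.le, this.2.le⟩
    · rw [hl]; simp only [sx_append, sx_cons]; ring
    · rw [hl]; simp only [sy_append, sy_cons]

lemma crit_f {l₁ l₂ : List (ℝ × ℝ)} {p q : ℝ × ℝ} (hl : l = l₁ ++ p :: q :: l₂) :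
    Ec f (Hp e f l₁ p (q :: l₂)) = Ec f (Hp e f (l₁ ++ [p]) q l₂) := by
  have hp := hpos p (by rw [hl]; simp)
  have hq := hpos q (by rw [hl]; simp)
  have hc := crit hf (hol e f l₁ * er e p.1) (er e q.1) (hol e f l₂) (x := p.2) (x' := q.2)
    (δ := min p.2 q.2) (lt_min hp.2 hq.2) ?_
  · have e1 : Hp e f l₁ p (q :: l₂) =
        er f p.2 * er e q.1 * er f q.2 * hol e f l₂ * (hol e f l₁ * er e p.1) := by
      simp [Hp, hol, mul_assoc]
    have e2 : Hp e f (l₁ ++ [p]) q l₂ =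
        er f q.2 * hol e f l₂ * (hol e f l₁ * er e p.1) * er f p.2 * er e q.1 := by
      simp [Hp, hol_snoc, mul_assoc]
    rw [e1, e2]; exact hc
  · intro t ht
    have h1 : |t| < p.2 := ht.trans_le (min_le_left _ _)
    have h2 : |t| < q.2 := ht.trans_le (min_le_right _ _)
    rw [abs_lt] at h1 h2
    have := hmax (l₁ ++ (p.1, p.2 + t) :: (q.1, q.2 - t) :: l₂) (by rw [hl]; simp) ?_ ?_ ?_
    · have e1 : hol e f (l₁ ++ (p.1, p.2 + t) :: (q.1, q.2 - t) :: l₂) =
          hol e f l₁ * er e p.1 * er f (p.2 + t) * er e q.1 * er f (q.2 - t) * hol e f l₂ := by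
        rw [hol_append]; simp [hol, mul_assoc]
      have e2 : hol e f l =
          hol e f l₁ * er e p.1 * er f p.2 * er e q.1 * er f q.2 * hol e f l₂ := by
        rw [hl, hol_append]; simp [hol, mul_assoc]
      rw [e1, e2] at this
      exact this
    · intro r hr
      simp only [List.mem_append, List.mem_cons] at hr
      rcases hr with h | h | h | h
      · have := hpos r (by rw [hl]; simp [h]); exact ⟨this.1.le, this.2.le⟩
      · rw [h]; exact ⟨hp.1.le, by simp only; linarith⟩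
      · rw [h]; exact ⟨hq.1.le, by simp only; linarith⟩
      · have := hpos r (by rw [hl]; simp [h]); exact ⟨this.1.le, this.2.le⟩
    · rw [hl]; simp only [sx_append, sx_cons]
    · rw [hl]; simp only [sy_append, sy_cons]; ring

/-- all cuts have the same `e`-component -/
lemma all_e : ∀ (l₁ l₂ : List (ℝ × ℝ)), l = l₁ ++ l₂ → Ec e (Hc e f l₁ l₂) = Ec e (hol e f l) := by
  intro l₁
  induction l₁ using List.reverseRecOn with
  | nil => intro l₂ h; rw [h]; simp [Hc, hol]
  | append_singleton l₁ p ih =>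
    intro l₂ h
    rcases l₂ with _ | ⟨q, l₂⟩
    · rw [List.append_nil] at h
      rw [h]; simp [Hc, hol]
    · have h' : l = l₁ ++ p :: q :: l₂ := by rw [h]; simp
      rw [← crit_e he hf hpos hmax h', ih _ h']

lemma all_f' : ∀ (l₂ l₁ : List (ℝ × ℝ)) (p : ℝ × ℝ), l = l₁ ++ p :: l₂ →
    Ec f (Hp e f l₁ p l₂) = Ec f (hol e f l) := by
  intro l₂
  induction l₂ with
  | nil =>
    intro l₁ p h
    rw [Hp, Ec_comm, ← Hc_snoc]
    have : l = l₁ ++ [p] := h
    rw [← this]; simp [Hc, hol]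
  | cons q l₂ ih =>
    intro l₁ p h
    rw [crit_f he hf hpos hmax h]
    exact ih _ _ (by rw [h]; simp)

/-- all cuts have the same `f`-component -/
lemma all_f : ∀ (l₁ l₂ : List (ℝ × ℝ)), l = l₁ ++ l₂ → Ec f (Hc e f l₁ l₂) = Ec f (hol e f l) := by
  intro l₁ l₂ h
  rcases List.eq_nil_or_concat l₁ with h1 | ⟨m, p, h1⟩
  · subst h1
    have h' : l = l₂ := by simpa using h
    rw [← h']; simp [Hc, hol]
  · have h1' : l₁ = m ++ [p] := by simpa using h1
    subst h1'
    rw [Hc_snoc, ← Ec_comm]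
    exact all_f' he hf hpos hmax l₂ m p (by rw [h]; simp)

end main

/-- orientation of the pair `(e, f)` -/
noncomputable def crs (z w : ℂ) : ℝ := z.re * w.im - z.im * w.re

lemma comps_eq {e f : ℂ} (h : crs e f ≠ 0) {q r : Quaternion ℝ} (h1 : Ec e q = Ec e r)
    (h2 : Ec f q = Ec f r) : q.imI = r.imI ∧ q.imJ = r.imJ := by
  unfold Ec at h1 h2
  unfold crs at h
  constructor
  · have : (e.re * f.im - e.im * f.re) * (q.imI - r.imI) = 0 := by
      linear_combination f.im * h1 - e.im * h2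
    rcases mul_eq_zero.1 this with h3 | h3
    · exact absurd h3 h
    · linarith
  · have : (e.re * f.im - e.im * f.re) * (q.imJ - r.imJ) = 0 := by
      linear_combination e.re * h2 - f.re * h1
    rcases mul_eq_zero.1 this with h3 | h3
    · exact absurd h3 h
    · linarith

end Pool.Agent.helper71.CT
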