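import Pool.Agent.helper71.CT.Corner

/-!
The corner inequality, conclusion.
-/

open Quaternion Set Filter
open scoped Topology

namespace Pool.Agent.helper71.CT

open Pool.Agent.helper70.Tori

/-- real part of powers -/
lemma re_pow {q : Quaternion ℝ} (hq : ‖q‖ = 1) (n : ℕ) :
    (q ^ n).re = Real.cos (n * Real.arccos q.re) := by
  have hq2 := norm_sq_eq q
  rw [hq] at hq2
  have hb : -1 ≤ q.re ∧ q.re ≤ 1 := by
    constructor <;> nlinarith [sq_nonneg q.imI, sq_nonneg q.imJ, sq_nonneg q.imK]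
  set ρ := Real.arccos q.re with hρ
  have hc : Real.cos ρ = q.re := Real.cos_arccos hb.1 hb.2
  have hsq : q * q = ((2 * q.re : ℝ) : Quaternion ℝ) * q - 1 := by
    apply Quaternion.ext
    · rw [Quaternion.re_mul]; simp [Quaternion.re_mul]; nlinarith
    · rw [Quaternion.imI_mul]; simp [Quaternion.imI_mul]; ring
    · rw [Quaternion.imJ_mul]; simp [Quaternion.imJ_mul]; ring
    · rw [Quaternion.imK_mul]; simp [Quaternion.imK_mul]; ring
  have key : ∀ n : ℕ, (q ^ n).re = Real.cos (n * ρ) ∧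
      (q ^ (n + 1)).re = Real.cos (((n + 1 : ℕ) : ℝ) * ρ) := by
    intro n
    induction n with
    | zero => simp [hc]
    | succ n ih =>
      refine ⟨ih.2, ?_⟩
      have e1 : q ^ (n + 1 + 1) = ((2 * q.re : ℝ) : Quaternion ℝ) * q ^ (n + 1) - q ^ n := by
        have : q ^ (n + 1 + 1) = (q * q) * q ^ n := by rw [pow_succ', pow_succ', mul_assoc]
        rw [this, hsq, sub_mul, one_mul, mul_assoc, ← pow_succ']
      rw [e1, Quaternion.re_sub, re_coe_mul, ih.1, ih.2, ← hc]
      have e2 : (((n + 1 + 1 : ℕ) : ℝ) * ρ) = ((n + 1 : ℕ) : ℝ) * ρ + ρ := by push_cast; ring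
      have e3 : ((n : ℕ) : ℝ) * ρ = ((n + 1 : ℕ) : ℝ) * ρ - ρ := by push_cast; ring
      rw [e2, e3, Real.cos_add, Real.cos_sub]
      ring
  exact (key n).1

lemma er_nsmul {e : ℂ} (he : ‖e‖ = 1) (x : ℝ) (n : ℕ) : er e (n * x) = er e x ^ n := by
  induction n with
  | zero => simp [er_zero]
  | succ n ih =>
    rw [pow_succ, ← ih, ← er_add he]
    congr 1; push_cast; ring

/-- bi-invariance -/
lemma arccos_pow_le {e f : ℂ} (he : ‖e‖ = 1) (hf : ‖f‖ = 1) (x y : ℝ) (n : ℕ) :
    Real.arccos (RR (ip e f) (n * x) (n * y)) ≤ n * Real.arccos (RR (ip e f) x y) := by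
  induction n with
  | zero => simp [RR]
  | succ n ih =>
    have e1 : (er e (((n + 1 : ℕ) : ℝ) * x) * er f (((n + 1 : ℕ) : ℝ) * y)).re =
        ((er e x * er f y) * (er f (n * y) * er e (n * x))).re := by
      have h1 : er e (((n + 1 : ℕ) : ℝ) * x) = er e (n * x) * er e x := by
        rw [← er_add he]; congr 1; push_cast; ring
      have h2 : er f (((n + 1 : ℕ) : ℝ) * y) = er f y * er f (n * y) := by
        rw [← er_add hf]; congr 1; push_cast; ring
      rw [h1, h2]
      have : er e (n * x) * er e x * (er f y * er f (n * y)) =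
          er e (n * x) * (er e x * er f y * er f (n * y)) := by simp only [mul_assoc]
      rw [this, re_mul_comm']
      simp only [mul_assoc]
    rw [← re_er_mul_er, e1]
    refine (arccos_mul_le (by rw [norm_mul, norm_er he, norm_er hf, one_mul])
      (by rw [norm_mul, norm_er he, norm_er hf, one_mul])).trans ?_
    rw [re_er_mul_er, re_mul_comm' (er f _), re_er_mul_er]
    push_cast
    linarith

lemma RR_bounds {e f : ℂ} (he : ‖e‖ = 1) (hf : ‖f‖ = 1) (x y : ℝ) :
    -1 ≤ RR (ip e f) x y ∧ RR (ip e f) x y ≤ 1 := by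
  rw [← re_er_mul_er]
  have h1 : ‖er e x * er f y‖ = 1 := by rw [norm_mul, norm_er he, norm_er hf, one_mul]
  have h2 := norm_sq_eq (er e x * er f y)
  rw [h1] at h2
  constructor <;> nlinarith [sq_nonneg (er e x * er f y).imI, sq_nonneg (er e x * er f y).imJ,
    sq_nonneg (er e x * er f y).imK]

lemma cos_add_le_RR {e f : ℂ} (he : ‖e‖ = 1) (hf : ‖f‖ = 1) {x y : ℝ} (hx : 0 ≤ x)
    (hx' : x ≤ Real.pi) (hy : 0 ≤ y) (hy' : y ≤ Real.pi) :
    Real.cos (x + y) ≤ RR (ip e f) x y := by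
  unfold RR
  rw [Real.cos_add]
  have h1 := Real.sin_nonneg_of_nonneg_of_le_pi hx hx'
  have h2 := Real.sin_nonneg_of_nonneg_of_le_pi hy hy'
  have h3 := (ip_bounds he hf).2
  nlinarith [mul_nonneg h1 h2]

/-- uniform staircases -/
lemma uniform {e f : ℂ} (he : ‖e‖ = 1) (hf : ‖f‖ = 1) {x y : ℝ} {n : ℕ} (hx : 0 ≤ x)
    (hx' : n * x ≤ Real.pi) (hy : 0 ≤ y) (hy' : n * y ≤ Real.pi) :
    ((er e x * er f y) ^ n).re ≤ RR (ip e f) (n * x) (n * y) := by
  rcases Nat.eq_zero_or_pos n with h0 | h0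
  · subst h0; simp [RR]
  have hn1 : (1:ℝ) ≤ n := by exact_mod_cast h0
  have hnx : 0 ≤ n * x := by positivity
  have hny : 0 ≤ n * y := by positivity
  have hxp : x ≤ Real.pi := le_trans (by nlinarith) hx'
  have hyp : y ≤ Real.pi := le_trans (by nlinarith) hy'
  have hpi := Real.pi_pos
  rw [re_pow (by rw [norm_mul, norm_er he, norm_er hf, one_mul]), re_er_mul_er]
  set ρ := Real.arccos (RR (ip e f) x y) with hρ
  set ρ₁ := Real.arccos (RR (ip e f) (n * x) (n * y)) with hρ₁
  have b := RR_bounds he hf (n * x) (n * y)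
  have h1 : ρ₁ ≤ n * ρ := arccos_pow_le he hf x y n
  have h2 : RR (ip e f) (n * x) (n * y) = Real.cos ρ₁ := (Real.cos_arccos b.1 b.2).symm
  have h3 : ρ ≤ x + y := by
    rcases le_total (x + y) Real.pi with h | h
    · rw [← Real.arccos_cos (add_nonneg hx hy) h]
      exact Real.arccos_le_arccos (cos_add_le_RR he hf hx hxp hy hyp)
    · exact (Real.arccos_le_pi _).trans h
  have h4 : ρ₁ ≤ 2 * Real.pi - (n * x + n * y) := by
    rcases le_total (n * x + n * y) Real.pi with h | h
    · have : ρ₁ ≤ Real.pi := Real.arccos_le_pi _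
      linarith
    · have h5 : Real.cos (2 * Real.pi - (n * x + n * y)) ≤ RR (ip e f) (n * x) (n * y) := by
        rw [Real.cos_two_pi_sub]
        exact cos_add_le_RR he hf hnx hx' hny hy'
      have h6 : Real.arccos (Real.cos (2 * Real.pi - (n * x + n * y))) =
          2 * Real.pi - (n * x + n * y) := Real.arccos_cos (by linarith) (by linarith)
      rw [← h6]
      exact Real.arccos_le_arccos h5
  have h5 : (n : ℝ) * ρ ≤ n * x + n * y := by
    have := mul_le_mul_of_nonneg_left h3 (show (0:ℝ) ≤ n by linarith)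
    linarith
  have hρ₁0 : 0 ≤ ρ₁ := Real.arccos_nonneg _
  have hρ₁1 : ρ₁ ≤ Real.pi := Real.arccos_le_pi _
  rw [h2]
  -- `ρ₁ ≤ nρ ≤ 2π - ρ₁`
  rcases le_total (n * ρ) Real.pi with h | h
  · exact Real.cos_le_cos_of_nonneg_of_le_pi hρ₁0 h h1
  · rw [← Real.cos_two_pi_sub (n * ρ)]
    exact Real.cos_le_cos_of_nonneg_of_le_pi hρ₁0 (by linarith) (by linarith)

/-- closed staircases cannot have small totals -/
lemma not_closed {e f : ℂ} (he : ‖e‖ = 1) (hf : ‖f‖ = 1) (hc : crs e f ≠ 0)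
    {l : List (ℝ × ℝ)} (hl : Nonneg l) (hx : 0 < sx l) (hy : 0 < sy l) (hx' : sx l ≤ Real.pi)
    (hy' : sy l ≤ Real.pi) (hne : ¬ (sx l = Real.pi ∧ sy l = Real.pi)) :
    (hol e f l).re ≠ 1 := by
  intro h1
  have hpi := Real.pi_pos
  have hb : -1 < ip e f ∧ ip e f < 1 := by
    have e1 := sq_add_sq he
    have e2 := sq_add_sq hf
    have e3 : ip e f ^ 2 + crs e f ^ 2 = 1 := by
      unfold ip crs; linear_combination (f.re ^ 2 + f.im ^ 2) * e1 + e2
    have e4 : 0 < crs e f ^ 2 := by positivity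
    constructor <;> nlinarith
  have de := dist_disc_e he hf l hl 1
  have df := dist_disc_f he hf l hl 1
  rw [h1] at de df
  simp only [pow_one, mul_one, Real.arccos_neg_one, Nat.cast_one, one_mul] at de df
  set X := sx l
  set Y := sy l
  set c := ip e f
  have ne : ‖(X : ℂ) * e + (Y : ℂ) * f - (Real.pi : ℂ) * e‖ ^ 2 =
      (X - Real.pi) ^ 2 + Y ^ 2 + 2 * c * (X - Real.pi) * Y := by
    rw [← norm_sq_comb he hf]; congr 2; push_cast; ring
  have nf : ‖(X : ℂ) * e + (Y : ℂ) * f - (Real.pi : ℂ) * f‖ ^ 2 =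
      X ^ 2 + (Y - Real.pi) ^ 2 + 2 * c * X * (Y - Real.pi) := by
    rw [← norm_sq_comb he hf]; congr 2; push_cast; ring
  have ge : Real.pi ^ 2 ≤ (X - Real.pi) ^ 2 + Y ^ 2 + 2 * c * (X - Real.pi) * Y := by
    rw [← ne]; exact pow_le_pow_left₀ hpi.le (by simpa using de) 2
  have gf : Real.pi ^ 2 ≤ X ^ 2 + (Y - Real.pi) ^ 2 + 2 * c * X * (Y - Real.pi) := by
    rw [← nf]; exact pow_le_pow_left₀ hpi.le (by simpa using df) 2
  rcases lt_trichotomy X Y with h | h | h
  · have a1 : 0 ≤ X * (Real.pi - Y) * (1 + c) :=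
      mul_nonneg (mul_nonneg hx.le (by linarith)) (by linarith)
    nlinarith [mul_pos (sub_pos.2 h) (show 0 < 2 * Real.pi - (Y - X) by linarith)]
  · rw [h] at ge hne
    have hY : Y < Real.pi := lt_of_le_of_ne hy' (fun h' => hne ⟨h', h'⟩)
    have a1 : 0 < Y * (Real.pi - Y) * (1 + c) :=
      mul_pos (mul_pos hy (by linarith)) (by linarith)
    nlinarith
  · have a1 : 0 ≤ Y * (Real.pi - X) * (1 + c) :=
      mul_nonneg (mul_nonneg hy.le (by linarith)) (by linarith)
    nlinarith [mul_pos (sub_pos.2 h) (show 0 < 2 * Real.pi - (X - Y) by linarith)]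

/-- at a positive maximiser the holonomy is `±1` or all steps are equal -/
lemma all_equal {e f : ℂ} (he : ‖e‖ = 1) (hf : ‖f‖ = 1) (hc : crs e f ≠ 0) {l : List (ℝ × ℝ)}
    (hpos : ∀ p ∈ l, 0 < p.1 ∧ 0 < p.2) (hlt : ∀ p ∈ l, p.1 < Real.pi ∧ p.2 < Real.pi)
    (hne : l ≠ [])
    (hmax : ∀ l' : List (ℝ × ℝ), l'.length = l.length → Nonneg l' → sx l' = sx l → sy l' = sy l →
        (hol e f l').re ≤ (hol e f l).re) :
    (hol e f l).re = 1 ∨ (hol e f l).re = -1 ∨ ∃ a : ℝ × ℝ, ∀ p ∈ l, p = a := by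
  set w := hol e f l with hw
  have hAe := all_e he hf hpos hmax
  have hAf := all_f he hf hpos hmax
  have hAf' := all_f' he hf hpos hmax
  -- all cyclic words have the same planar part
  have hcomp : ∀ l₁ l₂, l = l₁ ++ l₂ → (Hc e f l₁ l₂).re = w.re ∧ (Hc e f l₁ l₂).imI = w.imI ∧
      (Hc e f l₁ l₂).imJ = w.imJ := by
    intro l₁ l₂ h
    refine ⟨by rw [re_Hc, ← h], ?_⟩
    exact comps_eq hc (hAe l₁ l₂ h) (hAf l₁ l₂ h)
  have hcomp' : ∀ l₁ p l₂, l = l₁ ++ p :: l₂ → (Hp e f l₁ p l₂).re = w.re ∧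
      (Hp e f l₁ p l₂).imI = w.imI ∧ (Hp e f l₁ p l₂).imJ = w.imJ := by
    intro l₁ p l₂ h
    refine ⟨?_, ?_⟩
    · rw [Hp_eq, re_mul_comm', ← Hc_cons, re_Hc, ← h]
    · refine comps_eq hc ?_ (hAf' l₂ l₁ p h)
      rw [Hp_eq, ← Ec_comm, ← Hc_cons]
      exact hAe _ _ h
  -- the two steps
  have hstep : ∀ l₁ p l₂, l = l₁ ++ p :: l₂ →
      ((Hc e f l₁ (p :: l₂)).imK * Real.cos p.1 =
        Real.sin p.1 * (e.re * w.imJ - e.im * w.imI)) ∧
      (-(Hc e f l₁ (p :: l₂)).imK * Real.cos p.2 =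
        Real.sin p.2 * (f.re * w.imJ - f.im * w.imI)) ∧
      (Hc e f (l₁ ++ [p]) l₂).imK = (Hc e f l₁ (p :: l₂)).imK := by
    intro l₁ p l₂ h
    have hp := hpos p (by rw [h]; simp)
    have hp' := hlt p (by rw [h]; simp)
    have s1 : Real.sin p.1 ≠ 0 := (Real.sin_pos_of_pos_of_lt_pi hp.1 hp'.1).ne'
    have s2 : Real.sin p.2 ≠ 0 := (Real.sin_pos_of_pos_of_lt_pi hp.2 hp'.2).ne'
    have c1 := hcomp _ _ h
    have c2 := hcomp' _ _ _ h
    have h' : l = (l₁ ++ [p]) ++ l₂ := by rw [h]; simp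
    have c3 := hcomp _ _ h'
    have a1 := step_comp he s1 (Hc_cons e f l₁ p l₂) (Hp_eq e f l₁ p l₂)
      (by rw [c1.2.1, c2.2.1]) (by rw [c1.2.2, c2.2.2]) (by rw [c1.1, c2.1])
    have a2 := step_comp hf s2 (show Hp e f l₁ p l₂ = er f p.2 * (hol e f l₂ * hol e f l₁ * er e p.1)
      from rfl) (Hc_snoc e f l₁ p l₂)
      (by rw [c3.2.1, c2.2.1]) (by rw [c3.2.2, c2.2.2]) (by rw [c3.1, c2.1])
    rw [c1.2.1, c1.2.2] at a1
    rw [c2.2.1, c2.2.2, a1.1] at a2
    exact ⟨a1.2, a2.2, by rw [a2.1]; ring⟩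
  have hk : ∀ l₁ l₂, l = l₁ ++ l₂ → (Hc e f l₁ l₂).imK = w.imK := by
    intro l₁
    induction l₁ using List.reverseRecOn with
    | nil => intro l₂ h; simp only [List.nil_append] at h; rw [hw, h]; simp [Hc, hol]
    | append_singleton l₁ p ih =>
      intro l₂ h
      have h' : l = l₁ ++ p :: l₂ := by rw [h]; simp
      rw [(hstep _ _ _ h').2.2]
      exact ih _ h'
  have hp1 : ∀ p ∈ l, w.imK * Real.cos p.1 = Real.sin p.1 * (e.re * w.imJ - e.im * w.imI) ∧
      -w.imK * Real.cos p.2 = Real.sin p.2 * (f.re * w.imJ - f.im * w.imI) := by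
    intro p hp
    obtain ⟨l₁, l₂, h⟩ := List.append_of_mem hp
    have := hstep _ _ _ h
    rw [hk _ _ h] at this
    exact ⟨this.1, this.2.1⟩
  have hn : ‖w‖ = 1 := norm_hol he hf l
  have hn2 := norm_sq_eq w
  rw [hn] at hn2
  by_cases h0 : w.imK = 0
  · -- then `w = ± 1`
    obtain ⟨p, hp⟩ := List.exists_mem_of_ne_nil l hne
    have hpp := hpos p hp
    have hpl := hlt p hp
    have s1 : Real.sin p.1 ≠ 0 := (Real.sin_pos_of_pos_of_lt_pi hpp.1 hpl.1).ne'
    have s2 : Real.sin p.2 ≠ 0 := (Real.sin_pos_of_pos_of_lt_pi hpp.2 hpl.2).ne'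
    obtain ⟨a1, a2⟩ := hp1 p hp
    rw [h0] at a1 a2
    simp only [neg_zero, zero_mul] at a1 a2
    have b1 : e.re * w.imJ - e.im * w.imI = 0 := by
      rcases mul_eq_zero.1 a1.symm with h | h
      · exact absurd h s1
      · exact h
    have b2 : f.re * w.imJ - f.im * w.imI = 0 := by
      rcases mul_eq_zero.1 a2.symm with h | h
      · exact absurd h s2
      · exact h
    have c1 : w.imI = 0 := by
      have : (e.re * f.im - e.im * f.re) * w.imI = 0 := by
        linear_combination f.re * b1 - e.re * b2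
      rcases mul_eq_zero.1 this with h | h
      · exact absurd h hc
      · exact h
    have c2 : w.imJ = 0 := by
      have : (e.re * f.im - e.im * f.re) * w.imJ = 0 := by
        linear_combination f.im * b1 - e.im * b2
      rcases mul_eq_zero.1 this with h | h
      · exact absurd h hc
      · exact h
    rw [c1, c2, h0] at hn2
    have : (w.re - 1) * (w.re + 1) = 0 := by nlinarith
    rcases mul_eq_zero.1 this with h | h
    · left; linarith
    · right; left; linarith
  · right; right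
    obtain ⟨a, ha⟩ := List.exists_mem_of_ne_nil l hne
    refine ⟨a, fun p hp => ?_⟩
    have hcot : ∀ {k D x x' : ℝ}, k ≠ 0 → 0 < x → x < Real.pi → 0 < x' → x' < Real.pi →
        k * Real.cos x = Real.sin x * D → k * Real.cos x' = Real.sin x' * D → x = x' := by
      intro k D x x' hk h1 h2 h3 h4 h5 h6
      have : k * Real.sin (x - x') = 0 := by
        rw [Real.sin_sub]
        linear_combination Real.sin x * h6 - Real.sin x' * h5
      rcases mul_eq_zero.1 this with h | h
      · exact absurd h hk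
      · have := (Real.sin_eq_zero_iff_of_lt_of_lt (by linarith) (by linarith)).1 h
        linarith
    have A := hp1 a ha
    have P := hp1 p hp
    apply Prod.ext
    · exact hcot h0 (hpos p hp).1 (hlt p hp).1 (hpos a ha).1 (hlt a ha).1 P.1 A.1
    · exact hcot (neg_ne_zero.2 h0) (hpos p hp).2 (hlt p hp).2 (hpos a ha).2 (hlt a ha).2 P.2 A.2

lemma hol_replicate (e f : ℂ) (n : ℕ) (p : ℝ × ℝ) :
    hol e f (List.replicate n p) = (er e p.1 * er f p.2) ^ n := by
  induction n with
  | zero => simp [hol]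
  | succ n ih => rw [List.replicate_succ, hol, ih, pow_succ']

lemma le_sx {l : List (ℝ × ℝ)} (hl : Nonneg l) {p : ℝ × ℝ} (hp : p ∈ l) : p.1 ≤ sx l := by
  obtain ⟨l₁, l₂, rfl⟩ := List.append_of_mem hp
  rw [sx_append, sx_cons]
  have h1 := sx_nonneg (l := l₁) (fun q hq => hl q (by simp [hq]))
  have h2 := sx_nonneg (l := l₂) (fun q hq => hl q (by simp [hq]))
  linarith

lemma le_sy {l : List (ℝ × ℝ)} (hl : Nonneg l) {p : ℝ × ℝ} (hp : p ∈ l) : p.2 ≤ sy l := by
  obtain ⟨l₁, l₂, rfl⟩ := List.append_of_mem hp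
  rw [sy_append, sy_cons]
  have h1 := sy_nonneg (l := l₁) (fun q hq => hl q (by simp [hq]))
  have h2 := sy_nonneg (l := l₂) (fun q hq => hl q (by simp [hq]))
  linarith

/-- induction over the number of steps, independent directions -/
lemma re_hol_le_aux {e f : ℂ} (he : ‖e‖ = 1) (hf : ‖f‖ = 1) (hc : crs e f ≠ 0) (M : ℕ) :
    ∀ l : List (ℝ × ℝ), l.length = M → Nonneg l → sx l ≤ Real.pi → sy l ≤ Real.pi →
      (hol e f l).re ≤ RR (ip e f) (sx l) (sy l) := by
  have hpi := Real.pi_pos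
  induction M with
  | zero =>
    intro l h _ _ _
    rw [List.length_eq_zero_iff] at h
    subst h
    simp [hol, sx, sy, RR]
  | succ M ih =>
    intro l₀ hl₀ hn₀ hx₀ hy₀
    obtain ⟨l, hlen, hn, hx, hy, hmax⟩ := exists_max he hf (M + 1) l₀ hl₀ hn₀ rfl rfl
    refine (hmax l₀ hl₀ hn₀ rfl rfl).trans ?_
    rw [← hx, ← hy]
    rw [← hx] at hx₀
    rw [← hy] at hy₀
    rcases Nat.eq_zero_or_pos M with hM | hM
    · subst hM
      obtain ⟨p, rfl⟩ := List.length_eq_one_iff.1 (by simpa using hlen)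
      simp only [hol, mul_one, sx, sy, List.map_cons, List.map_nil, List.sum_cons, List.sum_nil,
        add_zero]
      exact le_of_eq (re_er_mul_er e f p.1 p.2)
    obtain ⟨M, rfl⟩ : ∃ k, M = k + 1 := ⟨M - 1, by omega⟩
    by_cases hz : ∃ p ∈ l, p.1 = 0 ∨ p.2 = 0
    · obtain ⟨p, hp, h0⟩ := hz
      obtain ⟨l₁, l₂, hl⟩ := List.append_of_mem hp
      subst hl
      obtain ⟨l', h1, h2, h3, h4, h5⟩ := reduce he hf (M := M) hlen hn h0
      have := ih l' h1 h2 (by rw [h3]; exact hx₀) (by rw [h4]; exact hy₀)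
      rw [h3, h4, h5] at this
      exact this
    · push Not at hz
      have hpos : ∀ p ∈ l, 0 < p.1 ∧ 0 < p.2 := by
        intro p hp
        have h1 := hn p hp
        have h2 := hz p hp
        exact ⟨lt_of_le_of_ne h1.1 (Ne.symm h2.1), lt_of_le_of_ne h1.2 (Ne.symm h2.2)⟩
      -- two elements
      obtain ⟨p, q, m, rfl⟩ : ∃ p q m, l = p :: q :: m := by
        rcases l with _ | ⟨p, _ | ⟨q, m⟩⟩
        · simp at hlen
        · simp at hlen
        · exact ⟨p, q, m, rfl⟩
      have hm : Nonneg m := fun r hr => hn r (by simp [hr])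
      have hlt : ∀ r ∈ p :: q :: m, r.1 < Real.pi ∧ r.2 < Real.pi := by
        intro r hr
        have hp := hpos p (by simp)
        have hq := hpos q (by simp)
        have m1 := sx_nonneg hm
        have m2 := sy_nonneg hm
        rw [sx_cons, sx_cons] at hx₀
        rw [sy_cons, sy_cons] at hy₀
        rcases List.mem_cons.1 hr with h | h
        · rw [h]; exact ⟨by linarith, by linarith⟩
        rcases List.mem_cons.1 h with h | h
        · rw [h]; exact ⟨by linarith, by linarith⟩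
        have a1 := le_sx hm h
        have a2 := le_sy hm h
        exact ⟨by linarith, by linarith⟩
      have hX : 0 < sx (p :: q :: m) := (hpos p (by simp)).1.trans_le (le_sx hn (by simp))
      have hY : 0 < sy (p :: q :: m) := (hpos p (by simp)).2.trans_le (le_sy hn (by simp))
      have hb := RR_bounds he hf (sx (p :: q :: m)) (sy (p :: q :: m))
      rcases all_equal he hf hc hpos hlt (by simp) (fun l' h1 h2 h3 h4 =>
        hmax l' (by rw [h1, hlen]) h2 (by rw [h3, hx]) (by rw [h4, hy])) with h | h | ⟨a, ha⟩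
      · by_cases hpp : sx (p :: q :: m) = Real.pi ∧ sy (p :: q :: m) = Real.pi
        · rw [h, hpp.1, hpp.2]; simp [RR]
        · exact absurd h (not_closed he hf hc hn hX hY hx₀ hy₀ hpp)
      · rw [h]; exact hb.1
      · have hrep : p :: q :: m = List.replicate (M + 1 + 1) a := by
          rw [List.eq_replicate_iff]; exact ⟨hlen, ha⟩
        have ha' := hpos a (by rw [hrep]; simp)
        have e1 : sx (p :: q :: m) = ((M + 1 + 1 : ℕ) : ℝ) * a.1 := by
          rw [hrep]; simp [sx, List.map_replicate, List.sum_replicate]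
        have e2 : sy (p :: q :: m) = ((M + 1 + 1 : ℕ) : ℝ) * a.2 := by
          rw [hrep]; simp [sy, List.map_replicate, List.sum_replicate]
        rw [e1] at hx₀ ⊢
        rw [e2] at hy₀ ⊢
        rw [hrep, hol_replicate]
        exact uniform he hf ha'.1.le hx₀ ha'.2.le hy₀

/-- **Corner inequality.** -/
theorem re_hol_le {e f : ℂ} (he : ‖e‖ = 1) (hf : ‖f‖ = 1) (l : List (ℝ × ℝ)) (hl : Nonneg l)
    (hx : sx l ≤ Real.pi) (hy : sy l ≤ Real.pi) :
    (hol e f l).re ≤ RR (ip e f) (sx l) (sy l) := by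
  by_cases hc : crs e f = 0
  · -- `f = ± e`
    have e1 := sq_add_sq he
    have e2 := sq_add_sq hf
    have e3 : ip e f ^ 2 = 1 := by
      have : ip e f ^ 2 + crs e f ^ 2 = 1 := by
        unfold ip crs; linear_combination (f.re ^ 2 + f.im ^ 2) * e1 + e2
      rw [hc] at this; linarith
    have e4 : (ip e f - 1) * (ip e f + 1) = 0 := by linarith
    rcases mul_eq_zero.1 e4 with h | h
    · have h1 : ip e f = 1 := by linarith
      have hfe : f = e := by
        have : (e.re - f.re) ^ 2 + (e.im - f.im) ^ 2 = 0 := by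
          unfold ip at h1; nlinarith
        apply Complex.ext <;> nlinarith [sq_nonneg (e.re - f.re), sq_nonneg (e.im - f.im)]
      subst hfe
      have : ∀ l : List (ℝ × ℝ), hol f f l = er f (sx l + sy l) := by
        intro l
        induction l with
        | nil => simp [hol, sx, sy, er_zero]
        | cons p l ih =>
          rw [hol, ih, ← er_add he, ← er_add he, sx_cons, sy_cons]; congr 1; ring
      rw [this, er_re, h1, RR, Real.cos_add]; linarith
    · have h1 : ip e f = -1 := by linarith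
      have hfe : f = -e := by
        have : (e.re + f.re) ^ 2 + (e.im + f.im) ^ 2 = 0 := by
          unfold ip at h1; nlinarith
        apply Complex.ext <;> simp <;> nlinarith [sq_nonneg (e.re + f.re), sq_nonneg (e.im + f.im)]
      have hneg : ∀ y, er f y = er e (-y) := by
        intro y
        rw [hfe]; unfold er
        rw [Real.cos_neg, Real.sin_neg, map_neg, smul_neg, neg_smul]
      have : ∀ l : List (ℝ × ℝ), hol e f l = er e (sx l - sy l) := by
        intro l
        induction l with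
        | nil => simp [hol, sx, sy, er_zero]
        | cons p l ih =>
          rw [hol, ih, hneg, ← er_add he, ← er_add he, sx_cons, sy_cons]; congr 1; ring
      rw [this, er_re, h1, RR, Real.cos_sub]; linarith
  · exact re_hol_le_aux he hf hc l.length l rfl hl hx hy

end Pool.Agent.helper71.CT
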