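import Pool.Agent.helper71.CT.Thick

/-! The direct structure: lattices with a short vector. -/

namespace Pool.Agent.helper71.CT

open Set Filter
open scoped Topology
open Pool.Agent.helper3.FlatTorus (inner2 norm2 Adm Criterion diam_le)

/-- hinge lemma, real form -/
lemma hinge_real {A B p q r : ℝ} (hA : 0 ≤ A) (hB : 0 ≤ B) (hAB : A + B = 1) (hr : 0 ≤ r)
    (hr' : r ≤ Real.pi) (h : r ^ 2 = A * p ^ 2 + B * q ^ 2) :
    Real.cos r ≤ A * Real.cos p + B * Real.cos q := by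
  rcases eq_or_lt_of_le hr with h0 | h0
  · have h1 := Real.one_sub_sq_div_two_le_cos (x := p)
    have h2 := Real.one_sub_sq_div_two_le_cos (x := q)
    rw [← h0, Real.cos_zero]
    rw [← h0] at h
    have h3 := mul_le_mul_of_nonneg_left h1 hA
    have h4 := mul_le_mul_of_nonneg_left h2 hB
    nlinarith
  · have h3 := mul_le_mul_of_nonneg_left (tangent_abs h0 hr' p) hA
    have h4 := mul_le_mul_of_nonneg_left (tangent_abs h0 hr' q) hB
    have h5 : A * (Real.cos r - Real.sin r / (2 * r) * (p ^ 2 - r ^ 2)) +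
        B * (Real.cos r - Real.sin r / (2 * r) * (q ^ 2 - r ^ 2)) =
        (A + B) * Real.cos r - Real.sin r / (2 * r) * (A * p ^ 2 + B * q ^ 2 - (A + B) * r ^ 2) := by
      ring
    rw [hAB, ← h, one_mul, one_mul, sub_self, mul_zero, sub_zero] at h5
    linarith

/-- first vector, disc inequality -/
lemma vec1_disc {X σ κ δ : ℝ} (hsk : σ ^ 2 + κ ^ 2 = 1) (hXδ : 2 * σ * X = δ) (hδ0 : 0 < δ)
    (h1 : 2 * Real.pi * σ < δ) (hδ : δ < 2 * Real.pi) {N : ℕ} (hN : 1 ≤ N)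
    (hN' : (-1 : ℝ) ^ N = -1) :
    Real.pi ^ 2 < (X - N * Real.pi) ^ 2 + X ^ 2 + 2 * (X - N * Real.pi) * X * (σ ^ 2 - κ ^ 2) := by
  have hpi := Real.pi_pos
  have hNr : (1:ℝ) ≤ N := by exact_mod_cast hN
  have e1 : (X - N * Real.pi) ^ 2 + X ^ 2 + 2 * (X - N * Real.pi) * X * (σ ^ 2 - κ ^ 2) =
      δ ^ 2 + (N * Real.pi) ^ 2 - N * δ * (2 * Real.pi * σ) := by
    rw [← hXδ]
    linear_combination (2 * X * (N * Real.pi) - 2 * X ^ 2) * hsk
  rw [e1]
  have e2 : N * δ * (2 * Real.pi * σ) < N * δ * δ :=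
    mul_lt_mul_of_pos_left h1 (show 0 < N * δ by positivity)
  have e3 : δ ^ 2 ≤ (2 * Real.pi) ^ 2 := pow_le_pow_left₀ hδ0.le hδ.le 2
  rcases odd_of_pow hN' with rfl | h3'
  · push_cast at *; nlinarith
  · have hN3 : (3:ℝ) ≤ N := by exact_mod_cast h3'
    have e4 : 0 ≤ (N - 1) * ((N + 1) * Real.pi ^ 2 - δ ^ 2) := by
      apply mul_nonneg (by linarith)
      have : 4 * Real.pi ^ 2 ≤ (N + 1) * Real.pi ^ 2 :=
        mul_le_mul_of_nonneg_right (by linarith) (by positivity)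
      linarith
    have e5 : (N - 1) * ((N + 1) * Real.pi ^ 2 - δ ^ 2) =
        δ ^ 2 + (N * Real.pi) ^ 2 - N * δ * δ - Real.pi ^ 2 := by ring
    linarith

lemma RR_diag {σ κ : ℝ} (hsk : σ ^ 2 + κ ^ 2 = 1) (x : ℝ) :
    Real.cos x * Real.cos x - (σ ^ 2 - κ ^ 2) * (Real.sin x * Real.sin x) =
      σ ^ 2 * Real.cos (2 * x) + κ ^ 2 := by
  rw [Real.cos_two_mul']
  linear_combination (κ ^ 2) * Real.sin_sq_add_cos_sq x - (Real.cos x ^ 2) * hsk

lemma RR_sum {σ κ : ℝ} (hsk : σ ^ 2 + κ ^ 2 = 1) (x y : ℝ) :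
    Real.cos x * Real.cos y - (κ ^ 2 - σ ^ 2) * (Real.sin x * Real.sin y) =
      κ ^ 2 * Real.cos (x + y) + σ ^ 2 * Real.cos (x - y) := by
  rw [Real.cos_add, Real.cos_sub]
  linear_combination (-(Real.cos x * Real.cos y)) * hsk

/-- first vector, corner inequality -/
lemma vec1_RR {X σ κ δ : ℝ} (hσ : 0 < σ) (hsk : σ ^ 2 + κ ^ 2 = 1) (hX : X = δ / (2 * σ))
    (hXpi : Real.pi < X) (hX54 : X < 5 * Real.pi / 4)
    (h3 : -(1 / 2) < σ ^ 2 * Real.cos (δ / (3 * σ)) + κ ^ 2) {N : ℕ}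
    (hN' : (-1 : ℝ) ^ N = -1) (hXN : X ≤ N * Real.pi) :
    -Real.cos (Real.pi / N) < Real.cos (X / N) * Real.cos (X / N) -
      (σ ^ 2 - κ ^ 2) * (Real.sin (X / N) * Real.sin (X / N)) := by
  have hpi := Real.pi_pos
  rw [RR_diag hsk]
  rcases odd_of_pow' hN' with rfl | rfl | h5'
  · exfalso; push_cast at hXN; linarith
  · have e2 : 2 * (X / (3:ℕ)) = δ / (3 * σ) := by rw [hX]; push_cast; field_simp
    rw [e2]
    push_cast
    rw [Real.cos_pi_div_three]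
    linarith
  · have hN5 : (5:ℝ) ≤ N := by exact_mod_cast h5'
    have hN0 : (0:ℝ) < N := by linarith
    have hX0 : 0 < X := by linarith
    have e2 : 0 < Real.cos (2 * (X / N)) := by
      apply Real.cos_pos_of_mem_Ioo
      constructor
      · have : 0 < 2 * (X / N) := by positivity
        linarith
      · rw [← mul_div_assoc, div_lt_iff₀ hN0]
        have : Real.pi / 2 * 5 ≤ Real.pi / 2 * N := mul_le_mul_of_nonneg_left hN5 (by positivity)
        linarith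
    have e3 := cos_pi_div_ge (N := N) (by omega)
    have e4 : 0 < σ ^ 2 * Real.cos (2 * (X / N)) := by positivity
    have e5 := sq_nonneg κ
    linarith

/-- second vector, disc inequality -/
lemma vec2_disc {h b₁ σ κ : ℝ} (hσ : 0 < σ) (hκ : 0 < κ)
    (hsk : σ ^ 2 + κ ^ 2 = 1) (hb : b₁ / σ < 2 * Real.pi)
    (h6 : 2 * Real.pi * (b₁ * σ + h * κ) < b₁ ^ 2 + h ^ 2)
    {N : ℕ} (hN : 1 ≤ N) (hN' : (-1 : ℝ) ^ N = -1)
    (h7 : 3 ≤ N → (h / κ + b₁ / σ) / 2 ≤ N * Real.pi →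
      -Real.cos (Real.pi / N) < κ ^ 2 * Real.cos (h / (N * κ)) + σ ^ 2 * Real.cos (b₁ / (N * σ))) :
    Real.pi ^ 2 < (h - N * Real.pi * κ) ^ 2 + (N * Real.pi * σ - b₁) ^ 2 := by
  have hpi := Real.pi_pos
  have hNr : (1:ℝ) ≤ N := by exact_mod_cast hN
  have hN0 : (0:ℝ) < N := by linarith
  have hσn := hσ.ne'
  have hκn := hκ.ne'
  rcases odd_of_pow hN' with rfl | h3'
  · push_cast
    have : (h - 1 * Real.pi * κ) ^ 2 + (1 * Real.pi * σ - b₁) ^ 2 =
        b₁ ^ 2 + h ^ 2 - 2 * Real.pi * (b₁ * σ + h * κ) + Real.pi ^ 2 := by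
      linear_combination Real.pi ^ 2 * hsk
    rw [this]; linarith
  · have hN3 : (3:ℝ) ≤ N := by exact_mod_cast h3'
    have hNpi : 3 * Real.pi ≤ N * Real.pi := mul_le_mul_of_nonneg_right hN3 hpi.le
    rcases le_or_gt ((h / κ + b₁ / σ) / 2) (N * Real.pi) with hXN | hXN
    · have h8 := h7 h3' hXN
      set p := h / (N * κ) - Real.pi with hp
      set q := Real.pi - b₁ / (N * σ) with hq
      have c1 : Real.cos (h / (N * κ)) = -Real.cos p := by
        rw [hp, Real.cos_sub_pi]; ring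
      have c2 : Real.cos (b₁ / (N * σ)) = -Real.cos q := by
        rw [hq, Real.cos_pi_sub]; ring
      rw [c1, c2] at h8
      set r := Real.sqrt (κ ^ 2 * p ^ 2 + σ ^ 2 * q ^ 2) with hr
      have hr0 : 0 ≤ r := Real.sqrt_nonneg _
      have hr2 : r ^ 2 = κ ^ 2 * p ^ 2 + σ ^ 2 * q ^ 2 := Real.sq_sqrt (by positivity)
      have hN0' := hN0.ne'
      have e1 : (h - N * Real.pi * κ) ^ 2 + (N * Real.pi * σ - b₁) ^ 2 = (N * r) ^ 2 := by
        rw [mul_pow, hr2, hp, hq]; field_simp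
      rw [e1]
      have e2 : Real.pi / N < r := by
        by_contra hcon
        push Not at hcon
        have hle : Real.pi / N ≤ Real.pi := div_le_self hpi.le hNr
        have h9 := hinge_real (A := κ ^ 2) (B := σ ^ 2) (sq_nonneg _) (sq_nonneg _)
          (by linarith) hr0 (hcon.trans hle) hr2
        have h10 := Real.cos_le_cos_of_nonneg_of_le_pi hr0 hle hcon
        linarith
      have e3 : Real.pi < N * r := by
        rw [div_lt_iff₀ hN0] at e2; linarith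
      exact pow_lt_pow_left₀ e3 hpi.le two_ne_zero
    · -- far
      set v := b₁ / σ with hv
      have hbv : b₁ = σ * v := by rw [hv]; field_simp
      have hhv : h = κ * (h / κ) := by field_simp
      have h8 : 2 * (N * Real.pi) - v < h / κ := by linarith
      have h11 : Real.pi < N * Real.pi - v := by linarith
      have h9 : κ * (N * Real.pi - v) < h - N * Real.pi * κ := by
        have := mul_lt_mul_of_pos_left h8 hκ
        rw [← hhv] at this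
        linarith
      have h10 : N * Real.pi * σ - b₁ = σ * (N * Real.pi - v) := by rw [hbv]; ring
      have h15 : 0 < N * Real.pi - v := by linarith
      have h12 : (κ * (N * Real.pi - v)) ^ 2 < (h - N * Real.pi * κ) ^ 2 :=
        pow_lt_pow_left₀ h9 (by positivity) two_ne_zero
      have h13 : Real.pi ^ 2 < (N * Real.pi - v) ^ 2 := pow_lt_pow_left₀ h11 hpi.le two_ne_zero
      rw [h10]
      have h14 : (κ * (N * Real.pi - v)) ^ 2 + (σ * (N * Real.pi - v)) ^ 2 =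
          (N * Real.pi - v) ^ 2 := by linear_combination ((N * Real.pi - v) ^ 2) * hsk
      linarith

/-- the direct structure for given directions -/
lemma criterion_direct_at {u w : E2} (hu : ‖u‖ = 1) (hw : ‖w‖ = 1)
    (huw : (inner ℝ u w : ℝ) = 0) {δ b₁ h σ κ : ℝ} (hσ : 0 < σ) (hκ : 0 < κ)
    (hsk : σ ^ 2 + κ ^ 2 = 1) (h1 : 2 * Real.pi * σ < δ) (h2 : 2 * δ < 5 * Real.pi * σ)
    (hδ : δ < 2 * Real.pi) (h3 : -(1 / 2) < σ ^ 2 * Real.cos (δ / (3 * σ)) + κ ^ 2)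
    (hb0 : 0 ≤ b₁) (hb1 : 2 * b₁ ≤ δ) (h5 : 2 * Real.pi * κ < h)
    (h6 : 2 * Real.pi * (b₁ * σ + h * κ) < b₁ ^ 2 + h ^ 2)
    (h7 : ∀ N : ℕ, 3 ≤ N → (-1 : ℝ) ^ N = -1 → (h / κ + b₁ / σ) / 2 ≤ N * Real.pi →
      -Real.cos (Real.pi / N) < κ ^ 2 * Real.cos (h / (N * κ)) + σ ^ 2 * Real.cos (b₁ / (N * σ))) :
    Criterion (Submodule.span ℤ {δ • u, b₁ • u + h • w}) := by
  have hpi := Real.pi_pos
  have hσn := hσ.ne'
  have hκn := hκ.ne'
  have hδ0 : 0 < δ := lt_trans (by positivity) h1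
  have hh : 0 < h := lt_trans (by positivity) h5
  have hσ1 : σ ^ 2 < 1 := by have : 0 < κ ^ 2 := by positivity
                             linarith
  have hκ1 : κ ^ 2 < 1 := by have : 0 < σ ^ 2 := by positivity
                             linarith
  have hwu : (inner ℝ w u : ℝ) = 0 := by rw [real_inner_comm]; exact huw
  obtain ⟨e, he⟩ : ∃ e : E2, e = σ • u + (-κ) • w := ⟨_, rfl⟩
  obtain ⟨f, hf⟩ : ∃ f : E2, f = σ • u + κ • w := ⟨_, rfl⟩
  have ne : ‖e‖ = 1 := by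
    have : ‖e‖ ^ 2 = 1 := by
      rw [he, norm_comb, hu, hw, huw]; linear_combination hsk
    exact (pow_eq_one_iff_of_nonneg (norm_nonneg e) two_ne_zero).1 this
  have nf : ‖f‖ = 1 := by
    have : ‖f‖ ^ 2 = 1 := by
      rw [hf, norm_comb, hu, hw, huw]; linear_combination hsk
    exact (pow_eq_one_iff_of_nonneg (norm_nonneg f) two_ne_zero).1 this
  have hef : (inner ℝ e f : ℝ) = σ ^ 2 - κ ^ 2 := by
    rw [he, hf, inner_add_left, inner_add_right, inner_add_right, inner_smul_left, inner_smul_left,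
      inner_smul_left, inner_smul_left, inner_smul_right, inner_smul_right, inner_smul_right,
      inner_smul_right, real_inner_self_eq_norm_sq, real_inner_self_eq_norm_sq, huw, hwu, hu, hw]
    simp only [conj_trivial]
    ring
  have hfe : (inner ℝ f (-e) : ℝ) = κ ^ 2 - σ ^ 2 := by
    rw [inner_neg_right, real_inner_comm, hef]; ring
  obtain ⟨X, hX⟩ : ∃ X : ℝ, X = δ / (2 * σ) := ⟨_, rfl⟩
  have hXpi : Real.pi < X := by rw [hX, lt_div_iff₀ (by positivity)]; linarith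
  have hX54 : X < 5 * Real.pi / 4 := by rw [hX, div_lt_iff₀ (by positivity)]; linarith
  have hXδ : 2 * σ * X = δ := by rw [hX]; field_simp
  have hb1σ : b₁ / σ ≤ X := by
    rw [div_le_iff₀ hσ]; linarith
  have hb1σ0 : 0 ≤ b₁ / σ := by positivity
  have hhκ : 2 * Real.pi < h / κ := by rw [lt_div_iff₀ hκ]; linarith
  obtain ⟨X₂, hX2⟩ : ∃ X₂ : ℝ, X₂ = (h / κ + b₁ / σ) / 2 := ⟨_, rfl⟩
  obtain ⟨Y₂, hY2⟩ : ∃ Y₂ : ℝ, Y₂ = (h / κ - b₁ / σ) / 2 := ⟨_, rfl⟩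
  have hX20 : 0 < X₂ := by rw [hX2]; linarith
  have hY20 : 0 < Y₂ := by rw [hY2]; linarith
  have hXY : X₂ + Y₂ = h / κ := by rw [hX2, hY2]; ring
  have hXY' : X₂ - Y₂ = b₁ / σ := by rw [hX2, hY2]; ring
  have hhe : h = κ * (X₂ + Y₂) := by rw [hXY]; field_simp
  have hbe : b₁ = σ * (X₂ - Y₂) := by rw [hXY']; field_simp
  have hne1 : e ≠ f := by
    intro hh'
    rw [hh', real_inner_self_eq_norm_sq, nf] at hef
    have := sq_nonneg κ
    linarith
  have hne2 : e ≠ -f := by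
    intro hh'
    rw [hh', inner_neg_left, real_inner_self_eq_norm_sq, nf] at hef
    have := sq_nonneg σ
    linarith
  have hX0 : 0 < X := by linarith
  refine ⟨e, f, X, X, X₂, Y₂, 1, 1, ne, nf, hne1, hne2, hX0, hX0, hX20, hY20,
    Or.inl rfl, Or.inl rfl, ?_, ?_, ?_⟩
  · -- first vector
    apply adm_one ne nf hef
    intro N hN hN'
    have hdisc := vec1_disc hsk hXδ hδ0 h1 hδ hN hN'
    exact ⟨hdisc, by linarith, fun hXN _ => vec1_RR hσ hsk hX hXpi hX54 h3 hN' hXN⟩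
  · -- second vector
    apply adm_one nf (by rw [norm_neg, ne]) hfe
    intro N hN hN'
    have hNr : (1:ℝ) ≤ N := by exact_mod_cast hN
    have hN0 : (0:ℝ) < N := by linarith
    have hF := vec2_disc hσ hκ hsk (by linarith) h6 hN hN' (fun h3' => h7 N h3' hN')
    have eF : (X₂ - N * Real.pi) ^ 2 + Y₂ ^ 2 + 2 * (X₂ - N * Real.pi) * Y₂ * (κ ^ 2 - σ ^ 2) =
        (h - N * Real.pi * κ) ^ 2 + (N * Real.pi * σ - b₁) ^ 2 := by
      rw [hhe, hbe]
      linear_combination (-((X₂ - N * Real.pi) ^ 2 + Y₂ ^ 2)) * hsk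
    have eE : X₂ ^ 2 + (Y₂ - N * Real.pi) ^ 2 + 2 * X₂ * (Y₂ - N * Real.pi) * (κ ^ 2 - σ ^ 2) =
        (h - N * Real.pi * κ) ^ 2 + (N * Real.pi * σ - b₁) ^ 2 + 4 * (N * Real.pi * σ * b₁) := by
      rw [hhe, hbe]
      linear_combination (-(X₂ ^ 2 + (Y₂ - N * Real.pi) ^ 2)) * hsk
    have hcmp : 0 ≤ N * Real.pi * σ * b₁ := by positivity
    refine ⟨by rw [eF]; exact hF, by rw [eE]; linarith, ?_⟩
    intro hXN hYN
    rw [RR_sum hsk]
    have e1 : X₂ / N + Y₂ / N = h / (N * κ) := by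
      rw [← add_div, hXY]; field_simp
    have e2 : X₂ / N - Y₂ / N = b₁ / (N * σ) := by
      rw [← sub_div, hXY']; field_simp
    rw [e1, e2]
    rcases odd_of_pow hN' with rfl | h3'
    · exfalso
      push_cast at hXN hYN
      linarith
    · exact h7 N h3' hN' (by rw [← hX2]; exact hXN)
  · intro v hv
    obtain ⟨m, n, rfl⟩ := Submodule.mem_span_pair.1 hv
    refine ⟨m, n, ?_, by simp⟩
    have e1 : δ • u = X • e + X • f := by
      rw [he, hf, ← hXδ]; module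
    have e2 : b₁ • u + h • w = X₂ • f - Y₂ • e := by
      rw [he, hf]
      calc b₁ • u + h • w = (σ * (X₂ - Y₂)) • u + (κ * (X₂ + Y₂)) • w := by rw [← hhe, ← hbe]
        _ = _ := by module
    rw [← e1, ← e2]

/-- perturbation of the direct structure -/
lemma criterion_direct {u w : E2} (hu : ‖u‖ = 1) (hw : ‖w‖ = 1)
    (huw : (inner ℝ u w : ℝ) = 0) {δ b₁ h : ℝ} (hδ0 : 0 < δ) (hδ : δ < 2 * Real.pi)
    (hb0 : 0 ≤ b₁) (hb1 : 2 * b₁ ≤ δ) (hh : 0 < h)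
    {σ₀ κ₀ : ℝ} (hs : σ₀ = δ / (2 * Real.pi)) (hk : κ₀ = Real.sqrt (1 - σ₀ ^ 2))
    (h6 : 2 * Real.pi * (b₁ * σ₀ + h * κ₀) < b₁ ^ 2 + h ^ 2)
    (h7 : ∀ N : ℕ, 3 ≤ N → Odd N → (h / κ₀ + b₁ / σ₀) / 2 ≤ N * Real.pi →
      -Real.cos (Real.pi / N) <
        κ₀ ^ 2 * Real.cos (h / (N * κ₀)) + σ₀ ^ 2 * Real.cos (b₁ / (N * σ₀))) :
    Criterion (Submodule.span ℤ {δ • u, b₁ • u + h • w}) := by
  have hpi := Real.pi_pos
  have hσ₀ : 0 < σ₀ := by rw [hs]; positivity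
  have hσ₀1 : σ₀ < 1 := by rw [hs, div_lt_one (by positivity)]; exact hδ
  have hσδ : 2 * Real.pi * σ₀ = δ := by rw [hs]; field_simp
  have hsq1 : σ₀ ^ 2 < 1 := by nlinarith
  have hκ₀ : 0 < κ₀ := by rw [hk]; exact Real.sqrt_pos.2 (by linarith)
  have hκsq : κ₀ ^ 2 = 1 - σ₀ ^ 2 := by rw [hk]; exact Real.sq_sqrt (by linarith)
  have h5 : 2 * Real.pi * κ₀ < h := by
    have e1 : 0 ≤ b₁ * (δ - b₁) := mul_nonneg hb0 (by linarith)
    have e2 : 0 < h * (h - 2 * Real.pi * κ₀) := by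
      have : 2 * Real.pi * (b₁ * σ₀ + h * κ₀) = b₁ * δ + 2 * Real.pi * κ₀ * h := by
        rw [← hσδ]; ring
      nlinarith
    have := (mul_pos_iff_of_pos_left hh).1 e2
    linarith
  -- continuity
  set κ : ℝ → ℝ := fun σ => Real.sqrt (1 - σ ^ 2) with hκdef
  have hκc : Continuous κ := by rw [hκdef]; fun_prop
  have hκ0 : κ σ₀ = κ₀ := by rw [hκdef, hk]
  have tκ : Tendsto κ (𝓝 σ₀) (𝓝 κ₀) := by have := hκc.tendsto σ₀; rwa [hκ0] at this
  have tσ : Tendsto (fun σ : ℝ => σ) (𝓝 σ₀) (𝓝 σ₀) := tendsto_id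
  have tcos : ∀ (c : ℝ) {g : ℝ → ℝ} {l : ℝ}, Tendsto g (𝓝 σ₀) (𝓝 l) →
      Tendsto (fun σ => Real.cos (g σ)) (𝓝 σ₀) (𝓝 (Real.cos l)) := fun _ _ _ hg =>
    (Real.continuous_cos.tendsto _).comp hg
  have tX : Tendsto (fun σ => (h / κ σ + b₁ / σ) / 2) (𝓝 σ₀) (𝓝 ((h / κ₀ + b₁ / σ₀) / 2)) :=
    (((tendsto_const_nhds).div tκ hκ₀.ne').add ((tendsto_const_nhds).div tσ hσ₀.ne')).div_const 2
  -- the condition for all `N`
  obtain ⟨M, hM⟩ := exists_nat_gt (h / κ₀ + b₁ / σ₀)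
  have ev7 : ∀ᶠ σ in 𝓝 σ₀, ∀ N : ℕ, 3 ≤ N → (-1 : ℝ) ^ N = -1 →
      (h / κ σ + b₁ / σ) / 2 ≤ N * Real.pi → -Real.cos (Real.pi / N) <
        κ σ ^ 2 * Real.cos (h / (N * κ σ)) + σ ^ 2 * Real.cos (b₁ / (N * σ)) := by
    have evM : ∀ᶠ σ in 𝓝 σ₀, h / κ σ + b₁ / σ < M := by
      have : Tendsto (fun σ => h / κ σ + b₁ / σ) (𝓝 σ₀) (𝓝 (h / κ₀ + b₁ / σ₀)) :=
        ((tendsto_const_nhds).div tκ hκ₀.ne').add ((tendsto_const_nhds).div tσ hσ₀.ne')
      exact this.eventually (gt_mem_nhds hM)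
    have evs : ∀ᶠ σ in 𝓝 σ₀, ∀ N ∈ Finset.range (M + 1), 3 ≤ N → (-1 : ℝ) ^ N = -1 →
      (h / κ σ + b₁ / σ) / 2 ≤ N * Real.pi → -Real.cos (Real.pi / N) <
        κ σ ^ 2 * Real.cos (h / (N * κ σ)) + σ ^ 2 * Real.cos (b₁ / (N * σ)) := by
      rw [Filter.eventually_all_finset]
      intro N _
      by_cases h3 : 3 ≤ N
      swap
      · exact Eventually.of_forall (fun σ hh' => absurd hh' h3)
      by_cases hodd : (-1 : ℝ) ^ N = -1
      swap
      · exact Eventually.of_forall (fun σ _ hh' => absurd hh' hodd)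
      have hN0 : (N:ℝ) ≠ 0 := by have : N ≠ 0 := by omega
                                 exact_mod_cast this
      have hoddN : Odd N := by
        rcases Nat.even_or_odd N with he | ho
        · rw [he.neg_one_pow] at hodd; norm_num at hodd
        · exact ho
      rcases le_or_gt ((h / κ₀ + b₁ / σ₀) / 2) (N * Real.pi) with hle | hgt
      · have h8 := h7 N h3 hoddN hle
        have t1 : Tendsto (fun σ => κ σ ^ 2 * Real.cos (h / (N * κ σ)) +
            σ ^ 2 * Real.cos (b₁ / (N * σ))) (𝓝 σ₀)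
            (𝓝 (κ₀ ^ 2 * Real.cos (h / (N * κ₀)) + σ₀ ^ 2 * Real.cos (b₁ / (N * σ₀)))) := by
          refine ((tκ.pow 2).mul (tcos 0 ?_)).add ((tσ.pow 2).mul (tcos 0 ?_))
          · exact tendsto_const_nhds.div (tκ.const_mul _) (mul_ne_zero hN0 hκ₀.ne')
          · exact tendsto_const_nhds.div (tσ.const_mul _) (mul_ne_zero hN0 hσ₀.ne')
        filter_upwards [t1.eventually (lt_mem_nhds h8)] with σ hσ _ _ _
        exact hσ
      · filter_upwards [tX.eventually (lt_mem_nhds hgt)] with σ hσ _ _ hcon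
        exact absurd hcon (not_le.2 hσ)
    have evp : ∀ᶠ σ in 𝓝 σ₀, 0 < σ := tσ.eventually (lt_mem_nhds hσ₀)
    have evk : ∀ᶠ σ in 𝓝 σ₀, 0 < κ σ := tκ.eventually (lt_mem_nhds hκ₀)
    filter_upwards [evM, evs, evp, evk] with σ s1 s2 s3 s4 N h3 hodd hle
    rcases lt_or_ge N (M + 1) with hN | hN
    · exact s2 N (Finset.mem_range.2 hN) h3 hodd hle
    · have hNM : (M:ℝ) < N := by exact_mod_cast hN
      have hN0 : (0:ℝ) < N := lt_of_le_of_lt (Nat.cast_nonneg M) hNM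
      have p1 : 0 ≤ h / κ σ := by positivity
      have p2 : 0 ≤ b₁ / σ := by positivity
      have hpi3 := Real.pi_gt_three
      have q1 : h / (N * κ σ) ≤ 1 := by
        rw [mul_comm, ← div_div, div_le_one hN0]; linarith
      have q2 : b₁ / (N * σ) ≤ 1 := by
        rw [mul_comm, ← div_div, div_le_one hN0]; linarith
      have q3 : 0 ≤ h / (N * κ σ) := by positivity
      have q4 : 0 ≤ b₁ / (N * σ) := by positivity
      have r1 : 0 ≤ Real.cos (h / (N * κ σ)) :=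
        Real.cos_nonneg_of_mem_Icc ⟨by linarith, by linarith⟩
      have r2 : 0 ≤ Real.cos (b₁ / (N * σ)) :=
        Real.cos_nonneg_of_mem_Icc ⟨by linarith, by linarith⟩
      have r3 := cos_pi_div_ge h3
      have r4 : 0 ≤ κ σ ^ 2 * Real.cos (h / (N * κ σ)) := by positivity
      have r5 : 0 ≤ σ ^ 2 * Real.cos (b₁ / (N * σ)) := by positivity
      linarith
  have ev1 : ∀ᶠ σ in 𝓝 σ₀, 0 < σ := tσ.eventually (lt_mem_nhds hσ₀)
  have ev2 : ∀ᶠ σ in 𝓝 σ₀, 0 < κ σ := tκ.eventually (lt_mem_nhds hκ₀)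
  have ev3 : ∀ᶠ σ in 𝓝 σ₀, 2 * δ < 5 * Real.pi * σ := by
    have : Tendsto (fun σ : ℝ => 5 * Real.pi * σ) (𝓝 σ₀) (𝓝 (5 * Real.pi * σ₀)) :=
      tσ.const_mul _
    exact this.eventually (lt_mem_nhds (by nlinarith))
  have ev4 : ∀ᶠ σ in 𝓝 σ₀, -(1 / 2) < σ ^ 2 * Real.cos (δ / (3 * σ)) + κ σ ^ 2 := by
    have t1 : Tendsto (fun σ => σ ^ 2 * Real.cos (δ / (3 * σ)) + κ σ ^ 2) (𝓝 σ₀)
        (𝓝 (σ₀ ^ 2 * Real.cos (δ / (3 * σ₀)) + κ₀ ^ 2)) := by
      refine ((tσ.pow 2).mul (tcos 0 ?_)).add (tκ.pow 2)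
      exact tendsto_const_nhds.div (tσ.const_mul _) (mul_ne_zero (by norm_num) hσ₀.ne')
    apply t1.eventually (lt_mem_nhds _)
    have e1 : δ / (3 * σ₀) = Real.pi - Real.pi / 3 := by
      rw [← hσδ]; field_simp; norm_num
    rw [e1, Real.cos_pi_sub, Real.cos_pi_div_three, hκsq]
    linarith
  have ev5 : ∀ᶠ σ in 𝓝 σ₀, 2 * Real.pi * κ σ < h :=
    (tκ.const_mul (2 * Real.pi)).eventually (gt_mem_nhds h5)
  have ev6 : ∀ᶠ σ in 𝓝 σ₀, 2 * Real.pi * (b₁ * σ + h * κ σ) < b₁ ^ 2 + h ^ 2 :=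
    (((tσ.const_mul b₁).add (tκ.const_mul h)).const_mul (2 * Real.pi)).eventually
      (gt_mem_nhds h6)
  have ev8 : ∀ᶠ σ in 𝓝 σ₀, σ ^ 2 < 1 := (tσ.pow 2).eventually (gt_mem_nhds hsq1)
  have evall := ev1.and (ev2.and (ev3.and (ev4.and (ev5.and (ev6.and (ev7.and ev8))))))
  have evleft : ∀ᶠ σ in 𝓝[<] σ₀, σ < σ₀ := self_mem_nhdsWithin
  obtain ⟨σ, ⟨s1, s2, s3, s4, s5, s6, s7, s8⟩, s9⟩ :=
    ((evall.filter_mono nhdsWithin_le_nhds).and evleft).exists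
  refine criterion_direct_at hu hw huw s1 s2 ?_ ?_ s3 hδ s4 hb0 hb1 s5 s6 s7
  · rw [hκdef]; simp only; rw [Real.sq_sqrt (by linarith)]; ring
  · rw [← hσδ]; exact mul_lt_mul_of_pos_left s9 (by positivity)

end Pool.Agent.helper71.CT
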