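import Pool.Agent.helper70.Tori.Poly

/-!
The disc inequality: holonomy of staircases versus the distance to the points `N π e`, `N π f`.
-/

open Quaternion

namespace Pool.Agent.helper71.CT

open Pool.Agent.helper70.Tori

/-- `sin p * (π ^ 2 - 4 p ^ 2) ≥ 4 p cos p` on `[0, π / 2]`. -/
lemma aux_ineq {q : ℝ} (hq : 0 < q) (hq' : q ≤ Real.pi) :
    2 * q * (1 + Real.cos q) ≤ Real.sin q * (Real.pi ^ 2 - q ^ 2) := by
  have hpi := Real.pi_pos
  set p := q / 2 with hp
  have hqp : q = 2 * p := by rw [hp]; ring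
  have hp0 : 0 < p := by rw [hp]; linarith
  have hp1 : p ≤ Real.pi / 2 := by rw [hp]; linarith
  rw [hqp, Real.sin_two_mul, Real.cos_two_mul]
  have hc0 : 0 ≤ Real.cos p := Real.cos_nonneg_of_mem_Icc ⟨by linarith, hp1⟩
  have hs0 : 0 ≤ Real.sin p := Real.sin_nonneg_of_nonneg_of_le_pi hp0.le (by linarith)
  have hJ : 2 / Real.pi * p ≤ Real.sin p := Real.mul_le_sin hp0.le hp1
  have hc1 : Real.cos p ≤ Real.pi / 2 - p := by
    rw [← Real.sin_pi_div_two_sub]
    exact Real.sin_le (by linarith)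
  have h1 : 2 * p ≤ Real.sin p * (Real.pi + 2 * p) := by
    have : 2 / Real.pi * p * (Real.pi + 2 * p) ≤ Real.sin p * (Real.pi + 2 * p) :=
      mul_le_mul_of_nonneg_right hJ (by linarith)
    have h2 : 2 / Real.pi * p * (Real.pi + 2 * p) = 2 * p + 4 * p ^ 2 / Real.pi := by
      field_simp
      ring
    have h3 : 0 ≤ 4 * p ^ 2 / Real.pi := by positivity
    linarith
  have h2 : 4 * p * Real.cos p ≤ Real.sin p * (Real.pi ^ 2 - 4 * p ^ 2) := by
    have e1 : Real.sin p * (Real.pi ^ 2 - 4 * p ^ 2) =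
        (Real.sin p * (Real.pi + 2 * p)) * (Real.pi - 2 * p) := by ring
    rw [e1]
    have e2 : 2 * p * (Real.pi - 2 * p) ≤ (Real.sin p * (Real.pi + 2 * p)) * (Real.pi - 2 * p) :=
      mul_le_mul_of_nonneg_right h1 (by linarith)
    have e3 : 4 * p * Real.cos p ≤ 2 * p * (Real.pi - 2 * p) := by nlinarith
    linarith
  nlinarith [mul_le_mul_of_nonneg_left h2 hc0]

/-- tangent line inequality for `cos (sqrt v)` -/
lemma tangent {q : ℝ} (hq : 0 < q) (hq' : q ≤ Real.pi) {u : ℝ} (hu : 0 ≤ u) :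
    Real.cos q - Real.sin q / (2 * q) * (u ^ 2 - q ^ 2) ≤ Real.cos u := by
  have hpi := Real.pi_pos
  have hs0 : 0 ≤ Real.sin q := Real.sin_nonneg_of_nonneg_of_le_pi hq.le hq'
  set G : ℝ → ℝ := fun u => Real.cos u - Real.cos q + Real.sin q / (2 * q) * (u ^ 2 - q ^ 2)
    with hG
  have hd : ∀ u, HasDerivAt G (-Real.sin u + Real.sin q / q * u) u := by
    intro u
    have h1 := ((Real.hasDerivAt_cos u).sub_const (Real.cos q)).add
      ((((hasDerivAt_id u).pow 2).sub_const (q ^ 2)).const_mul (Real.sin q / (2 * q)))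
    refine h1.congr_deriv ?_
    simp only [id]
    field_simp
    ring
  have hGq : G q = 0 := by simp [hG]
  have hcont : Continuous G := continuous_iff_continuousAt.2 fun u => (hd u).continuousAt
  have hconc := strictConcaveOn_sin_Icc.concaveOn
  suffices h : 0 ≤ G u by
    simp only [hG] at h; linarith
  rcases le_total u q with h | h
  · -- decreasing on [0,q]
    have hanti : AntitoneOn G (Set.Icc 0 q) := by
      apply antitoneOn_of_deriv_nonpos (convex_Icc 0 q) hcont.continuousOn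
        (fun x _ => (hd x).differentiableAt.differentiableWithinAt)
      intro x hx
      rw [interior_Icc] at hx
      rw [(hd x).deriv]
      have ha : 0 ≤ 1 - x / q := by rw [sub_nonneg, div_le_one hq]; exact hx.2.le
      have hb : 0 ≤ x / q := div_nonneg hx.1.le hq.le
      have h2 := hconc.2 (show (0:ℝ) ∈ Set.Icc 0 Real.pi from ⟨le_rfl, hpi.le⟩)
        (show q ∈ Set.Icc 0 Real.pi from ⟨hq.le, hq'⟩) ha hb (by ring)
      simp only [Real.sin_zero, smul_eq_mul, mul_zero, zero_add] at h2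
      rw [div_mul_cancel₀ _ hq.ne'] at h2
      have h3 : Real.sin q / q * x = x / q * Real.sin q := by ring
      linarith
    have := hanti ⟨hu, h⟩ ⟨hq.le, le_rfl⟩ h
    rw [hGq] at this; exact this
  · rcases le_total u Real.pi with h' | h'
    · have hmono : MonotoneOn G (Set.Icc q Real.pi) := by
        apply monotoneOn_of_deriv_nonneg (convex_Icc _ _) hcont.continuousOn
          (fun x _ => (hd x).differentiableAt.differentiableWithinAt)
        intro x hx
        rw [interior_Icc] at hx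
        rw [(hd x).deriv]
        have hx0 : 0 < x := hq.trans hx.1
        have ha : 0 ≤ 1 - q / x := by rw [sub_nonneg, div_le_one hx0]; exact hx.1.le
        have hb : 0 ≤ q / x := div_nonneg hq.le hx0.le
        have h2 := hconc.2 (show (0:ℝ) ∈ Set.Icc 0 Real.pi from ⟨le_rfl, hpi.le⟩)
          (show x ∈ Set.Icc 0 Real.pi from ⟨hx0.le, hx.2.le⟩) ha hb (by ring)
        simp only [Real.sin_zero, smul_eq_mul, mul_zero, zero_add] at h2
        rw [div_mul_cancel₀ _ hx0.ne'] at h2
        have h3 : Real.sin x ≤ Real.sin q / q * x := by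
          rw [div_mul_eq_mul_div, le_div_iff₀ hq]
          have h4 : q / x * Real.sin x * x ≤ Real.sin q * x :=
            mul_le_mul_of_nonneg_right h2 hx0.le
          have h5 : q / x * Real.sin x * x = Real.sin x * q := by field_simp
          linarith
        linarith
      have := hmono ⟨le_rfl, hq'⟩ ⟨h, h'⟩ h
      rw [hGq] at this; exact this
    · simp only [hG]
      have h1 := aux_ineq hq hq'
      have h2 := Real.neg_one_le_cos u
      have h3 : 1 + Real.cos q ≤ Real.sin q / (2 * q) * (u ^ 2 - q ^ 2) := by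
        rw [div_mul_eq_mul_div, le_div_iff₀ (by positivity)]
        have h4 : Real.sin q * (Real.pi ^ 2 - q ^ 2) ≤ Real.sin q * (u ^ 2 - q ^ 2) := by
          apply mul_le_mul_of_nonneg_left _ hs0
          nlinarith
        linarith
      linarith

lemma tangent_abs {q : ℝ} (hq : 0 < q) (hq' : q ≤ Real.pi) (u : ℝ) :
    Real.cos q - Real.sin q / (2 * q) * (u ^ 2 - q ^ 2) ≤ Real.cos u := by
  have := tangent hq hq' (abs_nonneg u)
  rwa [sq_abs, Real.cos_abs] at this

lemma ip_bounds {e f : ℂ} (he : ‖e‖ = 1) (hf : ‖f‖ = 1) : -1 ≤ ip e f ∧ ip e f ≤ 1 := by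
  have h1 := sq_add_sq he
  have h2 := sq_add_sq hf
  unfold ip
  constructor <;> nlinarith [sq_nonneg (e.re - f.re), sq_nonneg (e.im - f.im),
    sq_nonneg (e.re + f.re), sq_nonneg (e.im + f.im)]

lemma norm_sq_comb {e f : ℂ} (he : ‖e‖ = 1) (hf : ‖f‖ = 1) (x y : ℝ) :
    ‖(x : ℂ) * e + (y : ℂ) * f‖ ^ 2 = x ^ 2 + y ^ 2 + 2 * ip e f * x * y := by
  have h1 := sq_add_sq he
  have h2 := sq_add_sq hf
  rw [Complex.sq_norm, Complex.normSq_apply]
  simp only [Complex.add_re, Complex.mul_re, Complex.ofReal_re, Complex.ofReal_im, zero_mul,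
    sub_zero, Complex.add_im, Complex.mul_im, add_zero, ip]
  linear_combination x ^ 2 * h1 + y ^ 2 * h2

/-- hinge lemma -/
theorem hinge {e f : ℂ} (he : ‖e‖ = 1) (hf : ‖f‖ = 1) (x y : ℝ) :
    Real.arccos (RR (ip e f) x y) ≤ ‖(x : ℂ) * e + (y : ℂ) * f‖ := by
  set r := ‖(x : ℂ) * e + (y : ℂ) * f‖ with hr
  have hr0 : 0 ≤ r := norm_nonneg _
  rcases le_total Real.pi r with h | h
  · exact (Real.arccos_le_pi _).trans h
  have hr2 : r ^ 2 = x ^ 2 + y ^ 2 + 2 * ip e f * x * y := by rw [hr]; exact norm_sq_comb he hf x y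
  obtain ⟨b1, b2⟩ := ip_bounds he hf
  set c := ip e f
  have hRR : RR c x y = (1 + c) / 2 * Real.cos (x + y) + (1 - c) / 2 * Real.cos (x - y) := by
    unfold RR
    rw [Real.cos_add, Real.cos_sub]; ring
  have key : Real.cos r ≤ RR c x y := by
    rw [hRR]
    rcases eq_or_lt_of_le hr0 with h0 | h0
    · have h1 := Real.one_sub_sq_div_two_le_cos (x := x + y)
      have h2 := Real.one_sub_sq_div_two_le_cos (x := x - y)
      rw [← h0, Real.cos_zero]
      rw [← h0] at hr2
      have h3 := mul_le_mul_of_nonneg_left h1 (show 0 ≤ (1 + c) / 2 by linarith)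
      have h4 := mul_le_mul_of_nonneg_left h2 (show 0 ≤ (1 - c) / 2 by linarith)
      nlinarith
    · have h1 := tangent_abs h0 h (x + y)
      have h2 := tangent_abs h0 h (x - y)
      have h3 := mul_le_mul_of_nonneg_left h1 (show 0 ≤ (1 + c) / 2 by linarith)
      have h4 := mul_le_mul_of_nonneg_left h2 (show 0 ≤ (1 - c) / 2 by linarith)
      have h5 : (1 + c) / 2 * (Real.cos r - Real.sin r / (2 * r) * ((x + y) ^ 2 - r ^ 2)) +
          (1 - c) / 2 * (Real.cos r - Real.sin r / (2 * r) * ((x - y) ^ 2 - r ^ 2)) =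
          Real.cos r - Real.sin r / (2 * r) * (x ^ 2 + y ^ 2 + 2 * c * x * y - r ^ 2) := by ring
      rw [← hr2, sub_self, mul_zero, sub_zero] at h5
      linarith
  rw [← Real.arccos_cos hr0 h]
  exact Real.arccos_le_arccos key

lemma arccos_cos_le (u : ℝ) : Real.arccos (Real.cos u) ≤ |u| := by
  rcases le_total |u| Real.pi with h | h
  · rw [← Real.cos_abs, Real.arccos_cos (abs_nonneg _) h]
  · exact (Real.arccos_le_pi _).trans h

/-- strips in direction `e` -/
lemma strip_e {e f : ℂ} (he : ‖e‖ = 1) (hf : ‖f‖ = 1) (k : ℝ) :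
    ∀ (l : List (ℝ × ℝ)) (z : ℝ), Nonneg l → z + sx l = k * sy l →
      Real.arccos (er e z * hol e f l).re ≤ sy l * ‖(k : ℂ) * e + f‖ := by
  intro l
  induction l with
  | nil =>
    intro z _ h
    simp only [sx, sy, List.map_nil, List.sum_nil, add_zero, mul_zero] at h
    simp [h, hol, er_zero, sy]
  | cons p l ih =>
    intro z hl h
    rw [sx_cons, sy_cons] at h
    have hp : 0 ≤ p.2 := (hl p (by simp)).2
    have hl' : Nonneg l := fun q hq => hl q (by simp [hq])
    have h1 := ih (z + p.1 - k * p.2) hl' (by linarith)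
    have e1 : er e z * hol e f (p :: l) =
        er e (z + p.1 - k * p.2) * (er e (k * p.2) * er f p.2 * hol e f l) := by
      rw [← mul_assoc, ← mul_assoc, ← er_add he, hol, ← mul_assoc, ← mul_assoc, ← er_add he]
      congr 3
      ring
    have e2 : (er e z * hol e f (p :: l)).re =
        ((er e (k * p.2) * er f p.2) * (hol e f l * er e (z + p.1 - k * p.2))).re := by
      rw [e1, re_mul_comm']
      simp only [mul_assoc]
    rw [e2]
    refine (arccos_mul_le (by rw [norm_mul, norm_er he, norm_er hf, one_mul])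
      (by rw [norm_mul, norm_er he, norm_hol he hf, one_mul])).trans ?_
    rw [re_mul_comm' (hol e f l), re_er_mul_er, sy_cons, add_mul]
    refine add_le_add ?_ h1
    refine (hinge he hf _ _).trans (le_of_eq ?_)
    have : ((k * p.2 : ℝ) : ℂ) * e + (p.2 : ℂ) * f = (p.2 : ℂ) * ((k : ℂ) * e + f) := by
      push_cast; ring
    rw [this, norm_mul, Complex.norm_real, Real.norm_eq_abs, abs_of_nonneg hp]

/-- strips in direction `f` -/
lemma strip_f {e f : ℂ} (he : ‖e‖ = 1) (hf : ‖f‖ = 1) (k : ℝ) :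
    ∀ (l : List (ℝ × ℝ)) (z : ℝ), Nonneg l → z + sy l = k * sx l →
      Real.arccos (er f z * hol e f l).re ≤ sx l * ‖e + (k : ℂ) * f‖ := by
  intro l
  induction l with
  | nil =>
    intro z _ h
    simp only [sx, sy, List.map_nil, List.sum_nil, add_zero, mul_zero] at h
    simp [h, hol, er_zero, sx]
  | cons p l ih =>
    intro z hl h
    rw [sx_cons, sy_cons] at h
    have hp : 0 ≤ p.1 := (hl p (by simp)).1
    have hl' : Nonneg l := fun q hq => hl q (by simp [hq])
    have h1 := ih (z - k * p.1 + p.2) hl' (by linarith)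
    have e1 : (er f z * hol e f (p :: l)).re =
        ((er f (k * p.1) * er e p.1) * (er f p.2 * hol e f l * er f (z - k * p.1))).re := by
      have : er f z = er f (z - k * p.1) * er f (k * p.1) := by
        rw [← er_add hf]; congr 1; ring
      rw [this, hol, mul_assoc (er f (z - k * p.1)), re_mul_comm' (er f (z - k * p.1))]
      simp only [mul_assoc]
    rw [e1]
    refine (arccos_mul_le (by rw [norm_mul, norm_er he, norm_er hf, one_mul])
      (by rw [norm_mul, norm_mul, norm_er hf, norm_er hf, norm_hol he hf, one_mul, one_mul])).trans ?_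
    have e2 : (er f p.2 * hol e f l * er f (z - k * p.1)).re =
        (er f (z - k * p.1 + p.2) * hol e f l).re := by
      rw [re_mul_comm', ← mul_assoc, ← er_add hf]
    rw [e2, re_mul_comm' (er f (k * p.1)), re_er_mul_er, sx_cons, add_mul]
    refine add_le_add ?_ h1
    refine (hinge he hf _ _).trans (le_of_eq ?_)
    have : ((p.1 : ℝ) : ℂ) * e + ((k * p.1 : ℝ) : ℂ) * f = (p.1 : ℂ) * (e + (k : ℂ) * f) := by
      push_cast; ring
    rw [this, norm_mul, Complex.norm_real, Real.norm_eq_abs, abs_of_nonneg hp]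

lemma sx_nonneg {l : List (ℝ × ℝ)} (hl : Nonneg l) : 0 ≤ sx l := by
  apply List.sum_nonneg
  intro x hx
  obtain ⟨p, hp, rfl⟩ := List.mem_map.1 hx
  exact (hl p hp).1

lemma sy_nonneg {l : List (ℝ × ℝ)} (hl : Nonneg l) : 0 ≤ sy l := by
  apply List.sum_nonneg
  intro x hx
  obtain ⟨p, hp, rfl⟩ := List.mem_map.1 hx
  exact (hl p hp).2

lemma hol_of_sy_zero {e f : ℂ} (he : ‖e‖ = 1) : ∀ (l : List (ℝ × ℝ)), Nonneg l → sy l = 0 →
    hol e f l = er e (sx l) := by
  intro l
  induction l with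
  | nil => intro _ _; simp [hol, sx, er_zero]
  | cons p l ih =>
    intro hl h
    have hl' : Nonneg l := fun q hq => hl q (by simp [hq])
    have h1 := sy_nonneg hl'
    have h2 := (hl p (by simp)).2
    rw [sy_cons] at h
    have h3 : p.2 = 0 := by linarith
    have h4 : sy l = 0 := by linarith
    rw [hol, ih hl' h4, h3, er_zero, mul_one, ← er_add he, sx_cons]

lemma hol_of_sx_zero {e f : ℂ} (hf : ‖f‖ = 1) : ∀ (l : List (ℝ × ℝ)), Nonneg l → sx l = 0 →
    hol e f l = er f (sy l) := by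
  intro l
  induction l with
  | nil => intro _ _; simp [hol, sy, er_zero]
  | cons p l ih =>
    intro hl h
    have hl' : Nonneg l := fun q hq => hl q (by simp [hq])
    have h1 := sx_nonneg hl'
    have h2 := (hl p (by simp)).1
    rw [sx_cons] at h
    have h3 : p.1 = 0 := by linarith
    have h4 : sx l = 0 := by linarith
    rw [hol, ih hl' h4, h3, er_zero, one_mul, ← er_add hf, sy_cons]

lemma er_neg_nat (e : ℂ) (N : ℕ) : er e (-(N * Real.pi)) = (((-1) ^ N : ℝ) : Quaternion ℝ) := by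
  have h1 : Real.cos (-(N * Real.pi)) = (-1) ^ N := by rw [Real.cos_neg, Real.cos_nat_mul_pi]
  have h2 : Real.sin (-(N * Real.pi)) = 0 := by rw [Real.sin_neg, Real.sin_nat_mul_pi, neg_zero]
  unfold er
  rw [h1, h2, zero_smul, add_zero]

lemma re_coe_mul (r : ℝ) (q : Quaternion ℝ) : ((r : Quaternion ℝ) * q).re = r * q.re := by
  rw [Quaternion.re_mul]; simp

/-- disc inequality, direction `e` -/
theorem dist_disc_e {e f : ℂ} (he : ‖e‖ = 1) (hf : ‖f‖ = 1) (l : List (ℝ × ℝ)) (hl : Nonneg l)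
    (N : ℕ) : Real.arccos ((-1) ^ N * (hol e f l).re) ≤
      ‖(sx l : ℂ) * e + (sy l : ℂ) * f - ((N * Real.pi : ℝ) : ℂ) * e‖ := by
  have e0 : (-1) ^ N * (hol e f l).re = (er e (-(N * Real.pi)) * hol e f l).re := by
    rw [er_neg_nat, re_coe_mul]
  rw [e0]
  rcases eq_or_lt_of_le (sy_nonneg hl) with h | h
  · rw [hol_of_sy_zero he l hl h.symm, ← er_add he, er_re, ← h]
    refine (arccos_cos_le _).trans (le_of_eq ?_)
    have : (sx l : ℂ) * e + ((0 : ℝ) : ℂ) * f - ((N * Real.pi : ℝ) : ℂ) * e =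
        ((-(N * Real.pi) + sx l : ℝ) : ℂ) * e := by push_cast; ring
    rw [this, norm_mul, he, mul_one, Complex.norm_real, Real.norm_eq_abs]
  · refine (strip_e he hf ((sx l - N * Real.pi) / sy l) l (-(N * Real.pi)) hl ?_).trans
      (le_of_eq ?_)
    · field_simp; ring
    · have : (sx l : ℂ) * e + (sy l : ℂ) * f - ((N * Real.pi : ℝ) : ℂ) * e =
          (sy l : ℂ) * ((((sx l - N * Real.pi) / sy l : ℝ) : ℂ) * e + f) := by
        have hne : (sy l : ℂ) ≠ 0 := by exact_mod_cast h.ne'
        push_cast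
        field_simp
        ring
      rw [this, norm_mul, Complex.norm_real, Real.norm_eq_abs, abs_of_pos h]

/-- disc inequality, direction `f` -/
theorem dist_disc_f {e f : ℂ} (he : ‖e‖ = 1) (hf : ‖f‖ = 1) (l : List (ℝ × ℝ)) (hl : Nonneg l)
    (N : ℕ) : Real.arccos ((-1) ^ N * (hol e f l).re) ≤
      ‖(sx l : ℂ) * e + (sy l : ℂ) * f - ((N * Real.pi : ℝ) : ℂ) * f‖ := by
  have e0 : (-1) ^ N * (hol e f l).re = (er f (-(N * Real.pi)) * hol e f l).re := by
    rw [er_neg_nat, re_coe_mul]
  rw [e0]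
  rcases eq_or_lt_of_le (sx_nonneg hl) with h | h
  · rw [hol_of_sx_zero hf l hl h.symm, ← er_add hf, er_re, ← h]
    refine (arccos_cos_le _).trans (le_of_eq ?_)
    have : ((0 : ℝ) : ℂ) * e + (sy l : ℂ) * f - ((N * Real.pi : ℝ) : ℂ) * f =
        ((-(N * Real.pi) + sy l : ℝ) : ℂ) * f := by push_cast; ring
    rw [this, norm_mul, hf, mul_one, Complex.norm_real, Real.norm_eq_abs]
  · refine (strip_f he hf ((sy l - N * Real.pi) / sx l) l (-(N * Real.pi)) hl ?_).trans
      (le_of_eq ?_)
    · field_simp; ring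
    · have : (sx l : ℂ) * e + (sy l : ℂ) * f - ((N * Real.pi : ℝ) : ℂ) * f =
          (sx l : ℂ) * (e + (((sy l - N * Real.pi) / sx l : ℝ) : ℂ) * f) := by
        have hne : (sx l : ℂ) ≠ 0 := by exact_mod_cast h.ne'
        push_cast
        field_simp
        ring
      rw [this, norm_mul, Complex.norm_real, Real.norm_eq_abs, abs_of_pos h]

end Pool.Agent.helper71.CT
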