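import Pool.Agent.helper71.CT.Direct
import Pool.Agent.helper70.Tori.Classification
import Pool.Agent.helper3.FlatTorus.Clifford
import Pool.Agent.helper3.FlatTorus.Transfer

/-! Explicit corollaries of the classification. -/

namespace Pool.Agent.helper71.CT

open Set Filter
open scoped Topology
open Pool.Agent.helper3.FlatTorus (inner2 norm2 Adm Criterion diam_le Immersible IsCliffordLattice
  necessity near_of_diam cliff_immersible)
open Pool.Agent.helper70.Tori (immersible_of_criterion)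

/-- orthonormal frame adapted to a basis -/
lemma frame {a b : E2} (ha : a ≠ 0) (hab : dt a b ≠ 0) :
    ∃ u w : E2, ‖u‖ = 1 ∧ ‖w‖ = 1 ∧ (inner ℝ u w : ℝ) = 0 ∧ a = ‖a‖ • u ∧
      b = ((inner ℝ a b : ℝ) / ‖a‖) • u + (|dt a b| / ‖a‖) • w := by
  have na : 0 < ‖a‖ := norm_pos_iff.2 ha
  have hna := na.ne'
  have hd : 0 < |dt a b| := abs_pos.2 hab
  have hdn := hd.ne'
  have hl := lagrange a b
  have hl' : (inner ℝ a b : ℝ) ^ 2 + |dt a b| ^ 2 = ‖a‖ ^ 2 * ‖b‖ ^ 2 := by rw [sq_abs]; exact hl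
  set p : ℝ := inner ℝ a b with hp
  set D := |dt a b| with hD
  obtain ⟨u, hu⟩ : ∃ u : E2, u = (1 / ‖a‖) • a := ⟨_, rfl⟩
  obtain ⟨w, hw⟩ : ∃ w : E2, w = (-(p / (‖a‖ * D))) • a + (‖a‖ / D) • b := ⟨_, rfl⟩
  have nu : ‖u‖ = 1 := by
    rw [hu, norm_smul, Real.norm_eq_abs, abs_of_pos (by positivity)]; field_simp
  have nw : ‖w‖ = 1 := by
    have : ‖w‖ ^ 2 = 1 := by
      rw [hw, norm_comb, ← hp]
      field_simp
      linear_combination (-1 : ℝ) * hl'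
    exact (pow_eq_one_iff_of_nonneg (norm_nonneg w) two_ne_zero).1 this
  refine ⟨u, w, nu, nw, ?_, ?_, ?_⟩
  · rw [hu, hw, inner_add_right, inner_smul_left, inner_smul_left, inner_smul_right,
      inner_smul_right, real_inner_self_eq_norm_sq, ← hp]
    simp only [conj_trivial]
    field_simp
    ring
  · rw [hu, smul_smul]
    have : ‖a‖ * (1 / ‖a‖) = 1 := by field_simp
    rw [this, one_smul]
  · rw [hu, hw, smul_add, smul_smul, smul_smul, smul_smul]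
    have e1 : p / ‖a‖ * (1 / ‖a‖) = p / ‖a‖ ^ 2 := by field_simp
    have e2 : D / ‖a‖ * -(p / (‖a‖ * D)) = -(p / ‖a‖ ^ 2) := by field_simp
    have e3 : D / ‖a‖ * (‖a‖ / D) = 1 := by field_simp
    rw [e1, e2, e3]; module

/-- covering by discs of radius `π` -/
lemma near_vertex {u w : E2} (hu : ‖u‖ = 1) (hw : ‖w‖ = 1) (huw : (inner ℝ u w : ℝ) = 0)
    {δ b₁ h σ₀ κ₀ : ℝ} (hσδ : 2 * Real.pi * σ₀ = δ) (hsk : σ₀ ^ 2 + κ₀ ^ 2 = 1)
    (h6 : b₁ ^ 2 + h ^ 2 ≤ 2 * Real.pi * (b₁ * σ₀ + h * κ₀)) {s t : ℝ} (hs : 0 ≤ s) (ht : 0 ≤ t)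
    (hst : s + t ≤ 1) :
    ‖s • (δ • u) + t • (b₁ • u + h • w)‖ ≤ Real.pi ∨
    ‖s • (δ • u) + t • (b₁ • u + h • w) - δ • u‖ ≤ Real.pi ∨
    ‖s • (δ • u) + t • (b₁ • u + h • w) - (b₁ • u + h • w)‖ ≤ Real.pi := by
  have hpi := Real.pi_pos
  have e0 : s • (δ • u) + t • (b₁ • u + h • w) = (s * δ + t * b₁) • u + (t * h) • w := by module
  have e1 : s • (δ • u) + t • (b₁ • u + h • w) - δ • u =
      (s * δ + t * b₁ - δ) • u + (t * h) • w := by module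
  have e2 : s • (δ • u) + t • (b₁ • u + h • w) - (b₁ • u + h • w) =
      (s * δ + t * b₁ - b₁) • u + (t * h - h) • w := by module
  rw [e1, e2, e0]
  by_contra hcon
  push Not at hcon
  obtain ⟨c1, c2, c3⟩ := hcon
  have n1 := pow_lt_pow_left₀ c1 hpi.le two_ne_zero
  have n2 := pow_lt_pow_left₀ c2 hpi.le two_ne_zero
  have n3 := pow_lt_pow_left₀ c3 hpi.le two_ne_zero
  rw [norm_comb, hu, hw, huw] at n1 n2 n3
  have m2 := mul_le_mul_of_nonneg_left n2.le hs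
  have m3 := mul_le_mul_of_nonneg_left n3.le ht
  -- a weighted sum
  have hpos : 0 ≤ 1 - s - t := by linarith
  have m1 := mul_le_mul_of_nonneg_left n1.le hpos
  have hsum : (1 - s - t) * ((s * δ + t * b₁) ^ 2 * 1 ^ 2 + 2 * (s * δ + t * b₁) * (t * h) * 0 +
      (t * h) ^ 2 * 1 ^ 2) + s * ((s * δ + t * b₁ - δ) ^ 2 * 1 ^ 2 +
      2 * (s * δ + t * b₁ - δ) * (t * h) * 0 + (t * h) ^ 2 * 1 ^ 2) +
      t * ((s * δ + t * b₁ - b₁) ^ 2 * 1 ^ 2 + 2 * (s * δ + t * b₁ - b₁) * (t * h - h) * 0 +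
      (t * h - h) ^ 2 * 1 ^ 2) =
      s * δ ^ 2 + t * (b₁ ^ 2 + h ^ 2) - (s * δ + t * b₁) ^ 2 - (t * h) ^ 2 := by ring
  have hle : s * δ ^ 2 + t * (b₁ ^ 2 + h ^ 2) - (s * δ + t * b₁) ^ 2 - (t * h) ^ 2 ≤
      Real.pi ^ 2 - (s * δ + t * b₁ - Real.pi * σ₀) ^ 2 - (t * h - Real.pi * κ₀) ^ 2 := by
    have := mul_le_mul_of_nonneg_left h6 ht
    have e : Real.pi ^ 2 - (s * δ + t * b₁ - Real.pi * σ₀) ^ 2 - (t * h - Real.pi * κ₀) ^ 2 =
        s * δ ^ 2 + t * (2 * Real.pi * (b₁ * σ₀ + h * κ₀)) - (s * δ + t * b₁) ^ 2 -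
          (t * h) ^ 2 := by
      rw [← hσδ]
      linear_combination (-(Real.pi ^ 2)) * hsk
    rw [e]; linarith
  have q1 := sq_nonneg (s * δ + t * b₁ - Real.pi * σ₀)
  have q2 := sq_nonneg (t * h - Real.pi * κ₀)
  -- at least one weight is positive, so the sum is strict
  have hstrict : Real.pi ^ 2 < (1 - s - t) * ((s * δ + t * b₁) ^ 2 * 1 ^ 2 +
      2 * (s * δ + t * b₁) * (t * h) * 0 +
      (t * h) ^ 2 * 1 ^ 2) + s * ((s * δ + t * b₁ - δ) ^ 2 * 1 ^ 2 +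
      2 * (s * δ + t * b₁ - δ) * (t * h) * 0 + (t * h) ^ 2 * 1 ^ 2) +
      t * ((s * δ + t * b₁ - b₁) ^ 2 * 1 ^ 2 + 2 * (s * δ + t * b₁ - b₁) * (t * h - h) * 0 +
      (t * h - h) ^ 2 * 1 ^ 2) := by
    rcases eq_or_lt_of_le hs with hs0 | hs0
    · rcases eq_or_lt_of_le ht with ht0 | ht0
      · rw [← hs0, ← ht0] at n1 ⊢
        linarith
      · have := mul_lt_mul_of_pos_left n3 ht0
        linarith
    · have := mul_lt_mul_of_pos_left n2 hs0
      linarith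
  linarith

/-- if the circle condition fails, the diameter is at most `π` -/
lemma diam_le_pi {u w : E2} (hu : ‖u‖ = 1) (hw : ‖w‖ = 1) (huw : (inner ℝ u w : ℝ) = 0)
    {δ b₁ h σ₀ κ₀ : ℝ} (hδ : 0 < δ) (hh : 0 < h) (hσδ : 2 * Real.pi * σ₀ = δ)
    (hsk : σ₀ ^ 2 + κ₀ ^ 2 = 1)
    (h6 : b₁ ^ 2 + h ^ 2 ≤ 2 * Real.pi * (b₁ * σ₀ + h * κ₀)) (Λ : Submodule ℤ E2)
    (hΛ : Λ = Submodule.span ℤ {δ • u, b₁ • u + h • w}) :
    Metric.diam (Set.univ : Set (E2 ⧸ Λ)) ≤ Real.pi := by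
  apply diam_le Λ Real.pi_pos.le
  intro y
  have haΛ : δ • u ∈ Λ := by rw [hΛ]; exact Submodule.subset_span (by simp)
  have hbΛ : b₁ • u + h • w ∈ Λ := by rw [hΛ]; exact Submodule.subset_span (by simp)
  set a := δ • u with ha
  set b := b₁ • u + h • w with hb
  have hdt : dt a b ≠ 0 := by
    have h1 : dt a b = δ * h * dt u w := by
      rw [ha, hb]; unfold dt; simp; ring
    have h2 := lagrange u w
    rw [huw, hu, hw] at h2
    have h3 : dt u w ≠ 0 := by intro h0; rw [h0] at h2; norm_num at h2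
    rw [h1]; positivity
  have hcr := cramer2 hdt y
  set x := dt y b / dt a b
  set z := dt a y / dt a b
  have f1 := Int.floor_le x
  have f2 := Int.lt_floor_add_one x
  have f3 := Int.floor_le z
  have f4 := Int.lt_floor_add_one z
  have hmem : ∀ m n : ℤ, m • a + n • b ∈ Λ := fun m n =>
    Λ.add_mem (Λ.smul_mem _ haΛ) (Λ.smul_mem _ hbΛ)
  have hn : ∀ v v' : E2, ‖v‖ ≤ Real.pi → (v' = v ∨ v' = -v) → ‖v'‖ ≤ Real.pi := by
    rintro v v' hv (h | h)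
    · rw [h]; exact hv
    · rw [h, norm_neg]; exact hv
  have key : ∀ (m n : ℤ) (s t : ℝ), 0 ≤ s → 0 ≤ t → s + t ≤ 1 →
      (y = (m + s) • a + (n + t) • b ∨ y = (m - s) • a + (n - t) • b) →
      ∃ l ∈ Λ, ‖l - y‖ ≤ Real.pi := by
    intro m n s t hs ht hst hy
    have hcc := near_vertex hu hw huw hσδ hsk h6 hs ht hst
    rw [← ha, ← hb] at hcc
    rcases hcc with hc | hc | hc
    · refine ⟨m • a + n • b, hmem m n, ?_⟩
      rw [← Int.cast_smul_eq_zsmul ℝ m, ← Int.cast_smul_eq_zsmul ℝ n]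
      rcases hy with hy | hy
      · refine hn _ _ hc (Or.inr ?_)
        rw [hy]; module
      · refine hn _ _ hc (Or.inl ?_)
        rw [hy]; module
    · rcases hy with hy | hy
      · refine ⟨(m + 1) • a + n • b, hmem _ _, ?_⟩
        rw [← Int.cast_smul_eq_zsmul ℝ (m + 1), ← Int.cast_smul_eq_zsmul ℝ n]
        refine hn _ _ hc (Or.inr ?_)
        rw [hy]; push_cast; module
      · refine ⟨(m - 1) • a + n • b, hmem _ _, ?_⟩
        rw [← Int.cast_smul_eq_zsmul ℝ (m - 1), ← Int.cast_smul_eq_zsmul ℝ n]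
        refine hn _ _ hc (Or.inl ?_)
        rw [hy]; push_cast; module
    · rcases hy with hy | hy
      · refine ⟨m • a + (n + 1) • b, hmem _ _, ?_⟩
        rw [← Int.cast_smul_eq_zsmul ℝ m, ← Int.cast_smul_eq_zsmul ℝ (n + 1)]
        refine hn _ _ hc (Or.inr ?_)
        rw [hy]; push_cast; module
      · refine ⟨m • a + (n - 1) • b, hmem _ _, ?_⟩
        rw [← Int.cast_smul_eq_zsmul ℝ m, ← Int.cast_smul_eq_zsmul ℝ (n - 1)]
        refine hn _ _ hc (Or.inl ?_)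
        rw [hy]; push_cast; module
  rcases le_or_gt (x - ⌊x⌋ + (z - ⌊z⌋)) 1 with hle | hgt
  · refine key ⌊x⌋ ⌊z⌋ (x - ⌊x⌋) (z - ⌊z⌋) (by linarith) (by linarith) hle (Or.inl ?_)
    conv_lhs => rw [hcr]
    congr 2 <;> ring
  · refine key (⌊x⌋ + 1) (⌊z⌋ + 1) (1 - (x - ⌊x⌋)) (1 - (z - ⌊z⌋)) (by linarith) (by linarith)
      (by linarith) (Or.inr ?_)
    conv_lhs => rw [hcr]
    push_cast
    congr 2 <;> ring

/-- the direct criterion for a lattice with a reduced basis -/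
theorem criterion_of_basis {a b : E2} (hab : dt a b ≠ 0) (ha : a ≠ 0) (hδ : ‖a‖ < 2 * Real.pi)
    (h0 : (0:ℝ) ≤ inner ℝ a b) (h1 : 2 * (inner ℝ a b : ℝ) ≤ ‖a‖ ^ 2)
    (hd : Real.pi < Metric.diam (Set.univ : Set (E2 ⧸ Submodule.span ℤ ({a, b} : Set E2))))
    {σ κ : ℝ} (hs : σ = ‖a‖ / (2 * Real.pi)) (hk : κ = Real.sqrt (1 - σ ^ 2))
    (h7 : ∀ N : ℕ, 3 ≤ N → Odd N → -Real.cos (Real.pi / N) <
        κ ^ 2 * Real.cos (|dt a b| / ‖a‖ / (N * κ)) +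
          σ ^ 2 * Real.cos ((inner ℝ a b : ℝ) / ‖a‖ / (N * σ))) :
    Criterion (Submodule.span ℤ {a, b}) := by
  have hpi := Real.pi_pos
  have na : 0 < ‖a‖ := norm_pos_iff.2 ha
  obtain ⟨u, w, hu, hw, huw, ea, eb⟩ := frame ha hab
  have hspan : Submodule.span ℤ ({a, b} : Set E2) = Submodule.span ℤ {‖a‖ • u,
      ((inner ℝ a b : ℝ) / ‖a‖) • u + (|dt a b| / ‖a‖) • w} := by
    rw [← ea, ← eb]
  have hσδ : 2 * Real.pi * σ = ‖a‖ := by rw [hs]; field_simp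
  have hσ0 : 0 < σ := by rw [hs]; positivity
  have hσ1 : σ < 1 := by rw [hs, div_lt_one (by positivity)]; exact hδ
  have hsk : σ ^ 2 + κ ^ 2 = 1 := by
    rw [hk, Real.sq_sqrt (by nlinarith)]; ring
  have hhpos : 0 < |dt a b| / ‖a‖ := div_pos (abs_pos.2 hab) na
  rw [hspan]
  refine criterion_direct hu hw huw na hδ (div_nonneg h0 na.le) ?_ hhpos hs hk ?_
    (fun N h3 hodd _ => h7 N h3 hodd)
  · rw [← mul_div_assoc, div_le_iff₀ na]; nlinarith
  · by_contra hcon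
    push Not at hcon
    have := diam_le_pi hu hw huw na hhpos hσδ hsk hcon _ hspan
    linarith

/-- lattices without vectors of length at most `2 * π / √3` -/
theorem criterion_of_fat (Λ : Submodule ℤ E2) [DiscreteTopology Λ] [IsZLattice ℝ Λ]
    (h : ∀ v ∈ Λ, v ≠ 0 → 2 * Real.pi / Real.sqrt 3 < ‖v‖)
    (hd : Real.pi < Metric.diam (Set.univ : Set (E2 ⧸ Λ))) : Criterion Λ := by
  have hpi := Real.pi_pos
  obtain ⟨a, b, haΛ, hbΛ, ha0, hab, hle, h0, h1, rfl⟩ := exists_reduced Λ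
  rcases le_or_gt (2 * Real.pi) ‖a‖ with hge | hlt
  · exact criterion_thick hle hge h0 h1
  have na : 0 < ‖a‖ := norm_pos_iff.2 ha0
  have hla := h a haΛ ha0
  refine criterion_of_basis hab ha0 hlt h0 h1 hd rfl rfl ?_
  intro N h3 _
  set σ := ‖a‖ / (2 * Real.pi) with hσ
  have hσ0 : 0 < σ := by positivity
  have hσ1 : σ < 1 := by rw [hσ, div_lt_one (by positivity)]; exact hlt
  have hs3 : 0 < Real.sqrt 3 := by positivity
  have hσ3 : 1 / 3 < σ ^ 2 := by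
    have e1 : 1 / Real.sqrt 3 < σ := by
      rw [hσ, lt_div_iff₀ (by positivity)]
      calc 1 / Real.sqrt 3 * (2 * Real.pi) = 2 * Real.pi / Real.sqrt 3 := by ring
        _ < _ := hla
    have e2 : (1 / Real.sqrt 3) ^ 2 < σ ^ 2 := pow_lt_pow_left₀ e1 (by positivity) two_ne_zero
    rwa [div_pow, Real.sq_sqrt (by norm_num), one_pow] at e2
  have hκ2 : Real.sqrt (1 - σ ^ 2) ^ 2 = 1 - σ ^ 2 := Real.sq_sqrt (by nlinarith)
  have hNr : (3:ℝ) ≤ N := by exact_mod_cast h3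
  have hN0 : (0:ℝ) < N := by linarith
  have hc := cos_pi_div_ge h3
  have hb : (inner ℝ a b : ℝ) / ‖a‖ / (N * σ) ≤ Real.pi / N := by
    rw [div_div, div_le_div_iff₀ (by positivity) hN0]
    have : Real.pi * (‖a‖ * (N * σ)) = N * ‖a‖ ^ 2 / 2 := by rw [hσ]; field_simp
    rw [this]
    nlinarith
  have hb0 : 0 ≤ (inner ℝ a b : ℝ) / ‖a‖ / (N * σ) := by positivity
  have hcos : Real.cos (Real.pi / N) ≤ Real.cos ((inner ℝ a b : ℝ) / ‖a‖ / (N * σ)) :=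
    Real.cos_le_cos_of_nonneg_of_le_pi hb0 (div_le_self hpi.le (by linarith)) hb
  have hcos2 := Real.neg_one_le_cos (|dt a b| / ‖a‖ / (N * Real.sqrt (1 - σ ^ 2)))
  rw [hκ2]
  have k1 : -(1 - σ ^ 2) ≤
      (1 - σ ^ 2) * Real.cos (|dt a b| / ‖a‖ / (N * Real.sqrt (1 - σ ^ 2))) := by
    nlinarith
  have k2 : σ ^ 2 * Real.cos (Real.pi / N) ≤
      σ ^ 2 * Real.cos ((inner ℝ a b : ℝ) / ‖a‖ / (N * σ)) :=
    mul_le_mul_of_nonneg_left hcos (sq_nonneg _)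
  set c := Real.cos (Real.pi / N)
  nlinarith

/-- **Explicit classification of the fat lattices.** -/
theorem immersible_fat (Λ : Submodule ℤ E2) [DiscreteTopology Λ] [IsZLattice ℝ Λ]
    (h : ∀ v ∈ Λ, v ≠ 0 → 2 * Real.pi / Real.sqrt 3 < ‖v‖) :
    Immersible Λ ↔ (Real.pi < Metric.diam (Set.univ : Set (E2 ⧸ Λ)) ∨ IsCliffordLattice Λ) := by
  constructor
  · intro hI
    rcases lt_or_ge Real.pi (Metric.diam (Set.univ : Set (E2 ⧸ Λ))) with hlt | hge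
    · exact Or.inl hlt
    · exact Or.inr ((necessity hI).2 (near_of_diam Λ hge))
  · rintro (hd | ⟨a, b, ha, hb, hab, hn, rfl⟩)
    · exact immersible_of_criterion (criterion_of_fat Λ h hd)
    · exact cliff_immersible ha hb hab hn

end Pool.Agent.helper71.CT
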