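import Pool.Agent.helper3.FlatTorus.Criterion

/-! The admissibility condition needs only the numbers `N` with `(N - 1) π ≤ X + Y`. -/

namespace Pool.Agent.helper71.CT

open Pool.Agent.helper3.FlatTorus (Adm)

section
variable {E : Type*} [NormedAddCommGroup E] [InnerProductSpace ℝ E]

/-- Admissibility, checked for the finitely many `N` with `(N - 1) π ≤ X + Y` only. -/
def AdmFin (ε : ℝ) (e f : E) (X Y : ℝ) : Prop :=
  (ε = -1 → Real.pi ≤ ‖X • e + Y • f‖) ∧
  ∀ N : ℕ, 1 ≤ N → (-1 : ℝ) ^ N = -ε → (N - 1) * Real.pi ≤ X + Y →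
    Real.pi < ‖X • e + Y • f - (N * Real.pi) • e‖ ∧
    Real.pi < ‖X • e + Y • f - (N * Real.pi) • f‖ ∧
    (X ≤ N * Real.pi → Y ≤ N * Real.pi →
      -Real.cos (Real.pi / N) < Real.cos (X / N) * Real.cos (Y / N) -
        (inner ℝ e f : ℝ) * (Real.sin (X / N) * Real.sin (Y / N)))

lemma RR_ge {c x y : ℝ} (hc' : c ≤ 1) (hx : 0 ≤ x) (hy : 0 ≤ y)
    (hxy : x + y ≤ Real.pi) :
    Real.cos (x + y) ≤ Real.cos x * Real.cos y - c * (Real.sin x * Real.sin y) := by
  have h1 : 0 ≤ Real.sin x := Real.sin_nonneg_of_nonneg_of_le_pi hx (by linarith)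
  have h2 : 0 ≤ Real.sin y := Real.sin_nonneg_of_nonneg_of_le_pi hy (by linarith)
  rw [Real.cos_add]
  nlinarith [mul_nonneg h1 h2]

theorem adm_iff_fin {ε : ℝ} {e f : E} (he : ‖e‖ = 1) (hf : ‖f‖ = 1) {X Y : ℝ} (hX : 0 < X)
    (hY : 0 < Y) : Adm ε e f X Y ↔ AdmFin ε e f X Y := by
  constructor
  · rintro ⟨h1, h2⟩
    exact ⟨h1, fun N hN hN' _ => h2 N hN hN'⟩
  · rintro ⟨h1, h2⟩
    refine ⟨h1, fun N hN hN' => ?_⟩
    rcases le_or_gt ((N - 1) * Real.pi) (X + Y) with hle | hlt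
    · exact h2 N hN hN' hle
    have hpi := Real.pi_pos
    have hN0 : (0:ℝ) < N := by exact_mod_cast hN
    have hn : ‖X • e + Y • f‖ ≤ X + Y := by
      refine (norm_add_le _ _).trans (le_of_eq ?_)
      rw [norm_smul, norm_smul, he, hf, Real.norm_eq_abs, Real.norm_eq_abs, abs_of_pos hX,
        abs_of_pos hY]
      ring
    have key : ∀ g : E, ‖g‖ = 1 → Real.pi < ‖X • e + Y • f - (N * Real.pi) • g‖ := by
      intro g hg
      have h3 : ‖(N * Real.pi) • g‖ = N * Real.pi := by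
        rw [norm_smul, hg, mul_one, Real.norm_eq_abs, abs_of_pos (by positivity)]
      have h4 := norm_sub_norm_le ((N * Real.pi) • g) (X • e + Y • f)
      rw [h3, norm_sub_rev] at h4
      linarith
    refine ⟨key e he, key f hf, fun _ _ => ?_⟩
    have hc := abs_real_inner_le_norm e f
    rw [he, hf, mul_one, abs_le] at hc
    have hsum : X / N + Y / N < Real.pi - Real.pi / N := by
      rw [← add_div, div_lt_iff₀ hN0, sub_mul, div_mul_cancel₀ _ hN0.ne']
      linarith
    have hpN : 0 < Real.pi / N := by positivity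
    have hx0 : 0 ≤ X / N := by positivity
    have hy0 : 0 ≤ Y / N := by positivity
    have h5 := RR_ge hc.2 hx0 hy0 (by linarith)
    have h6 : Real.cos (Real.pi - Real.pi / N) < Real.cos (X / N + Y / N) :=
      Real.cos_lt_cos_of_nonneg_of_le_pi (by linarith) (by linarith) hsum
    rw [Real.cos_pi_sub] at h6
    linarith

end

end Pool.Agent.helper71.CT
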