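import Mathlib

open MeasureTheory Set intervalIntegral Complex
open scoped Interval Real

namespace Pool.Agent.helper71.CT

/-- bounded measurable data on an interval -/
theorem memLp_of_bdd {Y : ℝ} {g : ℝ → ℂ} {C : ℝ}
    (hm : AEStronglyMeasurable g (volume.restrict (Ioc 0 Y))) (hb : ∀ x ∈ Ioc 0 Y, ‖g x‖ ≤ C) :
    MemLp g 2 (volume.restrict (Ioc 0 Y)) := by
  refine MemLp.of_bound hm C ?_
  filter_upwards [ae_restrict_mem measurableSet_Ioc] with x hx using hb x hx

theorem intervalIntegrable_of_bdd {Y : ℝ} (hY : 0 ≤ Y) {g : ℝ → ℂ} {C : ℝ}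
    (hm : AEStronglyMeasurable g (volume.restrict (Ioc 0 Y))) (hb : ∀ x ∈ Ioc 0 Y, ‖g x‖ ≤ C) :
    IntervalIntegrable g volume 0 Y := by
  rw [intervalIntegrable_iff_integrableOn_Ioc_of_le hY]
  refine Integrable.of_bound hm C ?_
  filter_upwards [ae_restrict_mem measurableSet_Ioc] with x hx using hb x hx

theorem iso_complex {Y : ℝ} (hY : 0 < Y) {g g' : ℝ → ℂ} {C : ℝ}
    (hg : ContinuousOn g (Icc 0 Y))
    (hd : ∀ x ∈ Ioo 0 Y, HasDerivWithinAt g (g' x) (Ioi x) x)
    (hm : AEStronglyMeasurable g' (volume.restrict (Ioc 0 Y)))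
    (hb : ∀ x ∈ Ioc 0 Y, ‖g' x‖ ≤ C) (hper : g Y = g 0) :
    (2 * π / Y) * ∫ x in (0:ℝ)..Y, ((starRingEnd ℂ) (g x) * g' x).im ≤
      ∫ x in (0:ℝ)..Y, ‖g' x‖ ^ 2 := by
  have hI' : IntervalIntegrable g' volume 0 Y := intervalIntegrable_of_bdd hY.le hm hb
  have hgI : IntervalIntegrable g volume 0 Y := by
    apply ContinuousOn.intervalIntegrable
    rwa [uIcc_of_le hY.le]
  set ω : ℝ := 2 * π / Y with hω
  have hω0 : 0 < ω := by positivity
  -- coefficients of g'
  have hcoef : ∀ n : ℤ, fourierCoeffOn hY g' n = (I * ω * n) * fourierCoeffOn hY g n := by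
    intro n
    by_cases hn : n = 0
    · subst hn
      have h0 : ∫ x in (0:ℝ)..Y, g' x = g Y - g 0 := by
        apply integral_eq_sub_of_hasDeriv_right
        · rwa [uIcc_of_le hY.le]
        · intro x hx
          rw [min_eq_left hY.le, max_eq_right hY.le] at hx
          exact hd x hx
        · exact hI'
      rw [fourierCoeffOn_eq_integral]
      simp [h0, hper]
    · have h := fourierCoeffOn_of_hasDeriv_right hY (f := g) (f' := g') hn
        (by rwa [uIcc_of_le hY.le])
        (by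
          intro x hx
          rw [min_eq_left hY.le, max_eq_right hY.le] at hx
          exact hd x hx) hI'
      rw [hper] at h
      have hn' : (n : ℂ) ≠ 0 := by exact_mod_cast hn
      have hY' : (Y : ℂ) ≠ 0 := by exact_mod_cast hY.ne'
      have hpi : (π : ℂ) ≠ 0 := by exact_mod_cast Real.pi_ne_zero
      rw [h, hω]
      push_cast
      field_simp
      ring
  -- the auxiliary function
  set k : ℝ → ℂ := fun x => g' x - (I * (ω / 2 : ℝ)) * g x with hk
  have hgb : ∃ D, ∀ x ∈ Icc 0 Y, ‖g x‖ ≤ D := isCompact_Icc.exists_bound_of_continuousOn hg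
  obtain ⟨D, hD⟩ := hgb
  have hgm : AEStronglyMeasurable g (volume.restrict (Ioc 0 Y)) :=
    (hg.mono Ioc_subset_Icc_self).aestronglyMeasurable measurableSet_Ioc
  have hkm : AEStronglyMeasurable k (volume.restrict (Ioc 0 Y)) :=
    hm.sub (hgm.const_mul _)
  have hkb : ∀ x ∈ Ioc 0 Y, ‖k x‖ ≤ C + ω / 2 * D := by
    intro x hx
    have h1 := hb x hx
    have h2 := hD x (Ioc_subset_Icc_self hx)
    calc ‖k x‖ ≤ ‖g' x‖ + ‖(I * (ω / 2 : ℝ)) * g x‖ := norm_sub_le _ _
      _ = ‖g' x‖ + ω / 2 * ‖g x‖ := by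
          rw [norm_mul, norm_mul, Complex.norm_I, one_mul, Complex.norm_real, Real.norm_eq_abs,
            abs_of_pos (by positivity)]
      _ ≤ _ := by gcongr
  have hkcoef : ∀ n : ℤ, fourierCoeffOn hY k n = (I * ω * (n - 1 / 2)) * fourierCoeffOn hY g n := by
    intro n
    have e1 : fourierCoeffOn hY k n = fourierCoeffOn hY g' n -
        (I * (ω / 2 : ℝ)) * fourierCoeffOn hY g n := by
      simp only [fourierCoeffOn_eq_integral, hk]
      have hc : Continuous fun x : ℝ => (fourier (-n) (x : AddCircle (Y - 0)) : ℂ) :=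
        (map_continuous (fourier (-n))).comp (AddCircle.continuous_mk' _)
      have i1 : IntervalIntegrable (fun x : ℝ => (fourier (-n) (x : AddCircle (Y - 0)) : ℂ) • g' x)
          volume 0 Y := by
        simpa [smul_eq_mul] using hI'.continuousOn_mul hc.continuousOn
      have i2 : IntervalIntegrable (fun x : ℝ => (fourier (-n) (x : AddCircle (Y - 0)) : ℂ) • g x)
          volume 0 Y := by
        simpa [smul_eq_mul] using hgI.continuousOn_mul hc.continuousOn
      have e2 : ∀ x : ℝ, (fourier (-n) (x : AddCircle (Y - 0)) : ℂ) •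
          (g' x - (I * (ω / 2 : ℝ)) * g x) =
          (fourier (-n) (x : AddCircle (Y - 0)) : ℂ) • g' x -
          (I * (ω / 2 : ℝ)) * ((fourier (-n) (x : AddCircle (Y - 0)) : ℂ) • g x) := by
        intro x; simp only [smul_eq_mul]; ring
      simp_rw [e2]
      rw [integral_sub i1 (i2.const_mul _), intervalIntegral.integral_const_mul, smul_sub]
      congr 1
      simp only [real_smul]
      ring
    rw [e1, hcoef]
    push_cast
    ring
  have P1 := hasSum_sq_fourierCoeffOn hY (memLp_of_bdd hkm hkb)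
  have P2 := hasSum_sq_fourierCoeffOn hY (memLp_of_bdd (C := D) hgm
    (fun x hx => hD x (Ioc_subset_Icc_self hx)))
  have hle : (ω ^ 2 / 4) * ((Y - 0)⁻¹ • ∫ x in (0:ℝ)..Y, ‖g x‖ ^ 2) ≤
      (Y - 0)⁻¹ • ∫ x in (0:ℝ)..Y, ‖k x‖ ^ 2 := by
    refine hasSum_le ?_ (P2.mul_left (ω ^ 2 / 4)) P1
    intro n
    rw [hkcoef n, norm_mul, mul_pow]
    have : ω ^ 2 / 4 ≤ ‖I * (ω:ℂ) * ((n:ℂ) - 1 / 2)‖ ^ 2 := by
      rw [norm_mul, norm_mul, Complex.norm_I, one_mul, Complex.norm_real, Real.norm_eq_abs,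
        abs_of_pos hω0]
      have e : ((n:ℂ) - 1 / 2) = (((n:ℝ) - 1 / 2 : ℝ) : ℂ) := by push_cast; ring
      rw [e, Complex.norm_real, Real.norm_eq_abs, mul_pow, sq_abs]
      have h3 : (1:ℝ) / 4 ≤ ((n:ℝ) - 1 / 2) ^ 2 := by
        have : (0:ℝ) ≤ (n:ℝ) * ((n:ℝ) - 1) := by
          rcases le_or_gt n 0 with h | h
          · have h1 : (n:ℝ) ≤ 0 := by exact_mod_cast h
            nlinarith
          · have h1 : (1:ℝ) ≤ (n:ℝ) := by exact_mod_cast h
            nlinarith
        nlinarith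
      nlinarith [sq_nonneg ω]
    gcongr
  have hle2 : (ω ^ 2 / 4) * (∫ x in (0:ℝ)..Y, ‖g x‖ ^ 2) ≤ ∫ x in (0:ℝ)..Y, ‖k x‖ ^ 2 := by
    simp only [sub_zero, smul_eq_mul] at hle
    have : (ω ^ 2 / 4) * (∫ x in (0:ℝ)..Y, ‖g x‖ ^ 2) * Y⁻¹ ≤ (∫ x in (0:ℝ)..Y, ‖k x‖ ^ 2) * Y⁻¹ := by
      linarith
    exact le_of_mul_le_mul_right this (by positivity)
  -- expand
  have hexp : ∀ x, ‖k x‖ ^ 2 = ‖g' x‖ ^ 2 + (ω ^ 2 / 4) * ‖g x‖ ^ 2 -
      ω * ((starRingEnd ℂ) (g x) * g' x).im := by
    intro x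
    rw [hk]
    simp only [← Complex.normSq_eq_norm_sq, Complex.normSq_apply, Complex.sub_re, Complex.sub_im,
      Complex.mul_re, Complex.mul_im, Complex.I_re, Complex.I_im, Complex.ofReal_re,
      Complex.ofReal_im, Complex.conj_re, Complex.conj_im]
    ring
  have I1 : IntervalIntegrable (fun x => ‖g' x‖ ^ 2) volume 0 Y := by
    rw [intervalIntegrable_iff_integrableOn_Ioc_of_le hY.le]
    exact (memLp_of_bdd hm hb).integrable_norm_pow (by norm_num)
  have I2 : IntervalIntegrable (fun x => ‖g x‖ ^ 2) volume 0 Y := by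
    rw [intervalIntegrable_iff_integrableOn_Ioc_of_le hY.le]
    exact (memLp_of_bdd (C := D) hgm
      (fun x hx => hD x (Ioc_subset_Icc_self hx))).integrable_norm_pow (by norm_num)
  have I3 : IntervalIntegrable (fun x => ((starRingEnd ℂ) (g x) * g' x).im) volume 0 Y := by
    have : IntervalIntegrable (fun x => (starRingEnd ℂ) (g x) * g' x) volume 0 Y := by
      apply hI'.continuousOn_mul
      rw [uIcc_of_le hY.le]
      exact Complex.continuous_conj.comp_continuousOn hg
    rw [intervalIntegrable_iff] at this ⊢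
    exact this.im
  rw [integral_congr (fun x _ => hexp x), integral_sub (I1.add (I2.const_mul _)) (I3.const_mul _),
    integral_add I1 (I2.const_mul _), intervalIntegral.integral_const_mul,
    intervalIntegral.integral_const_mul] at hle2
  linarith

end Pool.Agent.helper71.CT
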