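import Pool.Agent.helper71.CT.Fourier

open MeasureTheory Set intervalIntegral Quaternion
open scoped Interval Real Quaternion

namespace Pool.Agent.helper71.CT

/-- the complex linear functionals for the complex structure given by right multiplication by `E` -/
noncomputable def LL (E : ℍ[ℝ]) (c : ℍ[ℝ] →ₗ[ℝ] ℝ) : ℍ[ℝ] →L[ℝ] ℂ :=
  LinearMap.toContinuousLinearMap
    { toFun := fun q => ⟨c q, - c (q * E)⟩
      map_add' := by intro x y; apply Complex.ext <;> simp [add_mul]; ring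
      map_smul' := by intro r x; apply Complex.ext <;> simp }

theorem LL_apply (E : ℍ[ℝ]) (c : ℍ[ℝ] →ₗ[ℝ] ℝ) (q : ℍ[ℝ]) : LL E c q = ⟨c q, - c (q * E)⟩ := rfl

/-- coordinates -/
noncomputable def co (i : Fin 4) : ℍ[ℝ] →ₗ[ℝ] ℝ :=
  match i with
  | 0 => { toFun := fun q => q.re, map_add' := by intros; simp, map_smul' := by intros; simp }
  | 1 => { toFun := fun q => q.imI, map_add' := by intros; simp, map_smul' := by intros; simp }
  | 2 => { toFun := fun q => q.imJ, map_add' := by intros; simp, map_smul' := by intros; simp }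
  | 3 => { toFun := fun q => q.imK, map_add' := by intros; simp, map_smul' := by intros; simp }

theorem co0 (q : ℍ[ℝ]) : co 0 q = q.re := rfl
theorem co1 (q : ℍ[ℝ]) : co 1 q = q.imI := rfl
theorem co2 (q : ℍ[ℝ]) : co 2 q = q.imJ := rfl
theorem co3 (q : ℍ[ℝ]) : co 3 q = q.imK := rfl

theorem sum_norm (E q : ℍ[ℝ]) (hE : normSq E = 1) :
    ∑ i : Fin 4, ‖LL E (co i) q‖ ^ 2 = 2 * normSq q := by
  have : normSq (q * E) = normSq q := by rw [map_mul, hE, mul_one]
  rw [Quaternion.normSq_def', Quaternion.normSq_def'] at this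
  simp only [← Complex.normSq_eq_norm_sq, Fin.sum_univ_four, LL_apply, Complex.normSq_apply,
    co0, co1, co2, co3]
  rw [Quaternion.normSq_def']
  linarith

theorem sum_im (E q r : ℍ[ℝ]) (sE : star E = -E) :
    ∑ i : Fin 4, ((starRingEnd ℂ) (LL E (co i) q) * LL E (co i) r).im =
      2 * (star (q * E) * r).re := by
  have hr : E.re = 0 := by
    have := congrArg QuaternionAlgebra.re sE
    simp at this; linarith
  simp only [Fin.sum_univ_four, LL_apply, Complex.mul_im, Complex.conj_re, Complex.conj_im,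
    co0, co1, co2, co3, Quaternion.re_mul, Quaternion.imI_mul, Quaternion.imJ_mul,
    Quaternion.imK_mul, Quaternion.re_star, Quaternion.imI_star, Quaternion.imJ_star,
    Quaternion.imK_star, hr]
  ring

/-- the rotated curve -/
noncomputable def rot (E : ℍ[ℝ]) (c : ℝ → ℍ[ℝ]) (φ : ℝ → ℝ) (y : ℝ) : ℍ[ℝ] :=
  c y * ((Real.cos (φ y)) • (1 : ℍ[ℝ]) - (Real.sin (φ y)) • E)

noncomputable def drot (E E' : ℍ[ℝ]) (c : ℝ → ℍ[ℝ]) (φ : ℝ → ℝ) (k : ℝ) (y : ℝ) : ℍ[ℝ] :=
  c y * (E' * ((Real.cos (φ y)) • (1 : ℍ[ℝ]) - (Real.sin (φ y)) • E) +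
    k • ((Real.sin (φ y)) • (1 : ℍ[ℝ]) + (Real.cos (φ y)) • E))

theorem hasDerivAt_rot {E E' : ℍ[ℝ]} (EE : E * E = -1) {c : ℝ → ℍ[ℝ]} {a φ : ℝ → ℝ} {k : ℝ} {y : ℝ}
    (hc : HasDerivAt c (c y * (a y • E + E')) y) (hφ : HasDerivAt φ (a y - k) y) :
    HasDerivAt (rot E c φ) (drot E E' c φ k y) y := by
  have h1 : HasDerivAt (fun y => (Real.cos (φ y)) • (1 : ℍ[ℝ]))
      ((-Real.sin (φ y) * (a y - k) : ℝ) • (1 : ℍ[ℝ])) y := by
    have := (Real.hasDerivAt_cos (φ y)).comp y hφ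
    exact this.smul_const (1 : ℍ[ℝ])
  have h2 : HasDerivAt (fun y => (Real.sin (φ y)) • E)
      ((Real.cos (φ y) * (a y - k) : ℝ) • E) y := by
    have := (Real.hasDerivAt_sin (φ y)).comp y hφ
    exact this.smul_const E
  have h3 := hc.mul (h1.sub h2)
  unfold rot drot
  convert! h3 using 1
  simp only [Pi.sub_apply]
  set C := Real.cos (φ y)
  set S := Real.sin (φ y)
  simp only [mul_assoc, mul_add, mul_sub, add_mul, smul_mul_assoc, mul_smul_comm, smul_add,
    smul_sub, mul_one, EE, mul_neg, smul_neg, smul_smul, sub_smul, neg_smul, neg_mul]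
  module

theorem re_zero_of_star {E : ℍ[ℝ]} (sE : star E = -E) : E.re = 0 := by
  have := congrArg QuaternionAlgebra.re sE
  simp at this; linarith

theorem normSq_drot {E E' : ℍ[ℝ]} (nE : normSq E = 1) (sE : star E = -E)
    (nE' : normSq E' = 1) (sE' : star E' = -E') (hEE : (E * E').re = 0)
    {c : ℝ → ℍ[ℝ]} {φ : ℝ → ℝ} {k : ℝ} {y : ℝ} (hc : normSq (c y) = 1) :
    normSq (drot E E' c φ k y) = 1 + k ^ 2 := by
  have hr : E.re = 0 := re_zero_of_star sE
  have hr' : E'.re = 0 := re_zero_of_star sE'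
  unfold drot
  rw [map_mul, hc, one_mul]
  have cs := Real.sin_sq_add_cos_sq (φ y)
  set C := Real.cos (φ y)
  set S := Real.sin (φ y)
  rw [Quaternion.normSq_def'] at nE nE' ⊢
  simp only [Quaternion.re_add, Quaternion.re_mul, Quaternion.re_sub, Quaternion.re_one,
    Quaternion.re_smul, Quaternion.imI_add, Quaternion.imI_mul, Quaternion.imI_sub,
    Quaternion.imI_one, Quaternion.imI_smul, Quaternion.imJ_add, Quaternion.imJ_mul,
    Quaternion.imJ_sub, Quaternion.imJ_one, Quaternion.imJ_smul, Quaternion.imK_add,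
    Quaternion.imK_mul, Quaternion.imK_sub, Quaternion.imK_one, Quaternion.imK_smul,
    smul_eq_mul, hr, hr'] at *
  have h0 : E.imI * E'.imI + E.imJ * E'.imJ + E.imK * E'.imK = 0 := by linarith
  have n1 : E.imI ^ 2 + E.imJ ^ 2 + E.imK ^ 2 = 1 := by linarith
  have n2 : E'.imI ^ 2 + E'.imJ ^ 2 + E'.imK ^ 2 = 1 := by linarith
  linear_combination (C^2+S^2*(E.imI ^ 2 + E.imJ ^ 2 + E.imK ^ 2))*n2 + S^2*n1 + cs +
    k^2*(C^2*n1+cs) + 2*k*(C^2+S^2)*h0

theorem re_rot_drot {E E' : ℍ[ℝ]} (nE : normSq E = 1) (sE : star E = -E)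
    (sE' : star E' = -E') (hEE : (E * E').re = 0)
    {c : ℝ → ℍ[ℝ]} {φ : ℝ → ℝ} {k : ℝ} {y : ℝ} (hc : normSq (c y) = 1) :
    (star (rot E c φ y * E) * drot E E' c φ k y).re = k := by
  have hr : E.re = 0 := re_zero_of_star sE
  have hr' : E'.re = 0 := re_zero_of_star sE'
  unfold drot rot
  have e : ∀ u v w : ℍ[ℝ], star (u * v * E) * (u * w) = star (v * E) * (star u * u) * w := by
    intro u v w; simp [mul_assoc]
  rw [e, Quaternion.star_mul_self, hc]
  have cs := Real.sin_sq_add_cos_sq (φ y)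
  set C := Real.cos (φ y)
  set S := Real.sin (φ y)
  rw [Quaternion.normSq_def'] at nE
  simp only [Quaternion.coe_one, mul_one, Quaternion.re_star, Quaternion.imI_star,
    Quaternion.imJ_star, Quaternion.imK_star,
    Quaternion.re_add, Quaternion.re_mul, Quaternion.re_sub, Quaternion.re_one,
    Quaternion.re_smul, Quaternion.imI_add, Quaternion.imI_mul, Quaternion.imI_sub,
    Quaternion.imI_one, Quaternion.imI_smul, Quaternion.imJ_add, Quaternion.imJ_mul,
    Quaternion.imJ_sub, Quaternion.imJ_one, Quaternion.imJ_smul, Quaternion.imK_add,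
    Quaternion.imK_mul, Quaternion.imK_sub, Quaternion.imK_one, Quaternion.imK_smul,
    smul_eq_mul, hr, hr'] at *
  have h0 : E.imI * E'.imI + E.imJ * E'.imJ + E.imK * E'.imK = 0 := by linarith
  have n1 : E.imI ^ 2 + E.imJ ^ 2 + E.imK ^ 2 = 1 := by linarith
  linear_combination k*((S^2+C^2)*n1+cs)+
    (S^2*(E.imI ^ 2 + E.imJ ^ 2 + E.imK ^ 2)+C^2)*h0

theorem continuous_rot {E : ℍ[ℝ]} {c : ℝ → ℍ[ℝ]} {φ : ℝ → ℝ} (hc : Continuous c)
    (hφ : Continuous φ) : Continuous (rot E c φ) := by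
  unfold rot
  fun_prop

theorem continuous_drot {E E' : ℍ[ℝ]} {c : ℝ → ℍ[ℝ]} {φ : ℝ → ℝ} {k : ℝ} (hc : Continuous c)
    (hφ : Continuous φ) : Continuous (drot E E' c φ k) := by
  unfold drot
  fun_prop

/-- Isoperimetric inequality for a closed path in the unit quaternions made of two pieces. -/
theorem iso_path {E E' : ℍ[ℝ]} (nE : normSq E = 1) (sE : star E = -E)
    (nE' : normSq E' = 1) (sE' : star E' = -E') (hEE : (E * E').re = 0)
    {c₁ c₂ : ℝ → ℍ[ℝ]} {a₁ a₂ X₁ X₂ : ℝ → ℝ}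
    (hc₁ : ∀ y, HasDerivAt c₁ (c₁ y * (a₁ y • E + E')) y)
    (hc₂ : ∀ y, HasDerivAt c₂ (c₂ y * (a₂ y • E + E')) y)
    (hX₁ : ∀ y, HasDerivAt X₁ (a₁ y) y) (hX₂ : ∀ y, HasDerivAt X₂ (a₂ y) y)
    (n₁ : ∀ y, normSq (c₁ y) = 1) (n₂ : ∀ y, normSq (c₂ y) = 1)
    {Y₁ Y₂ : ℝ} (h1 : 0 ≤ Y₁) (h2 : 0 ≤ Y₂) (hY : 0 < Y₁ + Y₂)
    (e₁ : c₁ 0 = c₂ Y₂) (e₂ : c₁ Y₁ = c₂ 0) :
    2 * π * ((X₁ Y₁ - X₁ 0) + (X₂ Y₂ - X₂ 0)) ≤
      ((X₁ Y₁ - X₁ 0) + (X₂ Y₂ - X₂ 0)) ^ 2 + (Y₁ + Y₂) ^ 2 := by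
  have EE : E * E = -1 := by
    have h := Quaternion.star_mul_self E
    rw [sE, nE, neg_mul, Quaternion.coe_one] at h
    rw [← neg_eq_iff_eq_neg]; exact h
  set x : ℝ := (X₁ Y₁ - X₁ 0) + (X₂ Y₂ - X₂ 0) with hx
  set Y : ℝ := Y₁ + Y₂ with hYdef
  set φ₁ : ℝ → ℝ := fun y => X₁ y - X₁ 0 - x / Y * y with hφ₁
  set φ₂ : ℝ → ℝ := fun y => (X₁ Y₁ - X₁ 0) + (X₂ y - X₂ 0) - x / Y * (y + Y₁) with hφ₂
  have dφ₁ : ∀ y, HasDerivAt φ₁ (a₁ y - x / Y) y := by
    intro y
    have := ((hX₁ y).sub_const (X₁ 0)).sub ((hasDerivAt_id y).const_mul (x / Y))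
    rw [mul_one] at this
    exact this
  have dφ₂ : ∀ y, HasDerivAt φ₂ (a₂ y - x / Y) y := by
    intro y
    have := (((hX₂ y).sub_const (X₂ 0)).const_add (X₁ Y₁ - X₁ 0)).sub
      (((hasDerivAt_id y).add_const Y₁).const_mul (x / Y))
    rw [mul_one] at this
    exact this
  have cφ₁ : Continuous φ₁ := continuous_iff_continuousAt.2 fun y => (dφ₁ y).continuousAt
  have cφ₂ : Continuous φ₂ := continuous_iff_continuousAt.2 fun y => (dφ₂ y).continuousAt
  have cc₁ : Continuous c₁ := continuous_iff_continuousAt.2 fun y => (hc₁ y).continuousAt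
  have cc₂ : Continuous c₂ := continuous_iff_continuousAt.2 fun y => (hc₂ y).continuousAt
  set H₁ := rot E c₁ φ₁ with hH₁
  set H₂ := rot E c₂ φ₂ with hH₂
  set D₁ := drot E E' c₁ φ₁ (x / Y) with hD₁
  set D₂ := drot E E' c₂ φ₂ (x / Y) with hD₂
  set h : ℝ → ℍ[ℝ] := fun y => if Y₁ ≤ y then H₂ (y - Y₁) else H₁ y with hh
  set h' : ℝ → ℍ[ℝ] := fun y => if Y₁ ≤ y then D₂ (y - Y₁) else D₁ y with hh'
  have hcont : Continuous h := by
    apply Continuous.if_le
    · exact (continuous_rot cc₂ cφ₂).comp (continuous_id.sub continuous_const)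
    · exact continuous_rot cc₁ cφ₁
    · exact continuous_const
    · exact continuous_id
    · intro y hy
      subst hy
      simp only [hH₁, hH₂, rot, hφ₁, hφ₂, sub_self, e₂, zero_add, add_zero]
  have hderiv : ∀ y, HasDerivWithinAt h (h' y) (Ioi y) y := by
    intro y
    by_cases hy : Y₁ ≤ y
    · have d : HasDerivAt (fun y => H₂ (y - Y₁)) (D₂ (y - Y₁)) y := by
        have := (hasDerivAt_rot EE (hc₂ (y - Y₁)) (dφ₂ (y - Y₁))).scomp y
          ((hasDerivAt_id y).sub_const Y₁)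
        simpa [Function.comp_def] using this
      have e : h' y = D₂ (y - Y₁) := by simp [hh', hy]
      rw [e]
      refine d.hasDerivWithinAt.congr ?_ ?_
      · intro z hz
        have : Y₁ ≤ z := hy.trans (le_of_lt hz)
        simp [hh, this]
      · simp [hh, hy]
    · push Not at hy
      have d : HasDerivAt H₁ (D₁ y) y := hasDerivAt_rot EE (hc₁ y) (dφ₁ y)
      have e : h' y = D₁ y := by simp [hh', not_le.2 hy]
      rw [e]
      refine (d.congr_of_eventuallyEq ?_).hasDerivWithinAt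
      filter_upwards [Iio_mem_nhds hy] with z hz
      have hz' : ¬ Y₁ ≤ z := not_le.2 hz
      simp only [hh, hz', if_false]
  have hmeas : ∀ i : Fin 4, Measurable (fun y => LL E (co i) (h' y)) := by
    intro i
    have e : (fun y => LL E (co i) (h' y)) =
        fun y => if Y₁ ≤ y then LL E (co i) (D₂ (y - Y₁)) else LL E (co i) (D₁ y) := by
      funext y
      simp only [hh']
      split_ifs <;> rfl
    rw [e]
    apply Measurable.ite measurableSet_Ici
    · exact ((LL E (co i)).continuous.comp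
        ((continuous_drot cc₂ cφ₂).comp (continuous_id.sub continuous_const))).measurable
    · exact ((LL E (co i)).continuous.comp (continuous_drot cc₁ cφ₁)).measurable
  have hnorm : ∀ y, normSq (h' y) = 1 + (x / Y) ^ 2 := by
    intro y
    simp only [hh']
    split_ifs
    · exact normSq_drot nE sE nE' sE' hEE (n₂ _)
    · exact normSq_drot nE sE nE' sE' hEE (n₁ _)
  have hre : ∀ y, (star (h y * E) * h' y).re = x / Y := by
    intro y
    simp only [hh, hh']
    split_ifs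
    · exact re_rot_drot nE sE sE' hEE (n₂ _)
    · exact re_rot_drot nE sE sE' hEE (n₁ _)
  have hclosed : h Y = h 0 := by
    have a1 : h Y = c₁ 0 := by
      have : Y₁ ≤ Y := by linarith
      simp only [hh, this, if_true, hH₂, rot]
      have e3 : Y - Y₁ = Y₂ := by rw [hYdef]; ring
      rw [e3]
      have e4 : φ₂ Y₂ = 0 := by
        simp only [hφ₂]
        have : x / Y * (Y₂ + Y₁) = x := by
          rw [add_comm Y₂ Y₁, ← hYdef]; field_simp
        rw [this, ← hx]; ring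
      rw [e4, e₁]; simp
    have a2 : h 0 = c₁ 0 := by
      by_cases hy : Y₁ ≤ 0
      · have : Y₁ = 0 := le_antisymm hy h1
        simp only [hh, hy, if_true, hH₂, rot, this, sub_zero]
        have e4 : φ₂ 0 = 0 := by simp [hφ₂, this]
        rw [e4, ← e₂, this]; simp
      · simp only [hh, hy, if_false, hH₁, rot]
        have e4 : φ₁ 0 = 0 := by simp [hφ₁]
        rw [e4]; simp
    rw [a1, a2]
  -- apply the complex inequality to the four functionals
  have key : ∀ i : Fin 4, (2 * π / Y) *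
      (∫ y in (0:ℝ)..Y, ((starRingEnd ℂ) (LL E (co i) (h y)) * LL E (co i) (h' y)).im) ≤
      ∫ y in (0:ℝ)..Y, ‖LL E (co i) (h' y)‖ ^ 2 := by
    intro i
    have hb : ∀ y ∈ Ioc 0 Y, ‖LL E (co i) (h' y)‖ ≤ ‖LL E (co i)‖ * Real.sqrt (1 + (x / Y) ^ 2) := by
      intro y _
      refine (ContinuousLinearMap.le_opNorm _ _).trans ?_
      gcongr
      rw [← hnorm y, Quaternion.normSq_eq_norm_mul_self, Real.sqrt_mul_self (norm_nonneg _)]
    refine iso_complex (C := ‖LL E (co i)‖ * Real.sqrt (1 + (x / Y) ^ 2)) hY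
      (g := fun y => LL E (co i) (h y)) (g' := fun y => LL E (co i) (h' y)) ?_ ?_ ?_ hb ?_
    · exact ((LL E (co i)).continuous.comp hcont).continuousOn
    · intro y _
      exact ((LL E (co i)).hasFDerivAt.comp_hasDerivWithinAt y (hderiv y))
    · exact (hmeas i).aestronglyMeasurable
    · simp only [hclosed]
  have hint1 : ∀ i : Fin 4, IntervalIntegrable (fun y =>
      ((starRingEnd ℂ) (LL E (co i) (h y)) * LL E (co i) (h' y)).im) volume 0 Y := by
    intro i
    have hb : ∀ y ∈ Ioc 0 Y, ‖LL E (co i) (h' y)‖ ≤ ‖LL E (co i)‖ * Real.sqrt (1 + (x / Y) ^ 2) := by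
      intro y _
      refine (ContinuousLinearMap.le_opNorm _ _).trans ?_
      gcongr
      rw [← hnorm y, Quaternion.normSq_eq_norm_mul_self, Real.sqrt_mul_self (norm_nonneg _)]
    have hI := intervalIntegrable_of_bdd hY.le
      (hmeas i).aestronglyMeasurable hb
    have hI2 : IntervalIntegrable (fun y => (starRingEnd ℂ) (LL E (co i) (h y)) * LL E (co i) (h' y))
        volume 0 Y := by
      apply hI.continuousOn_mul
      exact (Complex.continuous_conj.comp ((LL E (co i)).continuous.comp hcont)).continuousOn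
    rw [intervalIntegrable_iff] at hI2 ⊢
    exact hI2.im
  have hint2 : ∀ i : Fin 4, IntervalIntegrable (fun y => ‖LL E (co i) (h' y)‖ ^ 2) volume 0 Y := by
    intro i
    have hb : ∀ y ∈ Ioc 0 Y, ‖LL E (co i) (h' y)‖ ≤ ‖LL E (co i)‖ * Real.sqrt (1 + (x / Y) ^ 2) := by
      intro y _
      refine (ContinuousLinearMap.le_opNorm _ _).trans ?_
      gcongr
      rw [← hnorm y, Quaternion.normSq_eq_norm_mul_self, Real.sqrt_mul_self (norm_nonneg _)]
    rw [intervalIntegrable_iff_integrableOn_Ioc_of_le hY.le]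
    exact (memLp_of_bdd (hmeas i).aestronglyMeasurable
      hb).integrable_norm_pow (by norm_num)
  have hsum := Finset.sum_le_sum (fun (i : Fin 4) (_ : i ∈ Finset.univ) => key i)
  rw [← Finset.mul_sum, ← intervalIntegral.integral_finsetSum (fun i _ => hint1 i),
    ← intervalIntegral.integral_finsetSum (fun i _ => hint2 i)] at hsum
  simp only [sum_im E _ _ sE, sum_norm E _ nE, hre, hnorm] at hsum
  rw [intervalIntegral.integral_const, intervalIntegral.integral_const] at hsum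
  simp only [sub_zero, smul_eq_mul] at hsum
  have hY0 : Y ≠ 0 := hY.ne'
  have e5 : 2 * π / Y * (Y * (2 * (x / Y))) = (2 * π * x) * (2 / Y) := by field_simp
  have e6 : Y * (2 * (1 + (x / Y) ^ 2)) = (x ^ 2 + Y ^ 2) * (2 / Y) := by field_simp; ring
  rw [e5, e6] at hsum
  exact le_of_mul_le_mul_right hsum (by positivity)

end Pool.Agent.helper71.CT
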