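import Pool.Agent.helper3.FlatTorus.Clifford

/-! Reduced bases of planar lattices. -/

namespace Pool.Agent.helper71.CT

open Set
open Pool.Agent.helper3.FlatTorus (inner2 norm2)

/-- the Euclidean plane -/
abbrev E2 : Type := EuclideanSpace ℝ (Fin 2)

/-- determinant -/
def dt (u v : E2) : ℝ := u 0 * v 1 - u 1 * v 0

lemma lagrange (u v : E2) : (inner ℝ u v : ℝ) ^ 2 + dt u v ^ 2 = ‖u‖ ^ 2 * ‖v‖ ^ 2 := by
  rw [inner2, norm2, norm2]; unfold dt; ring

lemma norm_comb (u v : E2) (x y : ℝ) :
    ‖x • u + y • v‖ ^ 2 = x ^ 2 * ‖u‖ ^ 2 + 2 * x * y * inner ℝ u v + y ^ 2 * ‖v‖ ^ 2 := by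
  rw [norm2, norm2, norm2, inner2]; simp; ring

lemma cramer2 {u v : E2} (h : dt u v ≠ 0) (w : E2) :
    w = (dt w v / dt u v) • u + (dt u w / dt u v) • v := by
  ext i
  fin_cases i
  · simp; field_simp; unfold dt; ring
  · simp; field_simp; unfold dt; ring

lemma exists_min (Λ : Submodule ℤ E2) [DiscreteTopology Λ] {S : Set E2} (hS : S ⊆ Λ)
    (hne : S.Nonempty) : ∃ v ∈ S, ∀ w ∈ S, ‖v‖ ≤ ‖w‖ := by
  obtain ⟨w0, hw0⟩ := hne
  have hfin : (S ∩ Metric.closedBall 0 ‖w0‖).Finite := by
    have hcl : IsClosed (Λ : Set E2) := by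
      have : IsClosed (Λ.toAddSubgroup : Set E2) := AddSubgroup.isClosed_of_discrete
      exact this
    have h1 : (Metric.closedBall (0 : E2) ‖w0‖ ∩ (Λ : Set E2)).Finite :=
      Metric.finite_isBounded_inter_isClosed DiscreteTopology.isDiscrete
        Metric.isBounded_closedBall hcl
    exact h1.subset (fun x hx => ⟨hx.2, hS hx.1⟩)
  obtain ⟨v, hv, hmin⟩ := Set.exists_min_image _ (fun x : E2 => ‖x‖) hfin
    ⟨w0, hw0, by simp⟩
  refine ⟨v, hv.1, fun w hw => ?_⟩
  rcases le_or_gt ‖w‖ ‖w0‖ with h | h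
  · exact hmin w ⟨hw, by simpa using h⟩
  · have := hmin w0 ⟨hw0, by simp⟩
    linarith

/-- every lattice has a reduced basis -/
theorem exists_reduced (Λ : Submodule ℤ E2) [DiscreteTopology Λ] [IsZLattice ℝ Λ] :
    ∃ a b : E2, a ∈ Λ ∧ b ∈ Λ ∧ a ≠ 0 ∧ dt a b ≠ 0 ∧ ‖a‖ ≤ ‖b‖ ∧ (0:ℝ) ≤ inner ℝ a b ∧
      2 * (inner ℝ a b : ℝ) ≤ ‖a‖ ^ 2 ∧ Λ = Submodule.span ℤ {a, b} := by
  have hspan : Submodule.span ℝ (Λ : Set E2) = ⊤ := IsZLattice.span_top
  -- a shortest nonzero vector
  obtain ⟨a, ⟨haΛ, ha0⟩, hamin⟩ := exists_min Λ (S := {v | v ∈ Λ ∧ v ≠ 0}) (fun v hv => hv.1) (by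
    by_contra hcon
    rw [Set.not_nonempty_iff_eq_empty] at hcon
    have h1 : (Λ : Set E2) ⊆ {0} := by
      intro v hv
      by_contra hne
      have : v ∈ ({v | v ∈ Λ ∧ v ≠ 0} : Set E2) := ⟨hv, hne⟩
      rw [hcon] at this; exact this
    have h2 : Submodule.span ℝ (Λ : Set E2) ≤ ⊥ := by
      rw [Submodule.span_le]; intro v hv; simpa using h1 hv
    rw [hspan, top_le_iff] at h2
    have h3 : (EuclideanSpace.single 0 1 : E2) ∈ (⊥ : Submodule ℝ E2) := by
      rw [h2]; trivial
    have h4 : (EuclideanSpace.single 0 1 : E2) = 0 := by simpa using h3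
    have := congrArg (fun v : E2 => v 0) h4
    simp at this)
  have na : 0 < ‖a‖ := norm_pos_iff.2 ha0
  obtain ⟨b, ⟨hbΛ, hb0⟩, hbmin⟩ := exists_min Λ (S := {v | v ∈ Λ ∧ dt a v ≠ 0})
    (fun v hv => hv.1) (by
    by_contra hcon
    rw [Set.not_nonempty_iff_eq_empty] at hcon
    have h1 : (Λ : Set E2) ⊆ {v | dt a v = 0} := by
      intro v hv
      by_contra hne
      have : v ∈ ({v | v ∈ Λ ∧ dt a v ≠ 0} : Set E2) := ⟨hv, hne⟩
      rw [hcon] at this; exact this
    let D : Submodule ℝ E2 :=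
      { carrier := {v | dt a v = 0}
        zero_mem' := by simp [dt]
        add_mem' := by
          intro u v hu hv
          simp only [mem_ofPred_eq] at *
          unfold dt at *
          simp only [PiLp.add_apply]
          linarith
        smul_mem' := by
          intro c v hv
          simp only [mem_ofPred_eq] at *
          unfold dt at *
          simp only [PiLp.smul_apply, smul_eq_mul]
          linear_combination c * hv }
    have h2 : Submodule.span ℝ (Λ : Set E2) ≤ D := Submodule.span_le.2 h1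
    rw [hspan] at h2
    have h3 : (EuclideanSpace.single 0 1 : E2) ∈ D := h2 trivial
    have h4 : (EuclideanSpace.single 1 1 : E2) ∈ D := h2 trivial
    have h5 : dt a (EuclideanSpace.single 0 1) = 0 := h3
    have h6 : dt a (EuclideanSpace.single 1 1) = 0 := h4
    simp [dt] at h5 h6
    apply ha0
    ext i
    fin_cases i
    · simpa using h6
    · simpa using h5)
  have hab : ‖a‖ ≤ ‖b‖ := hamin b ⟨hbΛ, by rintro rfl; simp [dt] at hb0⟩
  have nb : 0 < ‖b‖ := na.trans_le hab
  -- the span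
  have hgen : Λ = Submodule.span ℤ {a, b} := by
    apply le_antisymm
    · intro v hv
      have hcr := cramer2 hb0 v
      set x := dt v b / dt a b
      set y := dt a v / dt a b
      have hv' : v - (round x : ℤ) • a - (round y : ℤ) • b ∈ Λ :=
        Λ.sub_mem (Λ.sub_mem hv (Λ.smul_mem _ haΛ)) (Λ.smul_mem _ hbΛ)
      set v' := v - (round x : ℤ) • a - (round y : ℤ) • b with hv'def
      have he : v' = (x - round x) • a + (y - round y) • b := by
        rw [hv'def]
        conv_lhs => rw [hcr]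
        rw [← Int.cast_smul_eq_zsmul ℝ (round x) a, ← Int.cast_smul_eq_zsmul ℝ (round y) b]
        module
      have hx := abs_sub_round x
      have hy := abs_sub_round y
      set x' := x - round x
      set y' := y - round y
      have hcs := abs_real_inner_le_norm a b
      have hcs' : |(inner ℝ a b : ℝ)| < ‖a‖ * ‖b‖ := by
        refine lt_of_le_of_ne hcs ?_
        intro heq
        have := lagrange a b
        rw [← sq_abs, heq] at this
        have h0 : dt a b ^ 2 = 0 := by linarith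
        exact hb0 (by simpa using h0)
      have hn : ‖v'‖ ^ 2 ≤ (|x'| * ‖a‖ + |y'| * ‖b‖) ^ 2 -
          2 * |x'| * |y'| * (‖a‖ * ‖b‖ - |(inner ℝ a b : ℝ)|) := by
        rw [he, norm_comb]
        have h1 : x' * y' * (inner ℝ a b : ℝ) ≤ |x'| * |y'| * |(inner ℝ a b : ℝ)| := by
          rw [← abs_mul, ← abs_mul]; exact le_abs_self _
        have h2 := sq_abs x'
        have h3 := sq_abs y'
        nlinarith
      have hx0 := abs_nonneg x'
      have hy0 := abs_nonneg y'
      have hlt : ‖v'‖ ^ 2 < ‖b‖ ^ 2 := by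
        rcases eq_or_lt_of_le hx0 with h | h
        · rw [← h] at hn
          have h2 : |y'| * ‖b‖ ≤ 1 / 2 * ‖b‖ := mul_le_mul_of_nonneg_right hy nb.le
          have h3 : 0 ≤ |y'| * ‖b‖ := by positivity
          nlinarith
        · rcases eq_or_lt_of_le hy0 with h' | h'
          · rw [← h'] at hn
            have h2 : |x'| * ‖a‖ ≤ 1 / 2 * ‖b‖ := by nlinarith
            have h3 : 0 ≤ |x'| * ‖a‖ := by positivity
            nlinarith
          · have h1 : 0 < 2 * |x'| * |y'| * (‖a‖ * ‖b‖ - |(inner ℝ a b : ℝ)|) := by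
              have : 0 < ‖a‖ * ‖b‖ - |(inner ℝ a b : ℝ)| := by linarith
              positivity
            have h2 : |x'| * ‖a‖ + |y'| * ‖b‖ ≤ ‖b‖ := by nlinarith
            have h3 : 0 ≤ |x'| * ‖a‖ + |y'| * ‖b‖ := by positivity
            nlinarith
      have hlt' : ‖v'‖ < ‖b‖ := lt_of_pow_lt_pow_left₀ 2 nb.le hlt
      have hdt : dt a v' = 0 := by
        by_contra hne
        exact absurd (hbmin v' ⟨hv', hne⟩) (not_le.2 hlt')
      have hy'0 : y' = 0 := by
        rw [he] at hdt
        have : dt a (x' • a + y' • b) = y' * dt a b := by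
          unfold dt; simp; ring
        rw [this] at hdt
        exact (mul_eq_zero.1 hdt).resolve_right hb0
      have hv'0 : v' = 0 := by
        by_contra hne
        have h1 := hamin v' ⟨hv', hne⟩
        rw [he, hy'0, zero_smul, add_zero, norm_smul, Real.norm_eq_abs] at h1
        nlinarith
      have hfin : v = (round x : ℤ) • a + (round y : ℤ) • b := by
        rw [hv'def, sub_sub, sub_eq_zero] at hv'0
        exact hv'0
      rw [hfin]
      exact Submodule.add_mem _ (Submodule.smul_mem _ _ (Submodule.subset_span (by simp)))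
        (Submodule.smul_mem _ _ (Submodule.subset_span (by simp)))
    · rw [Submodule.span_le]
      rintro v (rfl | rfl)
      · exact haΛ
      · exact hbΛ
  -- sign
  have hb2 : 2 * |(inner ℝ a b : ℝ)| ≤ ‖a‖ ^ 2 := by
    have h1 := hbmin (b - a) ⟨Λ.sub_mem hbΛ haΛ, by
      intro h; apply hb0; unfold dt at *; simp at h; linarith⟩
    have h2 := hbmin (b + a) ⟨Λ.add_mem hbΛ haΛ, by
      intro h; apply hb0; unfold dt at *; simp at h; linarith⟩
    have h3 : ‖b‖ ^ 2 ≤ ‖b - a‖ ^ 2 := pow_le_pow_left₀ nb.le h1 2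
    have h4 : ‖b‖ ^ 2 ≤ ‖b + a‖ ^ 2 := pow_le_pow_left₀ nb.le h2 2
    rw [@norm_sub_sq_real, real_inner_comm] at h3
    rw [@norm_add_sq_real, real_inner_comm] at h4
    rcases abs_cases (inner ℝ a b : ℝ) with ⟨h, _⟩ | ⟨h, _⟩ <;> rw [h] <;> linarith
  rcases le_total 0 (inner ℝ a b : ℝ) with h | h
  · refine ⟨a, b, haΛ, hbΛ, ha0, hb0, hab, h, ?_, hgen⟩
    rwa [abs_of_nonneg h] at hb2
  · refine ⟨a, -b, haΛ, Λ.neg_mem hbΛ, ha0, ?_, by rwa [norm_neg], by rw [inner_neg_right]; linarith, ?_, ?_⟩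
    · intro h'; apply hb0; unfold dt at *; simp at h'; linarith
    · rw [abs_of_nonpos h] at hb2; rw [inner_neg_right]; exact hb2
    · rw [hgen]
      apply le_antisymm
      · rw [Submodule.span_le]
        rintro v (rfl | rfl)
        · exact Submodule.subset_span (by simp)
        · rw [← neg_neg v]
          exact Submodule.neg_mem _ (Submodule.subset_span (by simp))
      · rw [Submodule.span_le]
        rintro v (rfl | rfl)
        · exact Submodule.subset_span (by simp)
        · exact Submodule.neg_mem _ (Submodule.subset_span (by simp))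

end Pool.Agent.helper71.CT
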