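import Pool.Agent.helper71.CT.Corner2

/-!
Staircases in a narrow cone are limits of staircases in a wider cone.
-/

open Quaternion Set Filter
open scoped Topology

namespace Pool.Agent.helper71.CT

open Pool.Agent.helper70.Tori

/-- the holonomy `ε` is a limit of holonomies of staircases with totals `X, Y` -/
def ReachC (e f : ℂ) (X Y ε : ℝ) : Prop :=
  ∀ d > 0, ∃ l : List (ℝ × ℝ), Nonneg l ∧ sx l = X ∧ sy l = Y ∧
    ‖hol e f l - (ε : Quaternion ℝ)‖ < d

lemma pow_sub_pow_le {A B : Quaternion ℝ} (hA : ‖A‖ = 1) (hB : ‖B‖ = 1) (n : ℕ) :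
    ‖A ^ n - B ^ n‖ ≤ n * ‖A - B‖ := by
  induction n with
  | zero => simp
  | succ n ih =>
    have e1 : A ^ (n + 1) - B ^ (n + 1) = A * (A ^ n - B ^ n) + (A - B) * B ^ n := by
      rw [pow_succ', pow_succ']; noncomm_ring
    rw [e1]
    refine (norm_add_le _ _).trans ?_
    rw [norm_mul, norm_mul, norm_pow, hA, hB, one_pow, one_mul, mul_one]
    push_cast
    linarith

lemma sx_replicate (n : ℕ) (p : ℝ × ℝ) : sx (List.replicate n p) = n * p.1 := by
  simp [sx, List.map_replicate, List.sum_replicate]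

lemma sy_replicate (n : ℕ) (p : ℝ × ℝ) : sy (List.replicate n p) = n * p.2 := by
  simp [sy, List.map_replicate, List.sum_replicate]

/-- a segment inside the cone is a limit of staircases -/
lemma approx_er {e f e₁ : ℂ} (he : ‖e‖ = 1) (hf : ‖f‖ = 1) (he₁ : ‖e₁‖ = 1) {a b : ℝ}
    (ha : 0 ≤ a) (hb : 0 ≤ b) (h : e₁ = a * e + b * f) {x : ℝ} (hx : 0 ≤ x) {d : ℝ} (hd : 0 < d) :
    ∃ l : List (ℝ × ℝ), Nonneg l ∧ sx l = a * x ∧ sy l = b * x ∧
      ‖hol e f l - er e₁ x‖ < d := by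
  set φ : ℝ → Quaternion ℝ := fun δ => er e (a * δ) * er f (b * δ) - er e₁ δ with hφ
  have hφ0 : φ 0 = 0 := by simp [hφ, er_zero]
  have d1 : HasDerivAt (fun δ => er e (a * δ)) (a • io e) 0 := by
    have := HasDerivAt.scomp (0:ℝ) (h := fun t : ℝ => a * t) (by simpa using hasDerivAt_er he (a * 0))
      ((hasDerivAt_id (0:ℝ)).const_mul a)
    simpa [Function.comp_def, er_zero] using this
  have d2 : HasDerivAt (fun δ => er f (b * δ)) (b • io f) 0 := by
    have := HasDerivAt.scomp (0:ℝ) (h := fun t : ℝ => b * t) (by simpa using hasDerivAt_er hf (b * 0))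
      ((hasDerivAt_id (0:ℝ)).const_mul b)
    simpa [Function.comp_def, er_zero] using this
  have d3 : HasDerivAt (er e₁) (io e₁) 0 := by
    have := hasDerivAt_er he₁ 0
    simpa [er_zero] using this
  have d4 : HasDerivAt φ 0 0 := by
    have := (d1.mul d2).sub d3
    refine this.congr_deriv ?_
    simp only [mul_zero, er_zero, mul_one, one_mul]
    rw [h, map_add]
    have e1 : io ((a : ℂ) * e) = a • io e := by
      rw [← map_smul]; rfl
    have e2 : io ((b : ℂ) * f) = b • io f := by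
      rw [← map_smul]; rfl
    rw [e1, e2]; abel
  have hc : 0 < d / (x + 1) := by positivity
  have h1 : ∀ᶠ δ in 𝓝 (0:ℝ), ‖φ δ‖ ≤ d / (x + 1) * ‖δ‖ := by
    have := (hasDerivAt_iff_isLittleO.1 d4).def hc
    simpa [hφ0] using this
  have h2 : Tendsto (fun n : ℕ => x / ((n : ℝ) + 1)) atTop (𝓝 0) :=
    tendsto_const_div_atTop_nhds_zero_nat x |>.comp (tendsto_add_atTop_nat 1) |>.congr
      (fun n => by simp)
  obtain ⟨n, hn⟩ := (h2.eventually h1).exists
  have hn1 : (0:ℝ) < (n : ℝ) + 1 := by positivity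
  set δ := x / ((n : ℝ) + 1) with hδ
  have hδ0 : 0 ≤ δ := by positivity
  have hnδ : ((n + 1 : ℕ) : ℝ) * δ = x := by rw [hδ]; push_cast; field_simp
  refine ⟨List.replicate (n + 1) (a * δ, b * δ), ?_, ?_, ?_, ?_⟩
  · intro p hp
    rw [List.eq_of_mem_replicate hp]
    exact ⟨mul_nonneg ha hδ0, mul_nonneg hb hδ0⟩
  · rw [sx_replicate]; simp only; rw [← hnδ]; ring
  · rw [sy_replicate]; simp only; rw [← hnδ]; ring
  · rw [hol_replicate]
    simp only
    have e1 : er e₁ x = er e₁ δ ^ (n + 1) := by rw [← er_nsmul he₁, hnδ]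
    rw [e1]
    refine (pow_sub_pow_le (by rw [norm_mul, norm_er he, norm_er hf, one_mul])
      (norm_er he₁ _) (n + 1)).trans_lt ?_
    have h3 : ‖φ δ‖ ≤ d / (x + 1) * δ := by
      rw [Real.norm_eq_abs, abs_of_nonneg hδ0] at hn; exact hn
    have h4 : ((n + 1 : ℕ) : ℝ) * ‖φ δ‖ ≤ d / (x + 1) * x := by
      have := mul_le_mul_of_nonneg_left h3 (show (0:ℝ) ≤ ((n + 1 : ℕ) : ℝ) by positivity)
      calc ((n + 1 : ℕ) : ℝ) * ‖φ δ‖ ≤ ((n + 1 : ℕ) : ℝ) * (d / (x + 1) * δ) := this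
        _ = d / (x + 1) * (((n + 1 : ℕ) : ℝ) * δ) := by ring
        _ = d / (x + 1) * x := by rw [hnδ]
    refine lt_of_le_of_lt h4 ?_
    rw [div_mul_eq_mul_div, div_lt_iff₀ (by positivity)]
    nlinarith

lemma mul_sub_mul_le {A A' B B' : Quaternion ℝ} (hB : ‖B‖ = 1) (hA' : ‖A'‖ = 1) :
    ‖A * B - A' * B'‖ ≤ ‖A - A'‖ + ‖B - B'‖ := by
  have e1 : A * B - A' * B' = (A - A') * B + A' * (B - B') := by noncomm_ring
  rw [e1]
  refine (norm_add_le _ _).trans ?_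
  rw [norm_mul, norm_mul, hB, hA', one_mul, mul_one]

/-- words of the narrow cone are limits of words of the wide cone -/
lemma approx_word {e f e₁ f₁ : ℂ} (he : ‖e‖ = 1) (hf : ‖f‖ = 1) (he₁ : ‖e₁‖ = 1)
    (hf₁ : ‖f₁‖ = 1) {a b a' b' : ℝ} (ha : 0 ≤ a) (hb : 0 ≤ b) (ha' : 0 ≤ a') (hb' : 0 ≤ b')
    (h : e₁ = a * e + b * f) (h' : f₁ = a' * e + b' * f) :
    ∀ (l₁ : List (ℝ × ℝ)), Nonneg l₁ → ∀ d > 0, ∃ l : List (ℝ × ℝ), Nonneg l ∧
      sx l = a * sx l₁ + a' * sy l₁ ∧ sy l = b * sx l₁ + b' * sy l₁ ∧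
      ‖hol e f l - hol e₁ f₁ l₁‖ < d := by
  intro l₁
  induction l₁ with
  | nil =>
    intro _ d hd
    refine ⟨[], by intro p hp; simp at hp, by simp [sx, sy], by simp [sx, sy], by simpa [hol]⟩
  | cons p l₁ ih =>
    intro hn d hd
    have hp := hn p (by simp)
    obtain ⟨la, a1, a2, a3, a4⟩ := approx_er he hf he₁ ha hb h hp.1 (show 0 < d / 3 by positivity)
    obtain ⟨lb, b1, b2, b3, b4⟩ := approx_er he hf hf₁ ha' hb' h' hp.2 (show 0 < d / 3 by positivity)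
    obtain ⟨lc, c1, c2, c3, c4⟩ := ih (fun q hq => hn q (by simp [hq])) (d / 3) (by positivity)
    refine ⟨la ++ (lb ++ lc), a1.append (b1.append c1), ?_, ?_, ?_⟩
    · rw [sx_append, sx_append, a2, b2, c2, sx_cons, sy_cons]; ring
    · rw [sy_append, sy_append, a3, b3, c3, sx_cons, sy_cons]; ring
    · rw [hol_append, hol_append, hol, ← mul_assoc]
      have n1 := norm_hol he hf la
      have n2 := norm_hol he hf lb
      have n3 := norm_hol he hf lc
      have n4 := norm_er he₁ p.1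
      have n5 := norm_er hf₁ p.2
      have k1 := mul_sub_mul_le (A := hol e f la) (A' := er e₁ p.1) (B := hol e f lb)
        (B' := er f₁ p.2) n2 n4
      have k2 := mul_sub_mul_le (A := hol e f la * hol e f lb) (A' := er e₁ p.1 * er f₁ p.2)
        (B := hol e f lc) (B' := hol e₁ f₁ l₁) n3 (by rw [norm_mul, n4, n5, one_mul])
      linarith

theorem ReachC.mono {e f e₁ f₁ : ℂ} (he : ‖e‖ = 1) (hf : ‖f‖ = 1) (he₁ : ‖e₁‖ = 1)
    (hf₁ : ‖f₁‖ = 1) {a b a' b' : ℝ} (ha : 0 ≤ a) (hb : 0 ≤ b) (ha' : 0 ≤ a') (hb' : 0 ≤ b')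
    (h : e₁ = a * e + b * f) (h' : f₁ = a' * e + b' * f) {X Y ε : ℝ}
    (hr : ReachC e₁ f₁ X Y ε) : ReachC e f (a * X + a' * Y) (b * X + b' * Y) ε := by
  intro d hd
  obtain ⟨l₁, h1, h2, h3, h4⟩ := hr (d / 2) (by positivity)
  obtain ⟨l, g1, g2, g3, g4⟩ := approx_word he hf he₁ hf₁ ha hb ha' hb' h h' l₁ h1 (d / 2)
    (by positivity)
  refine ⟨l, g1, by rw [g2, h2, h3], by rw [g3, h2, h3], ?_⟩
  calc ‖hol e f l - (ε : Quaternion ℝ)‖ =
      ‖(hol e f l - hol e₁ f₁ l₁) + (hol e₁ f₁ l₁ - (ε : Quaternion ℝ))‖ := by congr 1; abel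
    _ ≤ ‖hol e f l - hol e₁ f₁ l₁‖ + ‖hol e₁ f₁ l₁ - (ε : Quaternion ℝ)‖ := norm_add_le _ _
    _ < d := by linarith

lemma abs_re_le (q : Quaternion ℝ) : |q.re| ≤ ‖q‖ := by
  have h := norm_sq_eq q
  apply abs_le_of_sq_le_sq _ (norm_nonneg _)
  nlinarith [sq_nonneg q.imI, sq_nonneg q.imJ, sq_nonneg q.imK]

/-- passage to the limit -/
lemma ReachC.limit {e f : ℂ} {X Y ε : ℝ} (h : ReachC e f X Y ε) {g : ℝ → ℝ} (hg : Continuous g)
    {B : ℝ} (hB : ∀ l : List (ℝ × ℝ), Nonneg l → sx l = X → sy l = Y → g (hol e f l).re ≤ B) :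
    g ε ≤ B := by
  apply le_of_forall_pos_le_add
  intro η hη
  obtain ⟨d, hd, hd'⟩ := Metric.continuousAt_iff.1 (hg.continuousAt (x := ε)) η hη
  obtain ⟨l, h1, h2, h3, h4⟩ := h d hd
  have h5 : dist (hol e f l).re ε < d := by
    rw [Real.dist_eq]
    have := abs_re_le (hol e f l - (ε : Quaternion ℝ))
    rw [Quaternion.re_sub, Quaternion.re_coe] at this
    linarith
  have h6 := hd' h5
  rw [Real.dist_eq, abs_lt] at h6
  have h7 := hB l h1 h2 h3
  linarith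

end Pool.Agent.helper71.CT
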