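import Pool.Agent.helper71.CT.Disc

/-!
The corner inequality: among all staircases with totals `X, Y ≤ π` in a plane cone the one-corner
staircase has the largest real part of the holonomy.
-/

open Quaternion Set Filter
open scoped Topology

namespace Pool.Agent.helper71.CT

open Pool.Agent.helper70.Tori

lemma er_eq (e : ℂ) (x : ℝ) : er e x = Real.cos x • (1 : Quaternion ℝ) + Real.sin x • io e := by
  unfold er
  congr 1
  apply Quaternion.ext <;> simp

lemma hasDerivAt_er {e : ℂ} (he : ‖e‖ = 1) (x : ℝ) :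
    HasDerivAt (er e) (io e * er e x) x := by
  have h : HasDerivAt (fun x => Real.cos x • (1 : Quaternion ℝ) + Real.sin x • io e)
      ((-Real.sin x) • (1 : Quaternion ℝ) + Real.cos x • io e) x :=
    ((Real.hasDerivAt_cos x).smul_const _).add ((Real.hasDerivAt_sin x).smul_const _)
  have h2 : er e = fun x => Real.cos x • (1 : Quaternion ℝ) + Real.sin x • io e := by
    funext x; exact er_eq e x
  rw [h2]
  refine h.congr_deriv ?_
  have h3 := sq_add_sq he
  apply Quaternion.ext
  · rw [Quaternion.re_mul]; simp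
    linear_combination Real.sin x * h3
  · rw [Quaternion.imI_mul]; simp; ring
  · rw [Quaternion.imJ_mul]; simp; ring
  · rw [Quaternion.imK_mul]; simp
    ring

lemma continuous_er {e : ℂ} (he : ‖e‖ = 1) : Continuous (er e) :=
  continuous_iff_continuousAt.2 fun x => (hasDerivAt_er he x).continuousAt

lemma continuous_hol {e f : ℂ} (he : ‖e‖ = 1) (hf : ‖f‖ = 1) (M : ℕ) :
    Continuous (fun g : Fin M → ℝ × ℝ => hol e f (List.ofFn g)) := by
  induction M with
  | zero => simp [hol]; exact continuous_const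
  | succ n ih =>
    simp only [List.ofFn_succ, hol]
    have h1 : Continuous fun g : Fin (n + 1) → ℝ × ℝ => er e (g 0).1 :=
      (continuous_er he).comp (by fun_prop)
    have h2 : Continuous fun g : Fin (n + 1) → ℝ × ℝ => er f (g 0).2 :=
      (continuous_er hf).comp (by fun_prop)
    have h3 : Continuous fun g : Fin (n + 1) → ℝ × ℝ => hol e f (List.ofFn fun i => g i.succ) :=
      ih.comp (by fun_prop)
    exact (h1.mul h2).mul h3

lemma exists_ofFn (l : List (ℝ × ℝ)) (M : ℕ) (h : l.length = M) :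
    ∃ g : Fin M → ℝ × ℝ, List.ofFn g = l := by
  subst h; exact ⟨l.get, List.ofFn_get l⟩

lemma sx_ofFn {M : ℕ} (g : Fin M → ℝ × ℝ) : sx (List.ofFn g) = ∑ i, (g i).1 := by
  simp [sx, List.map_ofFn, List.sum_ofFn]

lemma sy_ofFn {M : ℕ} (g : Fin M → ℝ × ℝ) : sy (List.ofFn g) = ∑ i, (g i).2 := by
  simp [sy, List.map_ofFn, List.sum_ofFn]

lemma nonneg_ofFn {M : ℕ} (g : Fin M → ℝ × ℝ) :
    Nonneg (List.ofFn g) ↔ ∀ i, 0 ≤ (g i).1 ∧ 0 ≤ (g i).2 := by
  unfold Nonneg
  constructor
  · intro h i; exact h _ (by simp [List.mem_ofFn])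
  · intro h p hp
    obtain ⟨i, rfl⟩ := (List.mem_ofFn' g p).1 hp
    exact h i

lemma continuous_re : Continuous (fun q : Quaternion ℝ => q.re) := Quaternion.continuous_re

/-- existence of a staircase with maximal real part -/
lemma exists_max {e f : ℂ} (he : ‖e‖ = 1) (hf : ‖f‖ = 1) (M : ℕ) {X Y : ℝ}
    (l₀ : List (ℝ × ℝ)) (h₀ : l₀.length = M) (n₀ : Nonneg l₀) (x₀ : sx l₀ = X) (y₀ : sy l₀ = Y) :
    ∃ l : List (ℝ × ℝ), l.length = M ∧ Nonneg l ∧ sx l = X ∧ sy l = Y ∧
      ∀ l' : List (ℝ × ℝ), l'.length = M → Nonneg l' → sx l' = X → sy l' = Y →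
        (hol e f l').re ≤ (hol e f l).re := by
  set K : Set (Fin M → ℝ × ℝ) :=
    {g | (∀ i, 0 ≤ (g i).1 ∧ 0 ≤ (g i).2) ∧ ∑ i, (g i).1 = X ∧ ∑ i, (g i).2 = Y} with hK
  have hcl : IsClosed K := by
    have e1 : IsClosed {g : Fin M → ℝ × ℝ | ∀ i, 0 ≤ (g i).1 ∧ 0 ≤ (g i).2} := by
      have : {g : Fin M → ℝ × ℝ | ∀ i, 0 ≤ (g i).1 ∧ 0 ≤ (g i).2} =
          ⋂ i, {g : Fin M → ℝ × ℝ | 0 ≤ (g i).1 ∧ 0 ≤ (g i).2} := by ext g; simp
      rw [this]
      refine isClosed_iInter fun i => ?_
      have c1 : Continuous fun g : Fin M → ℝ × ℝ => (g i).1 := by fun_prop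
      have c2 : Continuous fun g : Fin M → ℝ × ℝ => (g i).2 := by fun_prop
      exact (isClosed_le continuous_const c1).inter (isClosed_le continuous_const c2)
    have e2 : IsClosed {g : Fin M → ℝ × ℝ | ∑ i, (g i).1 = X} :=
      isClosed_eq (by fun_prop) continuous_const
    have e3 : IsClosed {g : Fin M → ℝ × ℝ | ∑ i, (g i).2 = Y} :=
      isClosed_eq (by fun_prop) continuous_const
    have : K = {g : Fin M → ℝ × ℝ | ∀ i, 0 ≤ (g i).1 ∧ 0 ≤ (g i).2} ∩
        ({g : Fin M → ℝ × ℝ | ∑ i, (g i).1 = X} ∩ {g : Fin M → ℝ × ℝ | ∑ i, (g i).2 = Y}) := by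
      ext g; simp [hK]
    rw [this]
    exact e1.inter (e2.inter e3)
  have hsub : K ⊆ Icc (fun _ => ((0:ℝ), (0:ℝ))) (fun _ => (X, Y)) := by
    intro g hg
    obtain ⟨h1, h2, h3⟩ := hg
    refine ⟨fun i => ⟨(h1 i).1, (h1 i).2⟩, fun i => ⟨?_, ?_⟩⟩
    · rw [← h2]
      exact Finset.single_le_sum (f := fun i => (g i).1) (fun j _ => (h1 j).1) (Finset.mem_univ i)
    · rw [← h3]
      exact Finset.single_le_sum (f := fun i => (g i).2) (fun j _ => (h1 j).2) (Finset.mem_univ i)
  have hcomp : IsCompact K := isCompact_Icc.of_isClosed_subset hcl hsub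
  obtain ⟨g₀, hg₀⟩ := exists_ofFn l₀ M h₀
  have hne : K.Nonempty := by
    refine ⟨g₀, ?_, ?_, ?_⟩
    · rw [← nonneg_ofFn, hg₀]; exact n₀
    · rw [← sx_ofFn, hg₀]; exact x₀
    · rw [← sy_ofFn, hg₀]; exact y₀
  have hcont : Continuous fun g : Fin M → ℝ × ℝ => (hol e f (List.ofFn g)).re :=
    continuous_re.comp (continuous_hol he hf M)
  obtain ⟨g, hg, hmax⟩ := hcomp.exists_isMaxOn hne hcont.continuousOn
  refine ⟨List.ofFn g, List.length_ofFn, (nonneg_ofFn g).2 hg.1, ?_, ?_, ?_⟩
  · rw [sx_ofFn]; exact hg.2.1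
  · rw [sy_ofFn]; exact hg.2.2
  · intro l' h1 h2 h3 h4
    obtain ⟨g', rfl⟩ := exists_ofFn l' M h1
    exact hmax ⟨(nonneg_ofFn g').1 h2, by rw [← sx_ofFn]; exact h3, by rw [← sy_ofFn]; exact h4⟩

/-- component of the imaginary part along `e` -/
noncomputable def Ec (e : ℂ) (q : Quaternion ℝ) : ℝ := e.re * q.imI + e.im * q.imJ

lemma re_io_mul (e : ℂ) (q : Quaternion ℝ) : (io e * q).re = -Ec e q := by
  rw [Quaternion.re_mul]; simp [Ec]; ring

lemma Ec_comm (e : ℂ) (x : ℝ) (Q : Quaternion ℝ) : Ec e (er e x * Q) = Ec e (Q * er e x) := by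
  have h : io e * er e x = er e x * io e := by
    apply Quaternion.ext
    · rw [Quaternion.re_mul, Quaternion.re_mul]; simp; ring
    · rw [Quaternion.imI_mul, Quaternion.imI_mul]; simp; ring
    · rw [Quaternion.imJ_mul, Quaternion.imJ_mul]; simp; ring
    · rw [Quaternion.imK_mul, Quaternion.imK_mul]; simp; ring
  have : (io e * (er e x * Q)).re = (io e * (Q * er e x)).re := by
    rw [← mul_assoc, h, mul_assoc, re_mul_comm', mul_assoc]
  rw [re_io_mul, re_io_mul] at this
  linarith

/-- first order condition -/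
lemma crit {e : ℂ} (he : ‖e‖ = 1) (A B C : Quaternion ℝ) {x x' δ : ℝ} (hδ : 0 < δ)
    (hmax : ∀ t, |t| < δ → (A * er e (x + t) * B * er e (x' - t) * C).re ≤
      (A * er e x * B * er e x' * C).re) :
    Ec e (er e x * B * er e x' * C * A) = Ec e (er e x' * C * A * er e x * B) := by
  set φ : ℝ → Quaternion ℝ := fun t => A * er e (x + t) * B * er e (x' - t) * C with hφ
  have d1 : HasDerivAt (fun t => er e (x + t)) (io e * er e x) 0 := by
    have := HasDerivAt.scomp (0:ℝ) (h := fun t : ℝ => x + t) (by simpa using hasDerivAt_er he (x + 0))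
      ((hasDerivAt_id (0:ℝ)).const_add x)
    simpa [Function.comp_def] using this
  have d2 : HasDerivAt (fun t => er e (x' - t)) (-(io e * er e x')) 0 := by
    have := HasDerivAt.scomp (0:ℝ) (h := fun t : ℝ => x' - t)
      (by simpa using hasDerivAt_er he (x' - 0)) ((hasDerivAt_id (0:ℝ)).const_sub x')
    simpa [Function.comp_def] using this
  have d3 : HasDerivAt φ (A * (io e * er e x) * B * er e x' * C +
      A * er e x * B * (-(io e * er e x')) * C) 0 := by
    have := ((((hasDerivAt_const (0:ℝ) A).mul d1).mul_const B).mul d2).mul_const C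
    refine this.congr_deriv ?_
    simp only [Pi.mul_apply, add_zero, sub_zero, zero_mul, zero_add, add_mul]
  have d4 : HasDerivAt (fun t => (φ t).re) ((A * (io e * er e x) * B * er e x' * C +
      A * er e x * B * (-(io e * er e x')) * C).re) 0 := by
    let L : Quaternion ℝ →ₗ[ℝ] ℝ :=
      { toFun := fun q => q.re, map_add' := fun a b => by simp, map_smul' := fun r a => by simp }
    have := (LinearMap.toContinuousLinearMap L).hasFDerivAt.comp_hasDerivAt (0:ℝ) d3
    exact this
  have hloc : IsLocalMax (fun t => (φ t).re) 0 := by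
    have : ∀ᶠ t in 𝓝 (0:ℝ), |t| < δ := by
      have : Metric.ball (0:ℝ) δ ∈ 𝓝 (0:ℝ) := Metric.ball_mem_nhds _ hδ
      filter_upwards [this] with t ht
      simpa using ht
    filter_upwards [this] with t ht
    simp only [hφ, add_zero, sub_zero]
    exact hmax t ht
  have h0 := hloc.hasDerivAt_eq_zero d4
  rw [Quaternion.re_add] at h0
  have e1 : (A * (io e * er e x) * B * er e x' * C).re = -Ec e (er e x * B * er e x' * C * A) := by
    rw [← re_io_mul]
    have : A * (io e * er e x) * B * er e x' * C = A * (io e * (er e x * B * er e x' * C)) := by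
      simp only [mul_assoc]
    rw [this, re_mul_comm']
    simp only [mul_assoc]
  have e2 : (A * er e x * B * (-(io e * er e x')) * C).re =
      Ec e (er e x' * C * A * er e x * B) := by
    have h3 : Ec e (er e x' * C * A * er e x * B) =
        -(io e * (er e x' * C * A * er e x * B)).re := by rw [re_io_mul]; ring
    rw [h3]
    have : A * er e x * B * (-(io e * er e x')) * C =
        -((A * er e x * B) * (io e * er e x' * C)) := by
      simp only [mul_assoc, mul_neg, neg_mul]
    rw [this, Quaternion.re_neg, re_mul_comm']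
    simp only [mul_assoc]
  rw [e1, e2] at h0
  linarith

end Pool.Agent.helper71.CT
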