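import Pool.Agent.helper71.CT.Lattice
import Pool.Agent.helper71.CT.Disc
import Pool.Agent.helper3.FlatTorus.Criterion
import Pool.Agent.helper3.FlatTorus.Transfer

/-! Explicit forms of the criterion. -/

namespace Pool.Agent.helper71.CT

open Set
open Pool.Agent.helper3.FlatTorus (inner2 norm2 Adm Criterion)

lemma odd_of_pow {N : ℕ} (h : (-1 : ℝ) ^ N = -1) : N = 1 ∨ 3 ≤ N := by
  rcases N with _ | _ | _ | N
  · norm_num at h
  · left; rfl
  · norm_num at h
  · right; omega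

lemma odd_of_pow' {N : ℕ} (h : (-1 : ℝ) ^ N = -1) : N = 1 ∨ N = 3 ∨ 5 ≤ N := by
  rcases N with _ | _ | _ | _ | _ | N
  · norm_num at h
  · left; rfl
  · norm_num at h
  · right; left; rfl
  · norm_num at h
  · right; right; omega

lemma cos_pi_div_ge {N : ℕ} (h : 3 ≤ N) : 1 / 2 ≤ Real.cos (Real.pi / N) := by
  have hpi := Real.pi_pos
  have hN : (3:ℝ) ≤ N := by exact_mod_cast h
  rw [← Real.cos_pi_div_three]
  apply Real.cos_le_cos_of_nonneg_of_le_pi (by positivity)
  · linarith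
  · gcongr

lemma lt_norm_of_sq {v : E2} {r : ℝ} (h : r ^ 2 < ‖v‖ ^ 2) : r < ‖v‖ :=
  lt_of_pow_lt_pow_left₀ 2 (norm_nonneg _) h

/-- admissibility for the sign `1` from its algebraic form -/
lemma adm_one {e f : E2} (he : ‖e‖ = 1) (hf : ‖f‖ = 1) {X Y c : ℝ} (hc : (inner ℝ e f : ℝ) = c)
    (h : ∀ N : ℕ, 1 ≤ N → (-1 : ℝ) ^ N = -1 →
      Real.pi ^ 2 < (X - N * Real.pi) ^ 2 + Y ^ 2 + 2 * (X - N * Real.pi) * Y * c ∧
      Real.pi ^ 2 < X ^ 2 + (Y - N * Real.pi) ^ 2 + 2 * X * (Y - N * Real.pi) * c ∧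
      (X ≤ N * Real.pi → Y ≤ N * Real.pi →
        -Real.cos (Real.pi / N) < Real.cos (X / N) * Real.cos (Y / N) -
          c * (Real.sin (X / N) * Real.sin (Y / N)))) :
    Adm 1 e f X Y := by
  refine ⟨fun h1 => by norm_num at h1, fun N hN hN' => ?_⟩
  obtain ⟨h1, h2, h3⟩ := h N hN hN'
  refine ⟨?_, ?_, fun hX hY => by rw [hc]; exact h3 hX hY⟩
  · have e0 : X • e + Y • f - (N * Real.pi) • e = (X - N * Real.pi) • e + Y • f := by module
    rw [e0]
    apply lt_norm_of_sq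
    rw [norm_comb, he, hf, hc]
    linarith
  · have e0 : X • e + Y • f - (N * Real.pi) • f = X • e + (Y - N * Real.pi) • f := by module
    rw [e0]
    apply lt_norm_of_sq
    rw [norm_comb, he, hf, hc]
    linarith

lemma prod_gt {x y : ℝ} (h : |x - y| < Real.pi / 2) : -(1 / 2) < Real.cos x * Real.cos y := by
  have h1 : Real.cos x * Real.cos y = (Real.cos (x + y) + Real.cos (x - y)) / 2 := by
    rw [Real.cos_add, Real.cos_sub]; ring
  have h2 := Real.neg_one_le_cos (x + y)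
  have h3 : 0 < Real.cos (x - y) := Real.cos_pos_of_mem_Ioo ⟨by
    have := (abs_lt.1 h).1; linarith, (abs_lt.1 h).2⟩
  linarith

lemma diff_lt {x y : ℝ} (hx0 : 0 ≤ x) (hy : y ≤ Real.pi) (hxy : x ≤ y)
    (h : y ^ 2 ≤ 3 * x ^ 2) : |x - y| < Real.pi / 2 := by
  have hpi := Real.pi_pos
  rw [abs_sub_comm, abs_of_nonneg (by linarith)]
  by_contra hcon
  push Not at hcon
  have h1 : x ≤ y - Real.pi / 2 := by linarith
  have h2 : x ^ 2 ≤ (y - Real.pi / 2) ^ 2 := pow_le_pow_left₀ hx0 h1 2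
  have h3 : 0 ≤ (y - Real.pi / 2) * (Real.pi - y) := mul_nonneg (by linarith) (by linarith)
  nlinarith

/-- orthogonal directions, both angles in `[30°, 60°]`, length at least `2π` -/
lemma adm_thick {e f : E2} (he : ‖e‖ = 1) (hf : ‖f‖ = 1) (hef : (inner ℝ e f : ℝ) = 0)
    {r u v : ℝ} (hu : 0 < u) (hv : 0 < v) (huv : u ^ 2 + v ^ 2 = 1) (hu4 : 1 / 4 ≤ u ^ 2)
    (hv4 : 1 / 4 ≤ v ^ 2) (hr : 2 * Real.pi ≤ r) : Adm 1 e f (r * u) (r * v) := by
  have hpi := Real.pi_pos
  have hr0 : 0 < r := by linarith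
  have hu1 : u < 1 := by nlinarith
  have hv1 : v < 1 := by nlinarith
  apply adm_one he hf hef
  intro N hN hN'
  have hNr : (1:ℝ) ≤ N := by exact_mod_cast hN
  have hN0 : (0:ℝ) < N := by linarith
  rcases odd_of_pow hN' with rfl | h3
  · refine ⟨?_, ?_, ?_⟩
    · have : 0 < r * (r - 2 * Real.pi * u) := by
        apply mul_pos hr0; nlinarith
      push_cast
      nlinarith
    · have : 0 < r * (r - 2 * Real.pi * v) := by
        apply mul_pos hr0; nlinarith
      push_cast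
      nlinarith
    · intro hX hY
      exfalso
      simp only [Nat.cast_one, one_mul] at hX hY
      have h1 : 0 ≤ r * u := by positivity
      have h2 : 0 ≤ r * v := by positivity
      have h3 : (r * u) ^ 2 ≤ Real.pi ^ 2 := pow_le_pow_left₀ h1 hX 2
      have h4 : (r * v) ^ 2 ≤ Real.pi ^ 2 := pow_le_pow_left₀ h2 hY 2
      have h5 : (r * u) ^ 2 + (r * v) ^ 2 = r ^ 2 := by linear_combination r ^ 2 * huv
      have h6 : (2 * Real.pi) ^ 2 ≤ r ^ 2 := pow_le_pow_left₀ (by positivity) hr 2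
      nlinarith
  · have hN3 : (3:ℝ) ≤ N := by exact_mod_cast h3
    have hNpi : 9 * Real.pi ^ 2 ≤ (N * Real.pi) ^ 2 := by
      have : 3 * Real.pi ≤ N * Real.pi := mul_le_mul_of_nonneg_right hN3 hpi.le
      nlinarith
    refine ⟨?_, ?_, ?_⟩
    · have h1 : (r * u - N * Real.pi) ^ 2 + (r * v) ^ 2 =
          (r - N * Real.pi * u) ^ 2 + (N * Real.pi) ^ 2 * v ^ 2 := by
        linear_combination (r ^ 2 - (N * Real.pi) ^ 2) * huv
      have h2 : 9 * Real.pi ^ 2 * (1 / 4) ≤ (N * Real.pi) ^ 2 * v ^ 2 :=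
        mul_le_mul hNpi hv4 (by norm_num) (by positivity)
      have := sq_nonneg (r - N * Real.pi * u)
      nlinarith
    · have h1 : (r * u) ^ 2 + (r * v - N * Real.pi) ^ 2 =
          (r - N * Real.pi * v) ^ 2 + (N * Real.pi) ^ 2 * u ^ 2 := by
        linear_combination (r ^ 2 - (N * Real.pi) ^ 2) * huv
      have h2 : 9 * Real.pi ^ 2 * (1 / 4) ≤ (N * Real.pi) ^ 2 * u ^ 2 :=
        mul_le_mul hNpi hu4 (by norm_num) (by positivity)
      have := sq_nonneg (r - N * Real.pi * v)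
      nlinarith
    · intro hX hY
      have hc := cos_pi_div_ge h3
      have hX' : r * u / N ≤ Real.pi := by rw [div_le_iff₀ hN0]; linarith
      have hY' : r * v / N ≤ Real.pi := by rw [div_le_iff₀ hN0]; linarith
      have hX0 : 0 ≤ r * u / N := by positivity
      have hY0 : 0 ≤ r * v / N := by positivity
      have key : |r * u / N - r * v / N| < Real.pi / 2 := by
        rcases le_total u v with h | h
        · apply diff_lt hX0 hY'
          · gcongr
          · have : v ^ 2 ≤ 3 * u ^ 2 := by linarith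
            have h2 : (r / N) ^ 2 * v ^ 2 ≤ (r / N) ^ 2 * (3 * u ^ 2) :=
              mul_le_mul_of_nonneg_left this (by positivity)
            calc (r * v / N) ^ 2 = (r / N) ^ 2 * v ^ 2 := by ring
              _ ≤ _ := h2
              _ = _ := by ring
        · rw [abs_sub_comm]
          apply diff_lt hY0 hX'
          · gcongr
          · have : u ^ 2 ≤ 3 * v ^ 2 := by linarith
            have h2 : (r / N) ^ 2 * u ^ 2 ≤ (r / N) ^ 2 * (3 * v ^ 2) :=
              mul_le_mul_of_nonneg_left this (by positivity)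
            calc (r * u / N) ^ 2 = (r / N) ^ 2 * u ^ 2 := by ring
              _ ≤ _ := h2
              _ = _ := by ring
      have := prod_gt key
      linarith

/-- every lattice of thick tori satisfies the criterion -/
lemma criterion_thick {a b : E2} (hab : ‖a‖ ≤ ‖b‖) (ha : 2 * Real.pi ≤ ‖a‖)
    (h0 : (0:ℝ) ≤ inner ℝ a b) (h1 : 2 * (inner ℝ a b : ℝ) ≤ ‖a‖ ^ 2) :
    Criterion (Submodule.span ℤ {a, b}) := by
  have hpi := Real.pi_pos
  have na : 0 < ‖a‖ := by linarith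
  have nb : 0 < ‖b‖ := by linarith
  have hna := na.ne'
  have hnb := nb.ne'
  set p : ℝ := (inner ℝ a b : ℝ) / (‖a‖ * ‖b‖) with hp
  have hp0 : 0 ≤ p := by positivity
  have hp1 : p ≤ 1 / 2 := by
    rw [hp, div_le_iff₀ (by positivity)]
    nlinarith
  have hpe : (inner ℝ a b : ℝ) = p * (‖a‖ * ‖b‖) := by rw [hp]; field_simp
  set v : ℝ := Real.sqrt ((1 + p) / 2) with hv
  set u : ℝ := Real.sqrt ((1 - p) / 2) with hu
  have hv0 : 0 < v := Real.sqrt_pos.2 (by linarith)
  have hu0 : 0 < u := Real.sqrt_pos.2 (by linarith)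
  have hv2 : v ^ 2 = (1 + p) / 2 := Real.sq_sqrt (by linarith)
  have hu2 : u ^ 2 = (1 - p) / 2 := Real.sq_sqrt (by linarith)
  have hvn := hv0.ne'
  have hun := hu0.ne'
  set f : E2 := (1 / (2 * v * ‖a‖)) • a + (1 / (2 * v * ‖b‖)) • b with hf
  set e : E2 := (1 / (2 * u * ‖a‖)) • a + (-(1 / (2 * u * ‖b‖))) • b with he
  have nf : ‖f‖ = 1 := by
    have : ‖f‖ ^ 2 = 1 := by
      rw [hf, norm_comb, hpe]
      field_simp
      rw [hv2]; ring
    exact (pow_eq_one_iff_of_nonneg (norm_nonneg f) two_ne_zero).1 this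
  have ne : ‖e‖ = 1 := by
    have : ‖e‖ ^ 2 = 1 := by
      rw [he, norm_comb, hpe]
      field_simp
      rw [hu2]; ring
    exact (pow_eq_one_iff_of_nonneg (norm_nonneg e) two_ne_zero).1 this
  have hef : (inner ℝ e f : ℝ) = 0 := by
    rw [he, hf, inner_add_left, inner_add_right, inner_add_right, inner_smul_left, inner_smul_left,
      inner_smul_left, inner_smul_left, inner_smul_right, inner_smul_right, inner_smul_right,
      inner_smul_right, real_inner_self_eq_norm_sq, real_inner_self_eq_norm_sq,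
      real_inner_comm a b]
    simp only [conj_trivial]
    field_simp
    ring
  have ea : a = (‖a‖ * u) • e + (‖a‖ * v) • f := by
    rw [he, hf, smul_add, smul_add, smul_smul, smul_smul, smul_smul, smul_smul]
    have e1 : ‖a‖ * u * (1 / (2 * u * ‖a‖)) = 1 / 2 := by field_simp
    have e2 : ‖a‖ * v * (1 / (2 * v * ‖a‖)) = 1 / 2 := by field_simp
    have e3 : ‖a‖ * u * -(1 / (2 * u * ‖b‖)) = -(‖a‖ / (2 * ‖b‖)) := by field_simp
    have e4 : ‖a‖ * v * (1 / (2 * v * ‖b‖)) = ‖a‖ / (2 * ‖b‖) := by field_simp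
    rw [e1, e2, e3, e4]; module
  have eb : b = (‖b‖ * v) • f - (‖b‖ * u) • e := by
    rw [he, hf, smul_add, smul_add, smul_smul, smul_smul, smul_smul, smul_smul]
    have e1 : ‖b‖ * u * (1 / (2 * u * ‖a‖)) = ‖b‖ / (2 * ‖a‖) := by field_simp
    have e2 : ‖b‖ * v * (1 / (2 * v * ‖a‖)) = ‖b‖ / (2 * ‖a‖) := by field_simp
    have e3 : ‖b‖ * u * -(1 / (2 * u * ‖b‖)) = -(1 / 2) := by field_simp
    have e4 : ‖b‖ * v * (1 / (2 * v * ‖b‖)) = 1 / 2 := by field_simp
    rw [e1, e2, e3, e4]; module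
  have huv : u ^ 2 + v ^ 2 = 1 := by rw [hu2, hv2]; ring
  have huv' : v ^ 2 + u ^ 2 = 1 := by rw [hu2, hv2]; ring
  refine ⟨e, f, ‖a‖ * u, ‖a‖ * v, ‖b‖ * v, ‖b‖ * u, 1, 1, ne, nf, ?_, ?_, by positivity,
    by positivity, by positivity, by positivity, Or.inl rfl, Or.inl rfl,
    adm_thick ne nf hef hu0 hv0 huv (by rw [hu2]; linarith) (by rw [hv2]; linarith) ha,
    adm_thick nf (by rw [norm_neg, ne]) (by rw [inner_neg_right, real_inner_comm, hef, neg_zero])
      hv0 hu0 huv' (by rw [hv2]; linarith) (by rw [hu2]; linarith) (ha.trans hab), ?_⟩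
  · intro h
    rw [h, real_inner_self_eq_norm_sq, nf] at hef; norm_num at hef
  · intro h
    rw [h, inner_neg_left, real_inner_self_eq_norm_sq, nf] at hef; norm_num at hef
  · intro w hw
    obtain ⟨m, n, rfl⟩ := Submodule.mem_span_pair.1 hw
    exact ⟨m, n, by rw [← ea, ← eb], by simp⟩

end Pool.Agent.helper71.CT
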